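import Pool.Agent.Lib.GHDRace.BUS

/-!
# The book with three pages does not embed (paper T1, coordinates) (size about 150)

Apply `GHDRace.borsuk_ulam (d + 1)` (domain `Fin (d + 3) → ℝ`, target `Fin (d + 2) → ℝ`) to
`f z = Φ z - Φ (-z)`, `Φ z = Fin.cons (α z) (j (P z))`, where for `z : Fin (d+3) → ℝ`:
`u1 = z 0`, `u2 = z 1`, `t_i = z (i + 2)` (`i : Fin (d+1)`), `l = ![u1, u2, 0]`,
`a_i = max 0 (l_i - max_{j ≠ i} l_j)`, `A v = Σ_i a_i [v = w i] + Σ_i (max 0 (t_i)) [v = s i]`,
`α z = Σ_i a_i + Σ_i max 0 t_i = Σ_v A v`, `b v = 1/(d+1)` for `v ∈ range s`, `0` otherwise,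
`c > 0` with `c * α z ≤ 1/2` when `Σ |z_i| = 1` (for instance `a_i ≤ 2`, `α ≤ 6 + 1`,
`c = 1/14`), `P z = (1 - c α) • b + c • A`.
`P z ∈ K`: nonnegative, sum `1`, value at `w 0` is `c a_0 ≤ 1/2`, and at most one `a_i` is `> 0`
(if `a_i > 0` then `l_i > l_j` for all `j ≠ i`).
Continuity of `f` on the `l^1` sphere: `P` is continuous, maps the sphere into `K`.
A zero `z` of `f`: `α z = α (-z)`, `j (P z) = j (P (-z))`, so `P z = P (-z)`, so
`A z = A (-z)` (c > 0).  At `s i`: `max 0 t_i = max 0 (-t_i)`, so `t_i = 0`.  At `w i`: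
`a_i(z) = a_i(-z) = max 0 (min_{j≠i} l_j - l_i)`; both cannot be `> 0` (`l_i > l_j` and
`l_i < l_j`), so both are `0` for all `i`; then the maximum of `l` is attained twice and the minimum
is attained twice among three numbers, so all `l_i` are equal: `u1 = u2 = 0`.  So `z = 0`, but
`Σ |z_i| = 1`.
-/

namespace ThinS

open Finset

/-- the three numbers `u1, u2, 0` -/
private def bl {d : ℕ} (z : Fin (d + 1 + 2) → ℝ) (i : Fin 3) : ℝ :=
  (![z 0, z 1, 0] : Fin 3 → ℝ) i

private theorem bl_neg {d : ℕ} (z : Fin (d + 1 + 2) → ℝ) (i : Fin 3) : bl (-z) i = - bl z i := by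
  fin_cases i <;> simp [bl]

private theorem bl_cont {d : ℕ} (i : Fin 3) : Continuous (fun z : Fin (d + 1 + 2) → ℝ => bl z i) := by
  fin_cases i <;> simp only [bl] <;> simp <;> fun_prop

/-- `max 0 (l_i - max_{j ≠ i} l_j)` -/
private noncomputable def ba {d : ℕ} (z : Fin (d + 1 + 2) → ℝ) (i : Fin 3) : ℝ :=
  max 0 (min (bl z i - bl z (i + 1)) (bl z i - bl z (i + 2)))

private theorem ba_cont {d : ℕ} (i : Fin 3) : Continuous (fun z : Fin (d + 1 + 2) → ℝ => ba z i) := by
  unfold ba
  exact continuous_const.max (((bl_cont i).sub (bl_cont _)).min ((bl_cont i).sub (bl_cont _)))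

private theorem ba_nonneg {d : ℕ} (z : Fin (d + 1 + 2) → ℝ) (i : Fin 3) : 0 ≤ ba z i :=
  le_max_left _ _

private theorem ba_pos {d : ℕ} {z : Fin (d + 1 + 2) → ℝ} {i : Fin 3} (h : 0 < ba z i) :
    bl z (i + 1) < bl z i ∧ bl z (i + 2) < bl z i := by
  unfold ba at h
  rcases lt_max_iff.1 h with h | h
  · exact absurd h (lt_irrefl _)
  · rw [lt_min_iff] at h
    exact ⟨by linarith [h.1], by linarith [h.2]⟩

private theorem fin3_cases : ∀ i i' : Fin 3, ¬ i = i' → i' = i + 1 ∨ i' = i + 2 := by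
  decide

private theorem ba_unique {d : ℕ} {z : Fin (d + 1 + 2) → ℝ} {i i' : Fin 3} (h : 0 < ba z i)
    (h' : 0 < ba z i') : i = i' := by
  have h1 := ba_pos h
  have h2 := ba_pos h'
  by_contra hne
  have h3 := fin3_cases i i' hne
  have h4 := fin3_cases i' i (fun h => hne h.symm)
  have h5 : bl z i' < bl z i := by
    rcases h3 with h | h
    · rw [h]; exact h1.1
    · rw [h]; exact h1.2
  have h6 : bl z i < bl z i' := by
    rcases h4 with h | h
    · rw [h]; exact h2.1
    · rw [h]; exact h2.2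
  linarith

private theorem ba_le {d : ℕ} (z : Fin (d + 1 + 2) → ℝ) (i : Fin 3) : ba z i ≤ |z 0| + |z 1| := by
  unfold ba
  refine max_le (by positivity) ((min_le_left _ _).trans ?_)
  have h0 := le_abs_self (z 0)
  have h1 := le_abs_self (z 1)
  have h2 := neg_abs_le (z 0)
  have h3 := neg_abs_le (z 1)
  have h4 := abs_nonneg (z 0)
  have h5 := abs_nonneg (z 1)
  fin_cases i <;> simp [bl] <;> linarith

private theorem ba_eq {d : ℕ} {z : Fin (d + 1 + 2) → ℝ} {i : Fin 3} (h : ba z i = ba (-z) i) :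
    ba z i = 0 := by
  by_contra hne
  have h1 : 0 < ba z i := lt_of_le_of_ne (ba_nonneg z i) (Ne.symm hne)
  have h2 : 0 < ba (-z) i := h ▸ h1
  have h3 := ba_pos h1
  have h4 := ba_pos h2
  rw [bl_neg, bl_neg] at h4
  linarith [h3.1, h4.1]

private theorem ba_zero {d : ℕ} {z : Fin (d + 1 + 2) → ℝ} (h : ∀ i, ba z i = ba (-z) i) :
    z 0 = 0 ∧ z 1 = 0 := by
  have h1 : ∀ i, ba z i = 0 := fun i => ba_eq (h i)
  have h2 : ∀ i, ba (-z) i = 0 := fun i => by rw [← h i, h1 i]
  have key : ∀ y : Fin (d + 1 + 2) → ℝ, (∀ i, ba y i = 0) →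
      (y 0 - y 1 ≤ 0 ∨ y 0 ≤ 0) ∧ (y 1 ≤ 0 ∨ y 1 - y 0 ≤ 0) ∧ (- y 0 ≤ 0 ∨ - y 1 ≤ 0) := by
    intro y hy
    have e0 := hy 0
    have e1 := hy 1
    have e2 := hy 2
    unfold ba at e0 e1 e2
    have f0 := min_le_iff.1 (max_eq_left_iff.1 e0)
    have f1 := min_le_iff.1 (max_eq_left_iff.1 e1)
    have f2 := min_le_iff.1 (max_eq_left_iff.1 e2)
    simp [bl] at f0 f1 f2
    refine ⟨?_, ?_, ?_⟩
    · rcases f0 with h | h
      · left; linarith
      · right; linarith
    · rcases f1 with h | h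
      · left; linarith
      · right; linarith
    · rcases f2 with h | h
      · left; linarith
      · right; linarith
  obtain ⟨k1, k2, k3⟩ := key z h1
  obtain ⟨k4, k5, k6⟩ := key (-z) h2
  simp only [Pi.neg_apply] at k4 k5 k6
  rcases k1 with k1 | k1 <;> rcases k2 with k2 | k2 <;> rcases k3 with k3 | k3 <;>
    rcases k4 with k4 | k4 <;> rcases k5 with k5 | k5 <;> rcases k6 with k6 | k6 <;>
    exact ⟨by linarith, by linarith⟩

section

variable {n d : ℕ} (w : Fin 3 → Fin n) (s : Fin (d + 1) → Fin n)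

/-- the vector `A` -/
private noncomputable def bA (z : Fin (d + 1 + 2) → ℝ) (v : Fin n) : ℝ :=
  ∑ i, (if v = w i then ba z i else 0) + ∑ t, (if v = s t then max 0 (z t.succ.succ) else 0)

/-- the sum of the coordinates of `A` -/
private noncomputable def bal (z : Fin (d + 1 + 2) → ℝ) : ℝ :=
  ∑ i, ba z i + ∑ t : Fin (d + 1), max 0 (z t.succ.succ)

/-- the barycentre -/
private noncomputable def bb (v : Fin n) : ℝ :=
  ∑ t : Fin (d + 1), (if v = s t then 1 / ((d : ℝ) + 1) else 0)

/-- the point `P z` -/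
private noncomputable def bP (z : Fin (d + 1 + 2) → ℝ) (v : Fin n) : ℝ :=
  (1 - 1 / 6 * bal z) * bb s v + 1 / 6 * bA w s z v

private theorem bA_sum (z : Fin (d + 1 + 2) → ℝ) : ∑ v, bA w s z v = bal z := by
  unfold bA bal
  rw [Finset.sum_add_distrib]
  congr 1
  · rw [Finset.sum_comm]
    refine Finset.sum_congr rfl fun i _ => ?_
    simp
  · rw [Finset.sum_comm]
    refine Finset.sum_congr rfl fun i _ => ?_
    simp

private theorem bb_sum : ∑ v, bb s v = 1 := by
  unfold bb
  rw [Finset.sum_comm]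
  have : ∀ t : Fin (d + 1), ∑ v, (if v = s t then 1 / ((d : ℝ) + 1) else 0) = 1 / ((d : ℝ) + 1) := by
    intro t
    simp
  rw [Finset.sum_congr rfl (fun t _ => this t)]
  simp
  field_simp

private theorem bal_nonneg (z : Fin (d + 1 + 2) → ℝ) : 0 ≤ bal z :=
  add_nonneg (Finset.sum_nonneg fun i _ => ba_nonneg z i)
    (Finset.sum_nonneg fun i _ => le_max_left _ _)

private theorem bal_le (z : Fin (d + 1 + 2) → ℝ) (hz : ∑ i, |z i| = 1) : bal z ≤ 3 := by
  rw [Fin.sum_univ_succ, Fin.sum_univ_succ] at hz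
  have h1 : ∑ i, ba z i ≤ 3 * (|z 0| + |z 1|) := by
    have h : ∑ i, ba z i ≤ ∑ _ : Fin 3, (|z 0| + |z 1|) := Finset.sum_le_sum fun i _ => ba_le z i
    refine h.trans (le_of_eq ?_)
    simp
    ring
  have h2 : ∑ t : Fin (d + 1), max 0 (z t.succ.succ) ≤ ∑ t : Fin (d + 1), |z t.succ.succ| :=
    Finset.sum_le_sum fun t _ => max_le (abs_nonneg _) (le_abs_self _)
  have h3 : 0 ≤ ∑ t : Fin (d + 1), |z t.succ.succ| := Finset.sum_nonneg fun t _ => abs_nonneg _
  have h4 : (Fin.succ 0 : Fin (d + 1 + 2)) = 1 := rfl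
  rw [h4] at hz
  unfold bal
  linarith

private theorem bA_nonneg (z : Fin (d + 1 + 2) → ℝ) (v : Fin n) : 0 ≤ bA w s z v := by
  unfold bA
  refine add_nonneg (Finset.sum_nonneg fun i _ => ?_) (Finset.sum_nonneg fun i _ => ?_)
  · split_ifs
    · exact ba_nonneg z i
    · exact le_refl _
  · split_ifs
    · exact le_max_left _ _
    · exact le_refl _

private theorem bb_nonneg (v : Fin n) : 0 ≤ bb s v := by
  unfold bb
  refine Finset.sum_nonneg fun i _ => ?_
  split_ifs
  · positivity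
  · exact le_refl _

private theorem bb_off {v : Fin n} (hv : v ∉ Set.range s) : bb s v = 0 := by
  unfold bb
  refine Finset.sum_eq_zero fun t _ => ?_
  rw [if_neg]
  intro h
  exact hv ⟨t, h.symm⟩

private theorem bA_off {v : Fin n} (hv : v ∉ Set.range s) (z : Fin (d + 1 + 2) → ℝ) :
    bA w s z v = ∑ i, (if v = w i then ba z i else 0) := by
  unfold bA
  have : ∑ t, (if v = s t then max 0 (z t.succ.succ) else 0) = 0 := by
    refine Finset.sum_eq_zero fun t _ => ?_
    rw [if_neg]
    intro h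
    exact hv ⟨t, h.symm⟩
  rw [this, add_zero]

private theorem bA_w (hw : Function.Injective w) (hws : ∀ i t, w i ≠ s t)
    (z : Fin (d + 1 + 2) → ℝ) (i : Fin 3) : bA w s z (w i) = ba z i := by
  rw [bA_off w s (by rintro ⟨t, h⟩; exact hws i t h.symm)]
  rw [Finset.sum_eq_single i]
  · simp
  · intro i' _ h
    rw [if_neg]
    intro h'
    exact h (hw h').symm
  · intro h
    exact absurd (Finset.mem_univ _) h

private theorem bA_s (hs : Function.Injective s) (hws : ∀ i t, w i ≠ s t)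
    (z : Fin (d + 1 + 2) → ℝ) (t : Fin (d + 1)) : bA w s z (s t) = max 0 (z t.succ.succ) := by
  unfold bA
  have h1 : ∑ i, (if s t = w i then ba z i else 0) = 0 := by
    refine Finset.sum_eq_zero fun i _ => ?_
    rw [if_neg (fun h => hws i t h.symm)]
  rw [h1, zero_add, Finset.sum_eq_single t]
  · simp
  · intro t' _ h
    rw [if_neg]
    intro h'
    exact h (hs h').symm
  · intro h
    exact absurd (Finset.mem_univ _) h

private theorem bal_cont : Continuous (fun z : Fin (d + 1 + 2) → ℝ => bal z) := by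
  unfold bal
  refine (continuous_finsetSum _ fun i _ => ba_cont i).add (continuous_finsetSum _ fun t _ => ?_)
  exact continuous_const.max (continuous_apply _)

private theorem bA_cont (v : Fin n) : Continuous (fun z : Fin (d + 1 + 2) → ℝ => bA w s z v) := by
  unfold bA
  refine (continuous_finsetSum _ fun i _ => ?_).add (continuous_finsetSum _ fun t _ => ?_)
  · split_ifs
    · exact ba_cont i
    · exact continuous_const
  · split_ifs
    · exact continuous_const.max (continuous_apply _)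
    · exact continuous_const

private theorem bP_cont : Continuous (fun z : Fin (d + 1 + 2) → ℝ => bP w s z) := by
  refine continuous_pi fun v => ?_
  unfold bP
  exact ((continuous_const.sub (continuous_const.mul bal_cont)).mul continuous_const).add
    (continuous_const.mul (bA_cont w s v))

private theorem bP_mem (hw : Function.Injective w) (hws : ∀ i t, w i ≠ s t)
    (z : Fin (d + 1 + 2) → ℝ) (hz : ∑ i, |z i| = 1) :
    (∀ v, 0 ≤ bP w s z v) ∧ ∑ v, bP w s z v = 1 ∧ bP w s z (w 0) ≤ 1 / 2 ∧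
      ∃ i, ∀ v, bP w s z v ≠ 0 → v = w i ∨ v ∈ Set.range s := by
  have h3 := bal_le z hz
  refine ⟨?_, ?_, ?_, ?_⟩
  · intro v
    unfold bP
    refine add_nonneg (mul_nonneg (by linarith) (bb_nonneg s v))
      (mul_nonneg (by norm_num) (bA_nonneg w s z v))
  · unfold bP
    rw [Finset.sum_add_distrib, ← Finset.mul_sum, ← Finset.mul_sum, bb_sum, bA_sum]
    ring
  · unfold bP
    rw [bb_off s (by rintro ⟨t, h⟩; exact hws 0 t h.symm), bA_w w s hw hws]
    have : ba z 0 ≤ bal z := by
      unfold bal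
      have h1 : ba z 0 ≤ ∑ i, ba z i :=
        Finset.single_le_sum (fun i _ => ba_nonneg z i) (Finset.mem_univ 0)
      have h2 : 0 ≤ ∑ t : Fin (d + 1), max 0 (z t.succ.succ) :=
        Finset.sum_nonneg fun i _ => le_max_left _ _
      linarith
    linarith
  · have hch : ∃ i, ∀ i', ba z i' ≠ 0 → i' = i := by
      by_cases h : ∃ i, 0 < ba z i
      · obtain ⟨i, hi⟩ := h
        exact ⟨i, fun i' h' => ba_unique (lt_of_le_of_ne (ba_nonneg z i') (Ne.symm h')) hi⟩
      · exact ⟨0, fun i' h' => absurd ⟨i', lt_of_le_of_ne (ba_nonneg z i') (Ne.symm h')⟩ h⟩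
    obtain ⟨i, hi⟩ := hch
    refine ⟨i, fun v hv => ?_⟩
    by_contra hcon
    push Not at hcon
    apply hv
    unfold bP
    rw [bb_off s hcon.2, bA_off w s hcon.2]
    have : ∑ i, (if v = w i then ba z i else 0) = 0 := by
      refine Finset.sum_eq_zero fun i' _ => ?_
      split_ifs with h
      · by_contra hne
        exact hcon.1 (by rw [h, hi i' hne])
      · rfl
    rw [this]
    ring

end

theorem book {n d : ℕ} (w : Fin 3 → Fin n) (s : Fin (d + 1) → Fin n)
    (hw : Function.Injective w) (hs : Function.Injective s) (hws : ∀ i t, w i ≠ s t)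
    (j : (Fin n → ℝ) → (Fin (d + 1) → ℝ)) (K : Set (Fin n → ℝ))
    (hK : K = {x | (∀ v, 0 ≤ x v) ∧ ∑ v, x v = 1 ∧ x (w 0) ≤ 1 / 2 ∧
      ∃ i, ∀ v, x v ≠ 0 → v = w i ∨ v ∈ Set.range s})
    (hj : ContinuousOn j K) (hinj : Set.InjOn j K) : False := by
  set Sph : Set (Fin (d + 1 + 2) → ℝ) := {u | ∑ i, |u i| = 1} with hSph
  have hmem : ∀ z ∈ Sph, bP w s z ∈ K := by
    intro z hz
    rw [hK]
    exact bP_mem w s hw hws z hz
  have hneg : ∀ z ∈ Sph, -z ∈ Sph := by
    intro z hz
    simp only [hSph, Set.mem_ofPred_eq, Pi.neg_apply, abs_neg]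
    exact hz
  set Φ : (Fin (d + 1 + 2) → ℝ) → (Fin (d + 1 + 1) → ℝ) :=
    fun z => Fin.cons (bal z) (j (bP w s z)) with hΦ
  have hΦc : ContinuousOn Φ Sph := by
    have hjP : ContinuousOn (fun z => j (bP w s z)) Sph :=
      hj.comp (bP_cont w s).continuousOn hmem
    refine continuousOn_pi.2 fun i => ?_
    refine Fin.cases ?_ (fun i => ?_) i
    · simp only [hΦ, Fin.cons_zero]
      exact bal_cont.continuousOn
    · simp only [hΦ, Fin.cons_succ]
      exact (continuousOn_pi.1 hjP) i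
  have hΦn : ContinuousOn (fun z => Φ (-z)) Sph :=
    hΦc.comp continuous_neg.continuousOn hneg
  obtain ⟨z, hz, hz0⟩ := GHDRace.borsuk_ulam (d + 1) (fun z => Φ z - Φ (-z)) (hΦc.sub hΦn)
    (fun u _ => by simp only [neg_neg, neg_sub])
  have he : Φ z = Φ (-z) := sub_eq_zero.1 hz0
  have hal : bal z = bal (-z) := by
    have := congrFun he 0
    simpa only [hΦ, Fin.cons_zero] using this
  have hjj : j (bP w s z) = j (bP w s (-z)) := by
    funext i
    have := congrFun he i.succ
    simpa only [hΦ, Fin.cons_succ] using this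
  have hP : bP w s z = bP w s (-z) := hinj (hmem z hz) (hmem _ (hneg z hz)) hjj
  have hA : ∀ v, bA w s z v = bA w s (-z) v := by
    intro v
    have := congrFun hP v
    unfold bP at this
    rw [hal] at this
    linarith
  have h01 := ba_zero (z := z) (fun i => by
    rw [← bA_w w s hw hws z i, ← bA_w w s hw hws (-z) i]
    exact hA _)
  have ht : ∀ t : Fin (d + 1), z t.succ.succ = 0 := by
    intro t
    have := hA (s t)
    rw [bA_s w s hs hws, bA_s w s hs hws] at this
    simp only [Pi.neg_apply] at this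
    rcases le_total 0 (z t.succ.succ) with h | h
    · rw [max_eq_right h, max_eq_left (by linarith)] at this
      exact this
    · rw [max_eq_left h, max_eq_right (by linarith)] at this
      linarith
  have hz1 : ∑ i, |z i| = 1 := hz
  rw [Fin.sum_univ_succ, Fin.sum_univ_succ] at hz1
  have h4 : (Fin.succ 0 : Fin (d + 1 + 2)) = 1 := rfl
  rw [h4, h01.1, h01.2] at hz1
  simp [ht] at hz1

end ThinS
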