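import Pool.Agent.Lib.ThinS.Defs

/-!
# Counting by labelled walks (paper C2)

A code is a function `c : Fin (L+1) → Fin n × Fin n × (Bool × Bool × Bool)`; there are
`(n * n * 8)^(L+1)` of them, and every member of the family comes from a code.
-/

namespace ThinS

open Finset

/-- one step of the walk -/
private def cstep {n : ℕ} (p : Finset (Fin n)) (c : Fin n × Fin n) : Finset (Fin n) :=
  if c.1 ∈ p ∧ c.2 ∉ p then insert c.2 (p.erase c.1) else p

/-- positions -/
private def cpos {n : ℕ} (σ : Finset (Fin n)) (c : ℕ → Fin n × Fin n) : ℕ → Finset (Fin n)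
  | 0 => σ
  | i + 1 => cstep (cpos σ c i) (c i)

private theorem cpos_congr {n : ℕ} (σ : Finset (Fin n)) (c c' : ℕ → Fin n × Fin n) (m : ℕ)
    (h : ∀ i, i < m → c i = c' i) : cpos σ c m = cpos σ c' m := by
  induction m with
  | zero => rfl
  | succ m ih =>
    show cstep (cpos σ c m) (c m) = cstep (cpos σ c' m) (c' m)
    rw [ih (fun i hi => h i (Nat.lt_succ_of_lt hi)), h m (Nat.lt_succ_self m)]

private theorem cstep_adj {k n : ℕ} {e f : Finset (Fin n)} (h : (J k n).Adj e f) :
    ∃ ab : Fin n × Fin n, cstep e ab = f := by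
  obtain ⟨hne, he, hf, hi⟩ := h
  have h1 : (e \ f).card = 1 := by
    have := Finset.card_sdiff_add_card_inter e f
    omega
  have h2 : (f \ e).card = 1 := by
    have := Finset.card_sdiff_add_card_inter f e
    rw [Finset.inter_comm] at this
    omega
  obtain ⟨a, ha⟩ := Finset.card_eq_one.mp h1
  obtain ⟨b, hb⟩ := Finset.card_eq_one.mp h2
  have ha' : a ∈ e ∧ a ∉ f := by
    have : a ∈ e \ f := by rw [ha]; exact Finset.mem_singleton_self a
    exact Finset.mem_sdiff.mp this
  have hb' : b ∈ f ∧ b ∉ e := by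
    have : b ∈ f \ e := by rw [hb]; exact Finset.mem_singleton_self b
    exact Finset.mem_sdiff.mp this
  refine ⟨(a, b), ?_⟩
  unfold cstep
  rw [if_pos ⟨ha'.1, hb'.2⟩]
  ext x
  simp only [Finset.mem_insert, Finset.mem_erase]
  constructor
  · rintro (rfl | ⟨h3, h4⟩)
    · exact hb'.1
    · by_contra h5
      have : x ∈ e \ f := Finset.mem_sdiff.mpr ⟨h4, h5⟩
      rw [ha, Finset.mem_singleton] at this
      exact h3 this
  · intro hx
    by_cases h5 : x ∈ e
    · right
      refine ⟨?_, h5⟩
      rintro rfl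
      exact ha'.2 hx
    · left
      have : x ∈ f \ e := Finset.mem_sdiff.mpr ⟨hx, h5⟩
      rw [hb, Finset.mem_singleton] at this
      exact this

private theorem cstep_stay {n : ℕ} (x : Fin n) (e : Finset (Fin n)) : cstep e (x, x) = e := by
  unfold cstep
  rw [if_neg]
  rintro ⟨h1, h2⟩
  exact h2 h1

open Classical in
/-- the part of the code with a given label -/
private noncomputable def cset {n L : ℕ} (σ : Finset (Fin n)) (ab : ℕ → Fin n × Fin n)
    (l : Fin (L + 1) → Bool) : Finset (Finset (Fin n)) :=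
  ((univ : Finset (Fin (L + 1))).filter (fun i => l i = true)).image (fun i => cpos σ ab i.val)

private theorem cset_eq {k n L : ℕ} {σ : Finset (Fin n)} (ab : ℕ → Fin n × Fin n)
    (w : (J k n).Walk σ σ) (hw : w.length ≤ L) (hab : ∀ i, i < L + 1 → cpos σ ab i = w.getVert i)
    (D : Finset (Finset (Fin n))) (hD : ∀ x ∈ D, x ∈ w.support) (l : Fin (L + 1) → Bool)
    (hl : ∀ i, l i = true ↔ w.getVert i.val ∈ D) : cset σ ab l = D := by
  ext x
  unfold cset
  simp only [Finset.mem_image, Finset.mem_filter, Finset.mem_univ, true_and]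
  constructor
  · rintro ⟨i, hi, rfl⟩
    rw [hab i.val i.isLt]
    exact (hl i).mp hi
  · intro hx
    obtain ⟨m, hm, hml⟩ := SimpleGraph.Walk.mem_support_iff_exists_getVert.mp (hD x hx)
    have hmL : m < L + 1 := by omega
    refine ⟨⟨m, hmL⟩, ?_, ?_⟩
    · rw [hl]
      show w.getVert m ∈ D
      rw [hm]
      exact hx
    · show cpos σ ab m = x
      rw [hab m hmL, hm]

theorem card_le_code (k n L : ℕ) (hk : 1 ≤ k) (σ : Finset (Fin n)) (hσ : σ.card = k)
    (𝓕 : Finset (Finset (Finset (Fin n))))
    (R : Finset (Finset (Fin n)) → Finset (Finset (Fin n)) → Finset (Finset (Fin n)) →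
      Finset (Finset (Fin n)))
    (h : ∀ F ∈ 𝓕, ∃ D B Q : Finset (Finset (Fin n)), F = R D B Q ∧
      ∃ w : (J k n).Walk σ σ, (∀ x ∈ D ∪ B ∪ Q, x ∈ w.support) ∧ w.length ≤ L) :
    𝓕.card ≤ (8 * n ^ 2) ^ (L + 1) := by
  classical
  obtain ⟨x0, hx0⟩ : σ.Nonempty := by
    rw [← Finset.card_pos]
    omega
  let E : (Fin (L + 1) → Fin n × Fin n × (Bool × Bool × Bool)) → ℕ → Fin n × Fin n :=
    fun c i => if hi : i < L + 1 then ((c ⟨i, hi⟩).1, (c ⟨i, hi⟩).2.1) else (x0, x0)
  let Φ : (Fin (L + 1) → Fin n × Fin n × (Bool × Bool × Bool)) → Finset (Finset (Fin n)) :=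
    fun c => R (cset σ (E c) (fun i => (c i).2.2.1)) (cset σ (E c) (fun i => (c i).2.2.2.1))
      (cset σ (E c) (fun i => (c i).2.2.2.2))
  have hsub : 𝓕 ⊆ (univ : Finset (Fin (L + 1) → Fin n × Fin n × (Bool × Bool × Bool))).image Φ := by
    intro F hF
    obtain ⟨D, B, Q, rfl, w, hw, hwl⟩ := h F hF
    have hstep : ∀ i, ∃ ab : Fin n × Fin n, cstep (w.getVert i) ab = w.getVert (i + 1) := by
      intro i
      by_cases hi : i < w.length
      · exact cstep_adj (w.adj_getVert_succ hi)
      · refine ⟨(x0, x0), ?_⟩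
        rw [cstep_stay, w.getVert_of_length_le (by omega), w.getVert_of_length_le (by omega)]
    choose ab hab using hstep
    let c : Fin (L + 1) → Fin n × Fin n × (Bool × Bool × Bool) := fun i =>
      ((ab i.val).1, (ab i.val).2, (decide (w.getVert i.val ∈ D), decide (w.getVert i.val ∈ B),
        decide (w.getVert i.val ∈ Q)))
    have hpos : ∀ i, i < L + 1 → cpos σ (E c) i = w.getVert i := by
      intro i
      induction i with
      | zero =>
        intro _
        show σ = w.getVert 0
        rw [w.getVert_zero]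
      | succ i ih =>
        intro hi
        show cstep (cpos σ (E c) i) (E c i) = w.getVert (i + 1)
        have hi' : i < L + 1 := by omega
        have hE : E c i = ab i := by
          show (if hi : i < L + 1 then ((c ⟨i, hi⟩).1, (c ⟨i, hi⟩).2.1) else (x0, x0)) = ab i
          rw [dif_pos hi']
        rw [ih hi', hE, hab i]
    refine Finset.mem_image.mpr ⟨c, Finset.mem_univ _, ?_⟩
    show R (cset σ (E c) (fun i => (c i).2.2.1)) (cset σ (E c) (fun i => (c i).2.2.2.1))
      (cset σ (E c) (fun i => (c i).2.2.2.2)) = R D B Q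
    have hD : cset σ (E c) (fun i => (c i).2.2.1) = D := by
      refine cset_eq (E c) w hwl hpos D (fun x hx => hw x (by simp [hx])) _ ?_
      intro i
      simp [c]
    have hB : cset σ (E c) (fun i => (c i).2.2.2.1) = B := by
      refine cset_eq (E c) w hwl hpos B (fun x hx => hw x (by simp [hx])) _ ?_
      intro i
      simp [c]
    have hQ : cset σ (E c) (fun i => (c i).2.2.2.2) = Q := by
      refine cset_eq (E c) w hwl hpos Q (fun x hx => hw x (by simp [hx])) _ ?_
      intro i
      simp [c]
    rw [hD, hB, hQ]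
  calc 𝓕.card ≤ ((univ : Finset (Fin (L + 1) → Fin n × Fin n × (Bool × Bool × Bool))).image Φ).card :=
        Finset.card_le_card hsub
    _ ≤ (univ : Finset (Fin (L + 1) → Fin n × Fin n × (Bool × Bool × Bool))).card :=
        Finset.card_image_le
    _ = (8 * n ^ 2) ^ (L + 1) := by
        rw [Finset.card_univ, Fintype.card_fun]
        simp only [Fintype.card_prod, Fintype.card_fin, Fintype.card_bool]
        congr 1
        ring

end ThinS
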