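import Pool.Agent.Lib.ThinS.Defs

/-!
# Components of thin families
-/

namespace ThinS

open Finset

private theorem mem_st' {α : Type*} [DecidableEq α] {F : Finset (Finset α)} {S e : Finset α} :
    e ∈ st F S ↔ e ∈ F ∧ S ⊆ e := by
  unfold st
  rw [Finset.mem_filter]

private theorem adj_of_common {k n : ℕ} {F : Finset (Finset (Fin n))}
    (hF : ∀ e ∈ F, e.card = k) {S f g : Finset (Fin n)} (hS : S.card + 1 = k) (hf : f ∈ F)
    (hg : g ∈ F) (hSf : S ⊆ f) (hSg : S ⊆ g) (hfg : f ≠ g) : (J k n).Adj f g := by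
  refine ⟨hfg, hF f hf, hF g hg, ?_⟩
  have h1 : S.card ≤ (f ∩ g).card := Finset.card_le_card (Finset.subset_inter hSf hSg)
  have h2 : (f ∩ g).card ≤ f.card := Finset.card_le_card Finset.inter_subset_left
  have h3 : (f ∩ g).card ≠ f.card := by
    intro he
    have h4 : f ∩ g = f := Finset.eq_of_subset_of_card_le Finset.inter_subset_left he.ge
    have h5 : f ⊆ g := Finset.inter_eq_left.1 h4
    exact hfg (Finset.eq_of_subset_of_card_le h5 (by rw [hF g hg, hF f hf]))
  have h6 := hF f hf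
  omega

theorem exists_tc (k n : ℕ) (hk : 1 ≤ k) (F : Finset (Finset (Fin n))) (hF : Thin k F)
    (hne : F.Nonempty) : ∃ F' ⊆ F, TC k n F' := by
  classical
  obtain ⟨e, he⟩ := hne
  set F' : Finset (Finset (Fin n)) := F.filter (fun f => ∃ h : f ∈ F,
    ((J k n).induce (F : Set (Finset (Fin n)))).Reachable ⟨e, he⟩ ⟨f, h⟩) with hF'
  have hsub : F' ⊆ F := Finset.filter_subset _ _
  have heF' : e ∈ F' := by
    rw [hF', Finset.mem_filter]
    exact ⟨he, he, SimpleGraph.Reachable.refl _⟩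
  have hstep : ∀ f g : Finset (Fin n), f ∈ F' → g ∈ F → (J k n).Adj f g → g ∈ F' := by
    intro f g hf hg hadj
    rw [hF', Finset.mem_filter] at hf ⊢
    obtain ⟨hfF, _, hr⟩ := hf
    refine ⟨hg, hg, hr.trans ?_⟩
    apply SimpleGraph.Adj.reachable
    exact hadj
  have hwalk : ∀ u v : (F : Set (Finset (Fin n))),
      ((J k n).induce (F : Set (Finset (Fin n)))).Walk u v → ∀ hu : (u : Finset (Fin n)) ∈ F',
      ∃ hv : (v : Finset (Fin n)) ∈ F',
        ((J k n).induce (F' : Set (Finset (Fin n)))).Reachable ⟨u, hu⟩ ⟨v, hv⟩ := by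
    intro u v p
    induction p with
    | nil => intro hu; exact ⟨hu, SimpleGraph.Reachable.refl _⟩
    | @cons u w v h p ih =>
      intro hu
      have hadj : (J k n).Adj (u : Finset (Fin n)) (w : Finset (Fin n)) := h
      have hw : (w : Finset (Fin n)) ∈ F' := hstep _ _ hu w.2 hadj
      obtain ⟨hv, hr⟩ := ih hw
      refine ⟨hv, SimpleGraph.Reachable.trans ?_ hr⟩
      apply SimpleGraph.Adj.reachable
      exact hadj
  refine ⟨F', hsub, ⟨fun f hf => hF.1 f (hsub hf), ?_⟩, ⟨e, heF'⟩, ?_⟩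
  · rintro S hS ⟨f, hf, hSf⟩
    have h1 := hF.2 S hS ⟨f, hsub hf, hSf⟩
    have h2 : st F' S = st F S := by
      ext g
      rw [mem_st', mem_st']
      constructor
      · rintro ⟨h3, h4⟩
        exact ⟨hsub h3, h4⟩
      · rintro ⟨h3, h4⟩
        refine ⟨?_, h4⟩
        by_cases hfg : f = g
        · rw [← hfg]; exact hf
        · exact hstep f g hf h3 (adj_of_common hF.1 hS (hsub hf) h3 hSf h4 hfg)
    rw [h2]
    exact h1
  · have hall : ∀ f : (F' : Set (Finset (Fin n))),
        ((J k n).induce (F' : Set (Finset (Fin n)))).Reachable ⟨e, heF'⟩ f := by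
      rintro ⟨f, hf⟩
      have hf' := hf
      rw [Finset.mem_coe, hF', Finset.mem_filter] at hf'
      obtain ⟨_, h, ⟨p⟩⟩ := hf'
      obtain ⟨_, hr⟩ := hwalk _ _ p heF'
      exact hr
    intro f g
    exact (hall f).symm.trans (hall g)

theorem card_ge (k n : ℕ) (hk : 1 ≤ k) (F : Finset (Finset (Fin n))) (hF : Thin k F)
    (hne : F.Nonempty) : k + 1 ≤ F.card := by
  classical
  obtain ⟨σ, hσ⟩ := hne
  have hσc := hF.1 σ hσ
  have hN : ∀ v : Fin n, ∃ g : Finset (Fin n), v ∈ σ → g ∈ F ∧ σ.erase v ⊆ g ∧ g ≠ σ := by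
    intro v
    by_cases hv : v ∈ σ
    · have hc : (σ.erase v).card + 1 = k := by
        rw [Finset.card_erase_of_mem hv, hσc]
        omega
      have h2 := hF.2 _ hc ⟨σ, hσ, Finset.erase_subset _ _⟩
      have h3 : σ ∈ st F (σ.erase v) := mem_st'.2 ⟨hσ, Finset.erase_subset _ _⟩
      have h4 : ((st F (σ.erase v)).erase σ).card = 1 := by
        rw [Finset.card_erase_of_mem h3, h2]
      obtain ⟨g, hg⟩ := Finset.card_pos.1 (by rw [h4]; exact Nat.one_pos)
      rw [Finset.mem_erase, mem_st'] at hg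
      exact ⟨g, fun _ => ⟨hg.2.1, hg.2.2, hg.1⟩⟩
    · exact ⟨σ, fun h => absurd h hv⟩
  choose N hN using hN
  have hinj : Set.InjOn N (σ : Set (Fin n)) := by
    intro u hu v hv huv
    by_contra hne
    have h1 := hN u hu
    have h2 := hN v hv
    have h3 : σ ⊆ N u := by
      intro x hx
      by_cases hxu : x = u
      · rw [huv]
        exact h2.2.1 (Finset.mem_erase.2 ⟨fun h => hne (hxu ▸ h), hx⟩)
      · exact h1.2.1 (Finset.mem_erase.2 ⟨hxu, hx⟩)
    exact h1.2.2 (Finset.eq_of_subset_of_card_le h3 (by rw [hF.1 _ h1.1, hσc])).symm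
  have hsub : insert σ (σ.image N) ⊆ F := by
    intro g hg
    rw [Finset.mem_insert, Finset.mem_image] at hg
    rcases hg with rfl | ⟨v, hv, rfl⟩
    · exact hσ
    · exact (hN v hv).1
  calc k + 1 = (σ.image N).card + 1 := by rw [Finset.card_image_of_injOn hinj, hσc]
    _ = (insert σ (σ.image N)).card := by
        rw [Finset.card_insert_of_notMem]
        rw [Finset.mem_image]
        rintro ⟨v, hv, h⟩
        exact (hN v hv).2.2 h
    _ ≤ F.card := Finset.card_le_card hsub

end ThinS
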