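import Pool.Agent.Lib.ThinS.Ex

/-!
# The local lemma by counting (paper, Part L) (size about 150; from Ex)

For `S ⊆ Ω` let `good S D` : for all `i ∈ I` with `dom i ⊆ S`, `¬ bad i (D ∩ dom i)`, and
`g S = Ex p S (ind (good S))`.  `g ∅ = 1` (no empty domain), `g S ≥ 0`.
Claim: for all `S ⊆ Ω`, `a ∈ Ω \ S`: `g (insert a S) ≥ (1 - η) g S`.  Strong induction on `S.card`.
`g (insert a S) ≥ g S - Σ_{i ∈ I, a ∈ dom i, dom i ⊆ insert a S} Ex p (insert a S)
  (ind (fun D => good (S \ dom i) (D ∩ (S \ dom i)) ∧ bad i (D ∩ dom i)))`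
(pointwise: if `D ∩ S` is good for `S` and `D` is not good for `insert a S`, some `i` with
`dom i ⊆ insert a S` has `bad i (D ∩ dom i)`, and `a ∈ dom i` (otherwise `dom i ⊆ S`); `good S`
implies `good (S \ dom i)`; `Ex_restrict` for the term `g S`).  `S \ dom i` and `dom i` are disjoint
with union `insert a S`, so by `Ex_union` the term is `g (S \ dom i) * Ex p (dom i) (ind (bad i))`.
By the induction hypothesis, adding the elements of `S ∩ dom i` one at a time to `S \ dom i` (all
the sets are smaller than `S` before adding), `g (S \ dom i) ≤ ((1-η)⁻¹)^|S ∩ dom i| g S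
≤ ((1-η)⁻¹)^|dom i| g S`.  With the hypothesis `h` the sum is `≤ η g S`.
So `g Ω ≥ (1-η)^|Ω| > 0` and some `G ⊆ Ω` is good (otherwise `g Ω = 0`).
-/

namespace ThinS

open Finset

section aux

variable {α ι : Type*} [DecidableEq α]

private theorem ind_nonneg' {β : Type*} (P : β → Prop) (x : β) : 0 ≤ ind P x := by
  unfold ind
  split_ifs <;> norm_num

private theorem ind_le_one' {β : Type*} (P : β → Prop) (x : β) : ind P x ≤ 1 := by
  unfold ind
  split_ifs <;> norm_num

private theorem ind_of {β : Type*} {P : β → Prop} {x : β} (h : P x) : ind P x = 1 := by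
  unfold ind
  rw [if_pos h]

private theorem ind_of_not {β : Type*} {P : β → Prop} {x : β} (h : ¬ P x) : ind P x = 0 := by
  unfold ind
  rw [if_neg h]

private def gd (I : Finset ι) (dom : ι → Finset α) (bad : ι → Finset α → Prop)
    (S D : Finset α) : Prop :=
  ∀ i ∈ I, dom i ⊆ S → ¬ bad i (D ∩ dom i)

private noncomputable def gg (p : ℝ) (I : Finset ι) (dom : ι → Finset α)
    (bad : ι → Finset α → Prop) (S : Finset α) : ℝ :=
  Ex p S (ind (gd I dom bad S))

private theorem gd_sub {I : Finset ι} {dom : ι → Finset α} {bad : ι → Finset α → Prop}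
    {S T D : Finset α} (hTS : T ⊆ S) (h : gd I dom bad S D) : gd I dom bad T (D ∩ T) := by
  intro i hi hT hb
  rw [Finset.inter_assoc, Finset.inter_eq_right.2 hT] at hb
  exact h i hi (hT.trans hTS) hb

private theorem gg_nonneg {p : ℝ} (hp : 0 ≤ p) (hp1 : p ≤ 1) (I : Finset ι)
    (dom : ι → Finset α) (bad : ι → Finset α → Prop) (S : Finset α) :
    0 ≤ gg p I dom bad S := by
  unfold gg
  have h := Ex_mono hp hp1 S (f := fun _ => 0) (g := ind (gd I dom bad S))
    (fun D _ => ind_nonneg' _ D)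
  rw [Ex_const] at h
  exact h

private theorem pointwise (I : Finset ι) (dom : ι → Finset α) (bad : ι → Finset α → Prop)
    (a : α) (S : Finset α) (J : Finset ι)
    (hJ : ∀ i, i ∈ J ↔ i ∈ I ∧ a ∈ dom i ∧ dom i ⊆ insert a S) (D : Finset α) :
    ind (gd I dom bad S) (D ∩ S) ≤ ind (gd I dom bad (insert a S)) D +
      ∑ i ∈ J, ind (gd I dom bad (S \ dom i)) (D ∩ (S \ dom i)) *
        ind (bad i) (D ∩ dom i) := by
  have hnn : ∀ i ∈ J, 0 ≤ ind (gd I dom bad (S \ dom i)) (D ∩ (S \ dom i)) *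
        ind (bad i) (D ∩ dom i) := fun i _ => mul_nonneg (ind_nonneg' _ _) (ind_nonneg' _ _)
  have hs := Finset.sum_nonneg hnn
  by_cases h1 : gd I dom bad (insert a S) D
  · rw [ind_of h1]
    have := ind_le_one' (gd I dom bad S) (D ∩ S)
    linarith
  rw [ind_of_not h1]
  by_cases h2 : gd I dom bad S (D ∩ S)
  · rw [ind_of h2]
    unfold gd at h1
    push Not at h1
    obtain ⟨i, hi, hd, hb⟩ := h1
    have ha : a ∈ dom i := by
      by_contra hna
      have hdS : dom i ⊆ S := by
        intro x hx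
        rcases Finset.mem_insert.1 (hd hx) with h | h
        · rw [h] at hx
          exact absurd hx hna
        · exact h
      refine h2 i hi hdS ?_
      rw [Finset.inter_assoc, Finset.inter_eq_right.2 hdS]
      exact hb
    have hiJ : i ∈ J := (hJ i).2 ⟨hi, ha, hd⟩
    have h3 := Finset.single_le_sum hnn hiJ
    have h4 : gd I dom bad (S \ dom i) (D ∩ (S \ dom i)) := by
      have h5 := gd_sub (T := S \ dom i) Finset.sdiff_subset h2
      rw [Finset.inter_assoc, Finset.inter_eq_right.2 Finset.sdiff_subset] at h5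
      exact h5
    rw [ind_of h4, ind_of hb] at h3
    linarith
  · rw [ind_of_not h2]
    linarith

private theorem step_ineq {p : ℝ} (hp : 0 ≤ p) (hp1 : p ≤ 1) (I : Finset ι)
    (dom : ι → Finset α) (bad : ι → Finset α → Prop) (a : α) (S : Finset α)
    (J : Finset ι)
    (hJ : ∀ i, i ∈ J ↔ i ∈ I ∧ a ∈ dom i ∧ dom i ⊆ insert a S) :
    gg p I dom bad S ≤ gg p I dom bad (insert a S) +
      ∑ i ∈ J, gg p I dom bad (S \ dom i) * Ex p (dom i) (ind (bad i)) := by
  have h1 := Ex_mono hp hp1 (insert a S)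
    (f := fun D => ind (gd I dom bad S) (D ∩ S))
    (g := fun D => ind (gd I dom bad (insert a S)) D +
      ∑ i ∈ J, ind (gd I dom bad (S \ dom i)) (D ∩ (S \ dom i)) *
        ind (bad i) (D ∩ dom i)) (fun D _ => pointwise I dom bad a S J hJ D)
  rw [Ex_restrict p (Finset.subset_insert a S) (ind (gd I dom bad S))] at h1
  have h2 : Ex p (insert a S) (fun D => ind (gd I dom bad (insert a S)) D +
      ∑ i ∈ J, ind (gd I dom bad (S \ dom i)) (D ∩ (S \ dom i)) *
        ind (bad i) (D ∩ dom i)) = Ex p (insert a S) (ind (gd I dom bad (insert a S))) +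
      Ex p (insert a S) (fun D =>
      ∑ i ∈ J, ind (gd I dom bad (S \ dom i)) (D ∩ (S \ dom i)) *
        ind (bad i) (D ∩ dom i)) := by
    unfold Ex
    rw [← Finset.sum_add_distrib]
    exact Finset.sum_congr rfl (fun D _ => mul_add _ _ _)
  rw [h2, Ex_sum] at h1
  refine le_trans h1 (le_of_eq ?_)
  unfold gg
  refine congrArg₂ (· + ·) rfl (Finset.sum_congr rfl (fun i hi => ?_))
  obtain ⟨_, ha, hd⟩ := (hJ i).1 hi
  rw [← Ex_union p (A := S \ dom i) (B := dom i) Finset.sdiff_disjoint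
    (ind (gd I dom bad (S \ dom i))) (ind (bad i))]
  have h3 : S \ dom i ∪ dom i = insert a S := by
    rw [Finset.sdiff_union_self_eq_union]
    ext x
    rw [Finset.mem_union, Finset.mem_insert]
    constructor
    · rintro (h | h)
      · exact Or.inr h
      · exact Finset.mem_insert.1 (hd h)
    · rintro (h | h)
      · rw [h]
        exact Or.inr ha
      · exact Or.inl h
  rw [h3]

private theorem chain {η : ℝ} (hη1 : η < 1) (Ω : Finset α) (g : Finset α → ℝ) (n : ℕ)
    (hn : ∀ T : Finset α, ∀ b ∉ T, T.card < n → insert b T ⊆ Ω →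
      (1 - η) * g T ≤ g (insert b T))
    (T : Finset α) (U : Finset α) (hd : Disjoint T U) (hc : (T ∪ U).card ≤ n)
    (hO : T ∪ U ⊆ Ω) :
    (1 - η) ^ U.card * g T ≤ g (T ∪ U) := by
  induction U using Finset.induction_on with
  | empty =>
    rw [Finset.card_empty, pow_zero, one_mul, Finset.union_empty]
  | insert b U hb ih =>
    rw [Finset.disjoint_insert_right] at hd
    have h1 : b ∉ T ∪ U := by
      rw [Finset.mem_union]
      rintro (h | h)
      · exact hd.1 h
      · exact hb h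
    rw [Finset.union_insert] at hc hO ⊢
    rw [Finset.card_insert_of_notMem h1] at hc
    have h2 := ih hd.2 (by omega) ((Finset.subset_insert _ _).trans hO)
    have h3 := hn (T ∪ U) b h1 (by omega) hO
    rw [Finset.card_insert_of_notMem hb, pow_succ]
    have h4 : (1 - η) * ((1 - η) ^ U.card * g T) ≤ (1 - η) * g (T ∪ U) :=
      mul_le_mul_of_nonneg_left h2 (by linarith)
    calc (1 - η) ^ U.card * (1 - η) * g T = (1 - η) * ((1 - η) ^ U.card * g T) := by ring
      _ ≤ _ := h4
      _ ≤ _ := h3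

private theorem main_step {p η : ℝ} (hp : 0 ≤ p) (hp1 : p ≤ 1) (hη : 0 < η) (hη1 : η < 1)
    (Ω : Finset α) (I : Finset ι) (dom : ι → Finset α) (bad : ι → Finset α → Prop)
    (hK : ∀ a ∈ Ω, ∀ J : Finset ι, (∀ i ∈ J, i ∈ I ∧ a ∈ dom i) →
      ∑ i ∈ J, Ex p (dom i) (ind (bad i)) * ((1 - η)⁻¹) ^ (dom i).card ≤ η) (n : ℕ) :
    ∀ S : Finset α, ∀ a ∉ S, S.card < n → insert a S ⊆ Ω →
      (1 - η) * gg p I dom bad S ≤ gg p I dom bad (insert a S) := by
  classical
  induction n with
  | zero =>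
    intro S a _ h
    exact absurd h (Nat.not_lt_zero _)
  | succ n ih =>
    intro S a ha hc hO
    have h1 := step_ineq hp hp1 I dom bad a S
      (I.filter (fun i => a ∈ dom i ∧ dom i ⊆ insert a S)) (fun i => by rw [Finset.mem_filter])
    have h2 : ∑ i ∈ I.filter (fun i => a ∈ dom i ∧ dom i ⊆ insert a S),
        gg p I dom bad (S \ dom i) * Ex p (dom i) (ind (bad i)) ≤
        ∑ i ∈ I.filter (fun i => a ∈ dom i ∧ dom i ⊆ insert a S),
        gg p I dom bad S * (Ex p (dom i) (ind (bad i)) * ((1 - η)⁻¹) ^ (dom i).card) := by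
      refine Finset.sum_le_sum (fun i _ => ?_)
      have h3 := chain hη1 Ω (gg p I dom bad) n ih (S \ dom i) (S ∩ dom i)
        (Finset.disjoint_left.2 (fun x hx hy => (Finset.mem_sdiff.1 hx).2
          (Finset.mem_inter.1 hy).2))
        (by rw [Finset.sdiff_union_inter]; omega)
        (by
          rw [Finset.sdiff_union_inter]
          exact (Finset.subset_insert _ _).trans hO)
      rw [Finset.sdiff_union_inter] at h3
      have h4 : (0 : ℝ) < 1 - η := by linarith
      have h5 : (1 - η) ^ (dom i).card ≤ (1 - η) ^ (S ∩ dom i).card :=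
        pow_le_pow_of_le_one h4.le (by linarith) (Finset.card_le_card Finset.inter_subset_right)
      have h6 : (1 - η) ^ (dom i).card * gg p I dom bad (S \ dom i) ≤ gg p I dom bad S :=
        le_trans (mul_le_mul_of_nonneg_right h5 (gg_nonneg hp hp1 I dom bad _)) h3
      have h7 : gg p I dom bad (S \ dom i) ≤
          gg p I dom bad S * ((1 - η)⁻¹) ^ (dom i).card := by
        rw [inv_pow, ← div_eq_mul_inv, le_div_iff₀ (pow_pos h4 _)]
        linarith [h6, mul_comm ((1 - η) ^ (dom i).card) (gg p I dom bad (S \ dom i))]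
      have h8 : 0 ≤ Ex p (dom i) (ind (bad i)) := by
        have h := Ex_mono hp hp1 (dom i) (f := fun _ => 0) (g := ind (bad i))
          (fun D _ => ind_nonneg' _ D)
        rw [Ex_const] at h
        exact h
      calc gg p I dom bad (S \ dom i) * Ex p (dom i) (ind (bad i)) ≤
          (gg p I dom bad S * ((1 - η)⁻¹) ^ (dom i).card) * Ex p (dom i) (ind (bad i)) :=
            mul_le_mul_of_nonneg_right h7 h8
        _ = _ := by ring
    rw [← Finset.mul_sum] at h2
    have h9 := hK a (hO (Finset.mem_insert_self a S))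
      (I.filter (fun i => a ∈ dom i ∧ dom i ⊆ insert a S))
      (fun i hi => ⟨(Finset.mem_filter.1 hi).1, (Finset.mem_filter.1 hi).2.1⟩)
    have h10 := mul_le_mul_of_nonneg_left h9 (gg_nonneg hp hp1 I dom bad S)
    nlinarith [h1, h2, h10]

end aux

open Classical in
theorem local_lemma {α ι : Type*} [DecidableEq α] (Ω : Finset α) (I : Finset ι)
    (dom : ι → Finset α) (bad : ι → Finset α → Prop) (p η : ℝ) (hp : 0 ≤ p) (hp1 : p ≤ 1)
    (hη : 0 < η) (hη1 : η < 1) (hdom : ∀ i ∈ I, dom i ⊆ Ω) (hne : ∀ i ∈ I, (dom i).Nonempty)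
    (h : ∀ a ∈ Ω, ∑ i ∈ I.filter (fun i => a ∈ dom i),
      Ex p (dom i) (ind (bad i)) * ((1 - η)⁻¹) ^ (dom i).card ≤ η) :
    ∃ G ⊆ Ω, ∀ i ∈ I, ¬ bad i (G ∩ dom i) := by
  classical
  have hex : ∀ i, 0 ≤ Ex p (dom i) (ind (bad i)) * ((1 - η)⁻¹) ^ (dom i).card := by
    intro i
    have h1 := Ex_mono hp hp1 (dom i) (f := fun _ => 0) (g := ind (bad i))
      (fun D _ => ind_nonneg' _ D)
    rw [Ex_const] at h1
    exact mul_nonneg h1 (pow_nonneg (inv_nonneg.2 (by linarith)) _)
  have hK : ∀ a ∈ Ω, ∀ J : Finset ι, (∀ i ∈ J, i ∈ I ∧ a ∈ dom i) →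
      ∑ i ∈ J, Ex p (dom i) (ind (bad i)) * ((1 - η)⁻¹) ^ (dom i).card ≤ η := by
    intro a ha J hJ
    refine le_trans (Finset.sum_le_sum_of_subset_of_nonneg ?_ (fun i _ _ => hex i)) (h a ha)
    intro i hi
    exact Finset.mem_filter.2 (hJ i hi)
  have h1 := chain hη1 Ω (gg p I dom bad) Ω.card
    (main_step hp hp1 hη hη1 Ω I dom bad hK Ω.card) (∅ : Finset α) Ω
    (Finset.disjoint_empty_left Ω)
    (by rw [Finset.empty_union]) (by rw [Finset.empty_union])
  rw [Finset.empty_union] at h1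
  have h0 : gg p I dom bad ∅ = 1 := by
    unfold gg
    have h2 : Ex p ∅ (ind (gd I dom bad ∅)) = Ex p (∅ : Finset α) (fun _ => (1 : ℝ)) := by
      refine Ex_congr p ∅ (fun D _ => ?_)
      refine ind_of ?_
      intro i hi hs
      obtain ⟨x, hx⟩ := hne i hi
      exact absurd (hs hx) (Finset.notMem_empty x)
    rw [h2, Ex_const]
  rw [h0, mul_one] at h1
  by_contra hcon
  push Not at hcon
  have h2 : gg p I dom bad Ω = 0 := by
    unfold gg
    have h3 : Ex p Ω (ind (gd I dom bad Ω)) = Ex p Ω (fun _ => (0 : ℝ)) := by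
      refine Ex_congr p Ω (fun D hD => ?_)
      refine ind_of_not ?_
      intro hg
      obtain ⟨i, hi, hb⟩ := hcon D hD
      exact hg i hi (hdom i hi) hb
    rw [h3, Ex_const]
  rw [h2] at h1
  have h3 : 0 < (1 - η) ^ Ω.card := pow_pos (by linarith) _
  linarith

end ThinS
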