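import Pool.Agent.Lib.ThinS.Ex

/-!
# Two probabilities (size about 60; from Ex)

`prob_low`: for `D ⊆ S` with `2 |D| < n` we have `|S \ D| ≥ t` (`2 t + n ≤ 2 |S| + 1`), so
`wt p S D ≤ (1-p)^|S \ D| ≤ (1-p)^t`; there are `2^|S|` sets `D`.
`prob_all`: the only `D ⊆ F` with `F ⊆ D` is `F`, of weight `p^|F|`.
-/

namespace ThinS

open Finset

variable {α : Type*} [DecidableEq α]

theorem prob_low (S : Finset α) (p : ℝ) (hp : 0 ≤ p) (hp1 : p ≤ 1) (n t : ℕ)
    (ht : 2 * t + n ≤ 2 * S.card + 1) :
    Ex p S (ind (fun D => 2 * D.card < n)) ≤ 2 ^ S.card * (1 - p) ^ t := by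
  unfold Ex
  have hq : 0 ≤ 1 - p := by linarith
  have hq1 : 1 - p ≤ 1 := by linarith
  have h1 : ∀ D ∈ S.powerset, wt p S D * ind (fun D => 2 * D.card < n) D ≤ (1 - p) ^ t := by
    intro D hD
    rw [mem_powerset] at hD
    unfold ind
    by_cases h : 2 * D.card < n
    · rw [if_pos h, mul_one]
      unfold wt
      have h2 : t ≤ (S \ D).card := by
        have h3 := card_sdiff_add_card_eq_card hD
        omega
      calc p ^ D.card * (1 - p) ^ (S \ D).card ≤ 1 * (1 - p) ^ t :=
            mul_le_mul (pow_le_one₀ hp hp1) (pow_le_pow_of_le_one hq hq1 h2) (by positivity)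
              zero_le_one
        _ = (1 - p) ^ t := one_mul _
    · rw [if_neg h, mul_zero]
      positivity
  refine (Finset.sum_le_card_nsmul _ _ _ h1).trans (le_of_eq ?_)
  rw [card_powerset, nsmul_eq_mul]
  push_cast
  rfl

theorem prob_all (F : Finset α) (p : ℝ) :
    Ex p F (ind (fun D => F ⊆ D)) = p ^ F.card := by
  unfold Ex
  rw [Finset.sum_eq_single F]
  · unfold ind wt
    rw [if_pos (Subset.refl F), sdiff_self, mul_one]
    simp
  · intro D hD hne
    rw [mem_powerset] at hD
    unfold ind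
    rw [if_neg (fun h => hne (Subset.antisymm hD h)), mul_zero]
  · intro h
    exact absurd (mem_powerset_self F) h

end ThinS
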