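import Pool.Agent.Lib.ThinS.Defs

/-!
# Parameters (real analysis, K tends to infinity)
-/

namespace ThinS

open Finset

private theorem ev1 : ∀ᶠ K : ℕ in Filter.atTop,
    rate (K ^ 4) (K ^ 8) (K ^ 2) (1 / (K : ℝ)) ≤ 3 / K := by
  have hlim : Filter.Tendsto (fun K : ℕ => ((K : ℝ) / 3) ^ 13 * Real.exp (-((K : ℝ) / 3)))
      Filter.atTop (nhds 0) :=
    (Real.tendsto_pow_mul_exp_neg_atTop_nhds_zero 13).comp
      ((tendsto_natCast_atTop_atTop (R := ℝ)).atTop_div_const (by norm_num))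
  have h1 := hlim.eventually (gt_mem_nhds (show (0 : ℝ) < 1 / 3 ^ 13 by positivity))
  filter_upwards [h1, Filter.eventually_ge_atTop 4] with K hK hK4
  have hKr : (4 : ℝ) ≤ K := by exact_mod_cast hK4
  have hK0 : (0 : ℝ) < K := by linarith
  have a1 : (2 : ℝ) ^ (K ^ 2) * (1 - 1 / (K : ℝ) / 2) ^ (K ^ 4) ≤ 1 / K := by
    have b1 : (2 : ℝ) ^ (K ^ 2) ≤ Real.exp ((K : ℝ) ^ 2) := by
      have : (2 : ℝ) ≤ Real.exp 1 := by
        have := Real.add_one_le_exp (1 : ℝ)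
        linarith
      calc (2 : ℝ) ^ (K ^ 2) ≤ (Real.exp 1) ^ (K ^ 2) :=
            pow_le_pow_left₀ (by norm_num) this _
        _ = Real.exp ((K : ℝ) ^ 2) := by
            rw [← Real.exp_nat_mul]; push_cast; ring_nf
    have b2 : (1 - 1 / (K : ℝ) / 2) ^ (K ^ 4) ≤ Real.exp (-((K : ℝ) ^ 3 / 2)) := by
      have c1 : 0 ≤ 1 - 1 / (K : ℝ) / 2 := by
        have : 1 / (K : ℝ) ≤ 1 / 4 := one_div_le_one_div_of_le (by norm_num) hKr
        linarith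
      have c2 : 1 - 1 / (K : ℝ) / 2 ≤ Real.exp (-(1 / (K : ℝ) / 2)) := by
        have := Real.add_one_le_exp (-(1 / (K : ℝ) / 2))
        linarith
      calc (1 - 1 / (K : ℝ) / 2) ^ (K ^ 4) ≤ (Real.exp (-(1 / (K : ℝ) / 2))) ^ (K ^ 4) :=
            pow_le_pow_left₀ c1 c2 _
        _ = Real.exp (-((K : ℝ) ^ 3 / 2)) := by
            rw [← Real.exp_nat_mul]
            congr 1
            push_cast
            field_simp
    have b3 : Real.exp ((K : ℝ) ^ 2) * Real.exp (-((K : ℝ) ^ 3 / 2)) ≤ Real.exp (-(K : ℝ)) := by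
      rw [← Real.exp_add]
      apply Real.exp_le_exp.2
      nlinarith [sq_nonneg ((K : ℝ)), mul_nonneg hK0.le (sub_nonneg.2 hKr),
        mul_nonneg (sq_nonneg (K : ℝ)) (sub_nonneg.2 hKr)]
    have b4 : Real.exp (-(K : ℝ)) ≤ 1 / K := by
      rw [Real.exp_neg, ← one_div]
      apply one_div_le_one_div_of_le hK0
      have := Real.add_one_le_exp (K : ℝ)
      linarith
    calc (2 : ℝ) ^ (K ^ 2) * (1 - 1 / (K : ℝ) / 2) ^ (K ^ 4)
        ≤ Real.exp ((K : ℝ) ^ 2) * Real.exp (-((K : ℝ) ^ 3 / 2)) := by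
          apply mul_le_mul b1 b2 _ (Real.exp_pos _).le
          apply pow_nonneg
          have : 1 / (K : ℝ) ≤ 1 / 4 := one_div_le_one_div_of_le (by norm_num) hKr
          linarith
      _ ≤ 1 / K := b3.trans b4
  have a2 : ((K ^ 4 : ℕ) : ℝ) * ((K ^ 8 : ℕ) : ℝ) * ((1 + 1 / (K : ℝ) / 2) ^ (K ^ 2))⁻¹ ≤ 1 / K := by
    have b1 : Real.exp ((K : ℝ) / 3) ≤ (1 + 1 / (K : ℝ) / 2) ^ (K ^ 2) := by
      have c1 : Real.exp (1 / (2 * (K : ℝ) + 1)) ≤ 1 + 1 / (K : ℝ) / 2 := by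
        have d1 := Real.add_one_le_exp (-(1 / (2 * (K : ℝ) + 1)))
        have d2 : 0 < -(1 / (2 * (K : ℝ) + 1)) + 1 := by
          have : 1 / (2 * (K : ℝ) + 1) < 1 := by
            rw [div_lt_one (by positivity)]
            linarith
          linarith
        rw [Real.exp_neg] at d1
        have d3 := inv_anti₀ d2 d1
        rw [inv_inv] at d3
        refine d3.trans (le_of_eq ?_)
        field_simp
        ring
      calc Real.exp ((K : ℝ) / 3) ≤ Real.exp ((K ^ 2 : ℕ) * (1 / (2 * (K : ℝ) + 1))) := by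
            apply Real.exp_le_exp.2
            push_cast
            rw [mul_one_div, div_le_div_iff₀ (by norm_num) (by positivity)]
            nlinarith
        _ = (Real.exp (1 / (2 * (K : ℝ) + 1))) ^ (K ^ 2) := by
            rw [← Real.exp_nat_mul]
        _ ≤ (1 + 1 / (K : ℝ) / 2) ^ (K ^ 2) :=
            pow_le_pow_left₀ (Real.exp_pos _).le c1 _
    have b2 : ((1 + 1 / (K : ℝ) / 2) ^ (K ^ 2))⁻¹ ≤ Real.exp (-((K : ℝ) / 3)) := by
      rw [Real.exp_neg]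
      exact inv_anti₀ (Real.exp_pos _) b1
    have b3 : (K : ℝ) ^ 13 * Real.exp (-((K : ℝ) / 3)) ≤ 1 := by
      have e1 : ((K : ℝ) / 3) ^ 13 = (K : ℝ) ^ 13 / 3 ^ 13 := by rw [div_pow]
      rw [e1] at hK
      have e2 : (K : ℝ) ^ 13 / 3 ^ 13 * Real.exp (-((K : ℝ) / 3)) =
          ((K : ℝ) ^ 13 * Real.exp (-((K : ℝ) / 3))) / 3 ^ 13 := by ring
      rw [e2, div_lt_div_iff_of_pos_right (by positivity)] at hK
      exact hK.le
    push_cast
    calc (K : ℝ) ^ 4 * (K : ℝ) ^ 8 * ((1 + 1 / (K : ℝ) / 2) ^ (K ^ 2))⁻¹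
        ≤ (K : ℝ) ^ 4 * (K : ℝ) ^ 8 * Real.exp (-((K : ℝ) / 3)) :=
          mul_le_mul_of_nonneg_left b2 (by positivity)
      _ = ((K : ℝ) ^ 13 * Real.exp (-((K : ℝ) / 3))) / K := by field_simp
      _ ≤ 1 / K := div_le_div_of_nonneg_right b3 hK0.le
  unfold rate
  calc 1 / (K : ℝ) + 2 ^ (K ^ 2) * (1 - 1 / (K : ℝ) / 2) ^ (K ^ 4) +
        ((K ^ 4 : ℕ) : ℝ) * ((K ^ 8 : ℕ) : ℝ) * ((1 + 1 / (K : ℝ) / 2) ^ (K ^ 2))⁻¹
      ≤ 1 / K + 1 / K + 1 / K := by linarith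
    _ = 3 / K := by ring

private theorem ev2 : ∀ᶠ K : ℕ in Filter.atTop,
    26 * (3 + 16 * Real.log (K : ℝ)) ≤ Real.log (101 / 100) * K := by
  have hc : 0 < Real.log (101 / 100) := Real.log_pos (by norm_num)
  have h1 : Filter.Tendsto (fun x : ℝ => Real.log x / x) Filter.atTop (nhds 0) := by
    have := Real.isLittleO_log_id_atTop.tendsto_div_nhds_zero
    simpa using this
  have h2 := (h1.comp (tendsto_natCast_atTop_atTop (R := ℝ))).eventually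
    (gt_mem_nhds (show (0 : ℝ) < Real.log (101 / 100) / 832 by positivity))
  have h3 : ∀ᶠ K : ℕ in Filter.atTop, 156 / Real.log (101 / 100) ≤ (K : ℝ) :=
    (tendsto_natCast_atTop_atTop (R := ℝ)).eventually_ge_atTop _
  filter_upwards [h2, h3, Filter.eventually_ge_atTop 1] with K hK hK3 hK1
  have hK0 : (0 : ℝ) < K := by exact_mod_cast hK1
  have h4 : Real.log (K : ℝ) / K < Real.log (101 / 100) / 832 := hK
  rw [div_lt_iff₀ hK0] at h4
  rw [div_le_iff₀ hc] at hK3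
  nlinarith

private theorem ev3 : ∀ᶠ K : ℕ in Filter.atTop, 32 * (31 / 32 : ℝ) ^ (K ^ 4 + 1) ≤ 1 / 128 := by
  have h1 : Filter.Tendsto (fun m : ℕ => (31 / 32 : ℝ) ^ m) Filter.atTop (nhds 0) :=
    tendsto_pow_atTop_nhds_zero_of_lt_one (by norm_num) (by norm_num)
  have h2 : Filter.Tendsto (fun K : ℕ => K ^ 4 + 1) Filter.atTop Filter.atTop := by
    refine Filter.tendsto_atTop_mono (fun K => ?_) Filter.tendsto_id
    show K ≤ K ^ 4 + 1
    exact (Nat.le_self_pow (by norm_num) K).trans (Nat.le_succ _)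
  have h3 := (h1.comp h2).eventually (gt_mem_nhds (show (0 : ℝ) < 1 / 4096 by norm_num))
  filter_upwards [h3] with K hK
  have : (31 / 32 : ℝ) ^ (K ^ 4 + 1) < 1 / 4096 := hK
  linarith

private theorem ev4 : ∀ᶠ K : ℕ in Filter.atTop,
    (K : ℝ) ^ 4 * (2 ^ (K ^ 8) * (1 / 16 : ℝ) ^ ((K ^ 8 - 2 * K ^ 4) / 2)) *
      (64 / 63 : ℝ) ^ (K ^ 8) ≤ 1 / 128 := by
  have h1 : Filter.Tendsto (fun m : ℕ => (m : ℝ) * (7 / 10 : ℝ) ^ m) Filter.atTop (nhds 0) :=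
    tendsto_self_mul_const_pow_of_abs_lt_one (by rw [abs_of_pos] <;> norm_num)
  have h2 : Filter.Tendsto (fun K : ℕ => K ^ 8) Filter.atTop Filter.atTop := by
    refine Filter.tendsto_atTop_mono (fun K => ?_) Filter.tendsto_id
    show K ≤ K ^ 8
    exact Nat.le_self_pow (by norm_num) K
  have h3 := (h1.comp h2).eventually (gt_mem_nhds (show (0 : ℝ) < 1 / 128 by norm_num))
  filter_upwards [h3, Filter.eventually_ge_atTop 4] with K hK hK4
  have hK' : ((K ^ 8 : ℕ) : ℝ) * (7 / 10 : ℝ) ^ (K ^ 8) < 1 / 128 := hK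
  have hk : 256 ≤ K ^ 4 := by
    calc 256 = 4 ^ 4 := by norm_num
      _ ≤ K ^ 4 := Nat.pow_le_pow_left hK4 4
  have hn : K ^ 8 = K ^ 4 * K ^ 4 := by ring
  have hq : 2 * K ^ 8 ≤ 5 * ((K ^ 8 - 2 * K ^ 4) / 2) := by
    have h5 : 256 * K ^ 4 ≤ K ^ 8 := by
      rw [hn]; exact Nat.mul_le_mul_right _ hk
    omega
  set n := K ^ 8 with hnn
  set q := (n - 2 * K ^ 4) / 2 with hqq
  have h6 : (1 / 16 : ℝ) ^ q ≤ (1 / 3 : ℝ) ^ n := by
    have h7 : ((1 / 16 : ℝ) ^ q) ^ 5 ≤ ((1 / 3 : ℝ) ^ n) ^ 5 := by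
      calc ((1 / 16 : ℝ) ^ q) ^ 5 = (1 / 16 : ℝ) ^ (5 * q) := by rw [← pow_mul, mul_comm]
        _ ≤ (1 / 16 : ℝ) ^ (2 * n) := pow_le_pow_of_le_one (by norm_num) (by norm_num) hq
        _ = (1 / 256 : ℝ) ^ n := by rw [pow_mul]; norm_num
        _ ≤ (1 / 243 : ℝ) ^ n := pow_le_pow_left₀ (by norm_num) (by norm_num) _
        _ = ((1 / 3 : ℝ) ^ n) ^ 5 := by rw [← pow_mul, mul_comm n 5, pow_mul]; norm_num
    exact le_of_pow_le_pow_left₀ (by norm_num) (by positivity) h7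
  have h8 : (K : ℝ) ^ 4 ≤ (n : ℝ) := by
    have : K ^ 4 ≤ n := by
      rw [hn]; exact Nat.le_mul_of_pos_left _ (by omega)
    exact_mod_cast this
  calc (K : ℝ) ^ 4 * (2 ^ n * (1 / 16 : ℝ) ^ q) * (64 / 63 : ℝ) ^ n
      ≤ (n : ℝ) * (2 ^ n * (1 / 3 : ℝ) ^ n) * (64 / 63 : ℝ) ^ n := by
        apply mul_le_mul_of_nonneg_right _ (by positivity)
        apply mul_le_mul h8 _ (by positivity) (by positivity)
        exact mul_le_mul_of_nonneg_left h6 (by positivity)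
    _ = (n : ℝ) * (128 / 189 : ℝ) ^ n := by
        rw [mul_assoc, ← mul_pow, ← mul_pow]; norm_num
    _ ≤ (n : ℝ) * (7 / 10 : ℝ) ^ n := by
        apply mul_le_mul_of_nonneg_left _ (by positivity)
        exact pow_le_pow_left₀ (by norm_num) (by norm_num) _
    _ ≤ 1 / 128 := hK'.le

theorem exists_params : ∃ K : ℕ, 2 ≤ K ∧
    rate (K ^ 4) (K ^ 8) (K ^ 2) (1 / (K : ℝ)) ≤ 3 / K ∧
    (∀ N L : ℕ, K ^ 4 + 1 ≤ N → (L : ℝ) ≤ 6 * (3 * N / K + 1) + 1 →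
      ((8 * (K ^ 8) ^ 2 : ℕ) : ℝ) ^ (L + 1) ≤ (101 / 100 : ℝ) ^ N) ∧
    32 * (31 / 32 : ℝ) ^ (K ^ 4 + 1) ≤ 1 / 128 ∧
    (K : ℝ) ^ 4 * (2 ^ (K ^ 8) * (1 / 16 : ℝ) ^ ((K ^ 8 - 2 * K ^ 4) / 2)) *
      (64 / 63 : ℝ) ^ (K ^ 8) ≤ 1 / 128 := by
  obtain ⟨K, ⟨⟨⟨⟨h1, h2⟩, h3⟩, h4⟩, h5⟩⟩ := ((((ev1.and ev2).and ev3).and ev4).and
    (Filter.eventually_ge_atTop 2)).exists
  refine ⟨K, h5, h1, ?_, h3, h4⟩
  intro N L hN hL
  have hKr : (2 : ℝ) ≤ K := by exact_mod_cast h5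
  have hK0 : (0 : ℝ) < K := by linarith
  have hKN : (K : ℝ) ≤ N := by
    have : K ≤ N := ((Nat.le_self_pow (by norm_num) K).trans (Nat.le_succ _)).trans hN
    exact_mod_cast this
  have hN0 : (0 : ℝ) ≤ N := Nat.cast_nonneg _
  have hL1 : ((L : ℝ) + 1) * K ≤ 26 * N := by
    have e1 : (6 * (3 * (N : ℝ) / K + 1) + 1) * K = 18 * N + 7 * K := by
      field_simp
      ring
    have e2 : (L : ℝ) * K ≤ 18 * N + 7 * K := by
      rw [← e1]; exact mul_le_mul_of_nonneg_right hL hK0.le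
    nlinarith
  have hbase : ((8 * (K ^ 8) ^ 2 : ℕ) : ℝ) = 8 * (K : ℝ) ^ 16 := by push_cast; ring
  have hbpos : (0 : ℝ) < 8 * (K : ℝ) ^ 16 := by positivity
  have hlog : Real.log (8 * (K : ℝ) ^ 16) ≤ 3 + 16 * Real.log K := by
    rw [Real.log_mul (by norm_num) (by positivity), Real.log_pow]
    have : Real.log 8 ≤ 3 := by
      have e1 : Real.log 8 = 3 * Real.log 2 := by
        rw [show (8 : ℝ) = 2 ^ 3 by norm_num, Real.log_pow]; norm_num
      have e2 := Real.log_two_lt_d9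
      rw [e1]; linarith
    push_cast
    linarith
  have hlogK : 0 ≤ Real.log (K : ℝ) := Real.log_nonneg (by linarith)
  have hL0 : (0 : ℝ) ≤ (L : ℝ) + 1 := by positivity
  have hmain : ((L : ℝ) + 1) * Real.log (8 * (K : ℝ) ^ 16) ≤ N * Real.log (101 / 100) := by
    have e1 : ((L : ℝ) + 1) * Real.log (8 * (K : ℝ) ^ 16) ≤
        ((L : ℝ) + 1) * (3 + 16 * Real.log K) := mul_le_mul_of_nonneg_left hlog hL0
    have e2 : (((L : ℝ) + 1) * (3 + 16 * Real.log K)) * K ≤ (N * Real.log (101 / 100)) * K := by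
      calc (((L : ℝ) + 1) * (3 + 16 * Real.log K)) * K =
            (((L : ℝ) + 1) * K) * (3 + 16 * Real.log K) := by ring
        _ ≤ (26 * N) * (3 + 16 * Real.log K) :=
            mul_le_mul_of_nonneg_right hL1 (by linarith)
        _ = N * (26 * (3 + 16 * Real.log K)) := by ring
        _ ≤ N * (Real.log (101 / 100) * K) := mul_le_mul_of_nonneg_left h2 hN0
        _ = (N * Real.log (101 / 100)) * K := by ring
    exact e1.trans (le_of_mul_le_mul_right e2 hK0)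
  rw [hbase]
  calc (8 * (K : ℝ) ^ 16) ^ (L + 1) = Real.exp (((L : ℝ) + 1) * Real.log (8 * (K : ℝ) ^ 16)) := by
        rw [← Nat.cast_succ, Real.exp_nat_mul, Real.exp_log hbpos]
    _ ≤ Real.exp (N * Real.log (101 / 100)) := Real.exp_le_exp.2 hmain
    _ = (101 / 100 : ℝ) ^ N := by
        rw [Real.exp_nat_mul, Real.exp_log (by norm_num)]

end ThinS
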