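import Pool.Agent.Lib.ThinS.Count
import Pool.Agent.Lib.ThinS.Comp
import Pool.Agent.Lib.ThinS.Local
import Pool.Agent.Lib.ThinS.Low
import Pool.Agent.Lib.ThinS.Num

/-!
# The `k`-graph (paper, Part L) (size about 200; assembly)

`K` from `exists_params`, `k = K^4`, `n = K^8`, `Ω = powersetCard k univ`, `p = 15/16`,
`η = 1/64` (so `(1-η)⁻¹ = 64/63`).  Events: index type
`Finset (Fin n) ⊕ Finset (Finset (Fin n))`, `I` = the `inl ρ` with `ρ.card + 1 = k` and the `inr F`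
with `TC k n F`; `dom (inl ρ) = {e ∈ Ω : ρ ⊆ e}` (of size `n - k + 1`), `bad (inl ρ) D` :
`2 |D| < n`; `dom (inr F) = F`, `bad (inr F) D` : `F ⊆ D`.
Condition of `local_lemma` at `a ∈ Ω`:
* the `ρ` with `a ∈ dom ρ`: `ρ ⊆ a`, so `k` of them, each term
  `≤ 2^m (1/16)^t (64/63)^m`, `m = n - k + 1 ≤ n`, `t = (n - 2k)/2` (`prob_low`; `2t + n ≤ 2m + 1`);
  total `≤ 1/128` by the last item of `exists_params`.
* the `F ∋ a`: `Σ_N #{F : TC, a ∈ F, |F| = N} (15/16 * 64/63)^N`; only `N ≥ k+1` (`card_ge`);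
  `count_tc` with `θ = K^2`, `ε = 1/K`, `L = ⌈6 (3N/K + 1)⌉₊` and `exists_params` give
  `# ≤ (101/100)^N`; `101/100 * 15/16 * 64/63 ≤ 31/32`; the geometric series from `k+1` is
  `≤ 32 (31/32)^(k+1) ≤ 1/128`.
The sum is `≤ 1/64 = η`.  The set `G` has `st G ρ = G ∩ dom ρ`, so `n ≤ 2 |st G ρ|`; a nonempty
thin `F ⊆ G` contains a `TC` family `F'` (`exists_tc`), `F' ⊆ G ∩ F'`, contradiction.
-/

namespace ThinS

open Finset

open Classical in
private lemma sum_tc (K : ℕ) (hK : 2 ≤ K)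
    (h1 : rate (K ^ 4) (K ^ 8) (K ^ 2) (1 / (K : ℝ)) ≤ 3 / K)
    (h2 : ∀ N L : ℕ, K ^ 4 + 1 ≤ N → (L : ℝ) ≤ 6 * (3 * N / K + 1) + 1 →
      ((8 * (K ^ 8) ^ 2 : ℕ) : ℝ) ^ (L + 1) ≤ (101 / 100 : ℝ) ^ N)
    (h3 : 32 * (31 / 32 : ℝ) ^ (K ^ 4 + 1) ≤ 1 / 128) (a : Finset (Fin (K ^ 8))) :
    ∑ F ∈ (univ : Finset (Finset (Finset (Fin (K ^ 8))))).filter
      (fun F => TC (K ^ 4) (K ^ 8) F ∧ a ∈ F), (15 / 16 * (64 / 63) : ℝ) ^ F.card ≤ 1 / 128 := by
  have hK0 : (0 : ℝ) < K := by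
    have : 0 < K := by omega
    exact_mod_cast this
  have hk1 : 1 ≤ K ^ 4 := Nat.one_le_pow _ _ (by omega)
  set 𝓢 := (univ : Finset (Finset (Finset (Fin (K ^ 8))))).filter
      (fun F => TC (K ^ 4) (K ^ 8) F ∧ a ∈ F) with h𝓢
  set M : ℕ := (univ : Finset (Finset (Fin (K ^ 8)))).card + 1 with hM
  have hmap : ∀ F ∈ 𝓢, F.card ∈ Ico (K ^ 4 + 1) M := by
    intro F hF
    rw [h𝓢, mem_filter] at hF
    rw [mem_Ico]
    exact ⟨card_ge _ _ hk1 F hF.2.1.1 hF.2.1.2.1, Nat.lt_succ_of_le (card_le_card (subset_univ F))⟩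
  rw [← sum_fiberwise_of_maps_to hmap]
  have hle : ∀ N ∈ Ico (K ^ 4 + 1) M,
      ∑ F ∈ 𝓢 with F.card = N, (15 / 16 * (64 / 63) : ℝ) ^ F.card ≤ (31 / 32 : ℝ) ^ N := by
    intro N hN
    rw [mem_Ico] at hN
    have e1 : ∑ F ∈ 𝓢 with F.card = N, (15 / 16 * (64 / 63) : ℝ) ^ F.card =
        ((𝓢.filter (fun F => F.card = N)).card : ℝ) * (15 / 16 * (64 / 63) : ℝ) ^ N := by
      rw [← nsmul_eq_mul, ← sum_const]
      refine sum_congr rfl fun F hF => ?_
      rw [(mem_filter.1 hF).2]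
    rw [e1]
    set L : ℕ := ⌈6 * (3 * (N : ℝ) / K + 1)⌉₊ with hL
    have hx0 : (0 : ℝ) ≤ 6 * (3 * (N : ℝ) / K + 1) := by positivity
    have hL1 : 6 * ((N : ℝ) * rate (K ^ 4) (K ^ 8) (K ^ 2) (1 / (K : ℝ)) + 1) ≤ L := by
      refine le_trans ?_ (Nat.le_ceil _)
      have : (N : ℝ) * rate (K ^ 4) (K ^ 8) (K ^ 2) (1 / (K : ℝ)) ≤ N * (3 / K) :=
        mul_le_mul_of_nonneg_left h1 (Nat.cast_nonneg _)
      have e2 : (N : ℝ) * (3 / K) = 3 * N / K := by ring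
      rw [e2] at this
      linarith
    have hL2 : (L : ℝ) ≤ 6 * (3 * N / K + 1) + 1 := (Nat.ceil_lt_add_one hx0).le
    have hε1 : 1 / (K : ℝ) ≤ 1 := by
      rw [div_le_one hK0]
      have : 1 ≤ K := by omega
      exact_mod_cast this
    have hc := count_tc (K ^ 4) (K ^ 8) (K ^ 2) N L hk1 (Nat.one_le_pow _ _ (by omega))
      (1 / (K : ℝ)) (by positivity) hε1 a hL1
    have hc' : (𝓢.filter (fun F => F.card = N)).card ≤ (8 * (K ^ 8) ^ 2) ^ (L + 1) := by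
      refine le_trans (card_le_card ?_) hc
      intro F hF
      rw [mem_filter, h𝓢, mem_filter] at hF
      rw [mem_filter]
      exact ⟨mem_univ _, hF.1.2.1, hF.1.2.2, hF.2⟩
    have hc2 : ((𝓢.filter (fun F => F.card = N)).card : ℝ) ≤ (101 / 100 : ℝ) ^ N := by
      refine le_trans ?_ (h2 N L hN.1 hL2)
      rw [← Nat.cast_pow]
      exact Nat.cast_le.2 hc'
    calc ((𝓢.filter (fun F => F.card = N)).card : ℝ) * (15 / 16 * (64 / 63) : ℝ) ^ N
        ≤ (101 / 100 : ℝ) ^ N * (15 / 16 * (64 / 63) : ℝ) ^ N :=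
          mul_le_mul_of_nonneg_right hc2 (by positivity)
      _ = (101 / 100 * (15 / 16 * (64 / 63)) : ℝ) ^ N := (mul_pow _ _ _).symm
      _ ≤ (31 / 32 : ℝ) ^ N := pow_le_pow_left₀ (by norm_num) (by norm_num) N
  refine le_trans (sum_le_sum hle) ?_
  refine le_trans (geom_sum_Ico_le_of_lt_one (by norm_num) (by norm_num)) ?_
  have : (31 / 32 : ℝ) ^ (K ^ 4 + 1) / (1 - 31 / 32) = 32 * (31 / 32 : ℝ) ^ (K ^ 4 + 1) := by
    norm_num
    ring
  rw [this]
  exact h3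

/-- the `k`-sets containing `ρ` -/
private def dm (k n : ℕ) (ρ : Finset (Fin n)) : Finset (Finset (Fin n)) :=
  ((univ : Finset (Fin n)).powersetCard k).filter (fun e => ρ ⊆ e)

private lemma mem_dm {k n : ℕ} {ρ e : Finset (Fin n)} : e ∈ dm k n ρ ↔ e.card = k ∧ ρ ⊆ e := by
  simp [dm, mem_powersetCard]

private lemma card_dm {k n : ℕ} {ρ : Finset (Fin n)} (hρ : ρ.card + 1 = k) :
    (dm k n ρ).card + k = n + 1 := by
  classical
  have h : dm k n ρ = ρᶜ.image (fun v => insert v ρ) := by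
    ext e
    rw [mem_dm, mem_image]
    constructor
    · rintro ⟨h1, h2⟩
      have h3 : (e \ ρ).card = 1 := by
        rw [card_sdiff_of_subset h2]; omega
      obtain ⟨v, hv⟩ := card_eq_one.1 h3
      have hve : v ∈ e \ ρ := by rw [hv]; exact mem_singleton_self v
      rw [mem_sdiff] at hve
      refine ⟨v, by rw [mem_compl]; exact hve.2, ?_⟩
      rw [insert_eq, ← hv, sdiff_union_of_subset h2]
    · rintro ⟨v, hv, rfl⟩
      rw [mem_compl] at hv
      exact ⟨by rw [card_insert_of_notMem hv, hρ], subset_insert v ρ⟩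
  have hinj : Set.InjOn (fun v => insert v ρ) (ρᶜ : Finset (Fin n)) := by
    intro u hu v hv huv
    simp only [coe_compl, Set.mem_compl_iff, mem_coe] at hu hv
    have : u ∈ insert v ρ := by
      have h0 : insert u ρ = insert v ρ := huv
      rw [← h0]; exact mem_insert_self u ρ
    rcases mem_insert.1 this with h | h
    · exact h
    · exact absurd h hu
  rw [h, card_image_of_injOn hinj, card_compl, Fintype.card_fin]
  have : ρ.card ≤ n := by simpa using card_le_univ ρ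
  omega

open Classical in
private lemma sum_rid (K : ℕ) (hK : 2 ≤ K)
    (h4 : (K : ℝ) ^ 4 * (2 ^ (K ^ 8) * (1 / 16 : ℝ) ^ ((K ^ 8 - 2 * K ^ 4) / 2)) *
      (64 / 63 : ℝ) ^ (K ^ 8) ≤ 1 / 128) (a : Finset (Fin (K ^ 8))) (ha : a.card = K ^ 4) :
    ∑ ρ ∈ (univ : Finset (Finset (Fin (K ^ 8)))).filter
      (fun ρ => ρ.card + 1 = K ^ 4 ∧ a ∈ dm (K ^ 4) (K ^ 8) ρ),
      Ex (15 / 16) (dm (K ^ 4) (K ^ 8) ρ) (ind (fun D => 2 * D.card < K ^ 8)) *
        (64 / 63 : ℝ) ^ (dm (K ^ 4) (K ^ 8) ρ).card ≤ 1 / 128 := by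
  have hk1 : 1 ≤ K ^ 4 := Nat.one_le_pow _ _ (by omega)
  have hn : 2 * K ^ 4 ≤ K ^ 8 := by
    have h1 : K ^ 8 = K ^ 4 * K ^ 4 := by ring
    have h2 : 2 ≤ K ^ 4 := le_trans (by norm_num) (Nat.pow_le_pow_left hK 4)
    rw [h1]
    exact Nat.mul_le_mul_right _ h2
  set T := (univ : Finset (Finset (Fin (K ^ 8)))).filter
      (fun ρ => ρ.card + 1 = K ^ 4 ∧ a ∈ dm (K ^ 4) (K ^ 8) ρ) with hT
  have hTc : T.card ≤ K ^ 4 := by
    have : T ⊆ a.powersetCard (K ^ 4 - 1) := by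
      intro ρ hρ
      rw [hT, mem_filter, mem_dm] at hρ
      rw [mem_powersetCard]
      exact ⟨hρ.2.2.2, by omega⟩
    refine le_trans (card_le_card this) ?_
    rw [card_powersetCard, ha, ← Nat.choose_symm (Nat.sub_le _ _)]
    have : K ^ 4 - (K ^ 4 - 1) = 1 := by omega
    rw [this, Nat.choose_one_right]
  have hb : ∀ ρ ∈ T, Ex (15 / 16) (dm (K ^ 4) (K ^ 8) ρ) (ind (fun D => 2 * D.card < K ^ 8)) *
        (64 / 63 : ℝ) ^ (dm (K ^ 4) (K ^ 8) ρ).card ≤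
        (2 ^ (K ^ 8) * (1 / 16 : ℝ) ^ ((K ^ 8 - 2 * K ^ 4) / 2)) * (64 / 63 : ℝ) ^ (K ^ 8) := by
    intro ρ hρ
    rw [hT, mem_filter] at hρ
    have hc := card_dm (n := K ^ 8) hρ.2.1
    have hm : (dm (K ^ 4) (K ^ 8) ρ).card ≤ K ^ 8 := by omega
    have hp := prob_low (dm (K ^ 4) (K ^ 8) ρ) (15 / 16 : ℝ) (by norm_num) (by norm_num) (K ^ 8)
      ((K ^ 8 - 2 * K ^ 4) / 2) (by omega)
    have e1 : (1 - 15 / 16 : ℝ) = 1 / 16 := by norm_num
    rw [e1] at hp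
    refine mul_le_mul (hp.trans ?_) ?_ (by positivity) (by positivity)
    · exact mul_le_mul_of_nonneg_right (pow_le_pow_right₀ (by norm_num) hm) (by positivity)
    · exact pow_le_pow_right₀ (by norm_num) hm
  refine le_trans (sum_le_sum hb) ?_
  rw [sum_const, nsmul_eq_mul]
  refine le_trans ?_ h4
  have : (T.card : ℝ) ≤ (K : ℝ) ^ 4 := by exact_mod_cast hTc
  rw [mul_assoc ((K : ℝ) ^ 4)]
  exact mul_le_mul_of_nonneg_right this (by positivity)

theorem exists_family : ∃ k n : ℕ, 2 ≤ k ∧ k < n ∧ ∃ G : Finset (Finset (Fin n)),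
    (∀ e ∈ G, e.card = k) ∧
    (∀ S : Finset (Fin n), S.card + 1 = k → n ≤ 2 * (st G S).card) ∧
    ∀ F ⊆ G, F.Nonempty → ¬ Thin k F := by
  classical
  obtain ⟨K, hK, h1, h2, h3, h4⟩ := exists_params
  have hk2 : 2 ≤ K ^ 4 := le_trans (by norm_num) (Nat.pow_le_pow_left hK 4)
  have hkn : K ^ 4 < K ^ 8 := Nat.pow_lt_pow_right (by omega) (by norm_num)
  refine ⟨K ^ 4, K ^ 8, hk2, hkn, ?_⟩
  set k := K ^ 4 with hk
  set n := K ^ 8 with hn
  let I : Finset (Finset (Fin n) ⊕ Finset (Finset (Fin n))) :=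
    ((univ : Finset (Finset (Fin n))).filter (fun ρ => ρ.card + 1 = k)).disjSum
      ((univ : Finset (Finset (Finset (Fin n)))).filter (fun F => TC k n F))
  let dom : Finset (Fin n) ⊕ Finset (Finset (Fin n)) → Finset (Finset (Fin n)) :=
    Sum.elim (fun ρ => dm k n ρ) (fun F => F)
  let bad : Finset (Fin n) ⊕ Finset (Finset (Fin n)) → Finset (Finset (Fin n)) → Prop :=
    Sum.elim (fun _ D => 2 * D.card < n) (fun F D => F ⊆ D)
  have hdom : ∀ i ∈ I, dom i ⊆ (univ : Finset (Fin n)).powersetCard k := by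
    rintro (ρ | F) hi
    · exact filter_subset _ _
    · intro e he
      rw [inr_mem_disjSum, mem_filter] at hi
      rw [mem_powersetCard]
      exact ⟨subset_univ _, hi.2.1.1 e he⟩
  have hne : ∀ i ∈ I, (dom i).Nonempty := by
    rintro (ρ | F) hi
    · rw [inl_mem_disjSum, mem_filter] at hi
      have := card_dm (n := n) hi.2
      rw [← card_pos]
      show 0 < (dm k n ρ).card
      omega
    · rw [inr_mem_disjSum, mem_filter] at hi
      exact hi.2.2.1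
  obtain ⟨G, hG, hbad⟩ := local_lemma ((univ : Finset (Fin n)).powersetCard k) I dom bad
    (15 / 16) (1 / 64) (by norm_num) (by norm_num) (by norm_num) (by norm_num) hdom hne (by
      intro a ha
      rw [mem_powersetCard] at ha
      have e0 : ((1 : ℝ) - 1 / 64)⁻¹ = 64 / 63 := by norm_num
      rw [e0, sum_filter]
      show ∑ i ∈ ((univ : Finset (Finset (Fin n))).filter (fun ρ => ρ.card + 1 = k)).disjSum
        ((univ : Finset (Finset (Finset (Fin n)))).filter (fun F => TC k n F)), _ ≤ _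
      rw [sum_disjSum, ← sum_filter, ← sum_filter, filter_filter, filter_filter]
      have p1 := sum_rid K hK h4 a ha.2
      have p2 := sum_tc K hK h1 h2 h3 a
      have e1 : (1 / 64 : ℝ) = 1 / 128 + 1 / 128 := by norm_num
      rw [e1]
      refine add_le_add p1 (le_trans (le_of_eq ?_) p2)
      refine sum_congr rfl fun F _ => ?_
      show Ex (15 / 16) F (ind (fun D => F ⊆ D)) * (64 / 63 : ℝ) ^ F.card = _
      rw [prob_all, mul_pow])
  have hGk : ∀ e ∈ G, e.card = k := fun e he => (mem_powersetCard.1 (hG he)).2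
  refine ⟨G, hGk, ?_, ?_⟩
  · intro S hS
    have hi : (Sum.inl S : Finset (Fin n) ⊕ Finset (Finset (Fin n))) ∈ I := by
      rw [inl_mem_disjSum, mem_filter]
      exact ⟨mem_univ _, hS⟩
    have hb : ¬ (2 * (G ∩ dm k n S).card < n) := hbad _ hi
    have : G ∩ dm k n S = st G S := by
      ext e
      rw [mem_inter, mem_dm, st, mem_filter]
      constructor
      · rintro ⟨h1, _, h2⟩; exact ⟨h1, h2⟩
      · rintro ⟨h1, h2⟩; exact ⟨h1, hGk e h1, h2⟩
    rw [this] at hb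
    omega
  · intro F hF hFne hthin
    obtain ⟨F', hF', htc⟩ := exists_tc k n (by omega) F hthin hFne
    have hi : (Sum.inr F' : Finset (Fin n) ⊕ Finset (Finset (Fin n))) ∈ I := by
      rw [inr_mem_disjSum, mem_filter]
      exact ⟨mem_univ _, htc⟩
    have hb : ¬ (F' ⊆ G ∩ F') := hbad _ hi
    exact hb (subset_inter (hF'.trans hF) (Subset.refl _))

end ThinS
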