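import Mathlib

/-!
# A short closed walk through a dominating set (paper C2) (size about 150; pure graph theory)

`G` a graph, `F` a finite set of vertices inducing a connected graph, `S ⊆ F` dominating `F`,
`a ∈ S`, `Q` a finite set of vertices each adjacent to an element of `S`.

Step 1 (claim by induction on the number of elements of `S` not yet reached): let `w` be a closed
walk at `a` with all its vertices in `F` and `S ⊄ w.support`.  Then some element `s ∈ S`,
`s ∉ w.support`, is joined to a vertex `c` of `w.support` by a walk of length `≤ 3` with all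
vertices in `F`.
Proof: in the connected graph `G.induce F` take a shortest path from `w.support` to
`S \ w.support` : vertices `x_0 ∈ w.support, x_1, ..., x_m`, minimal `m` over all choices of both
ends.  If `m ≥ 4` look at `x_2`: it is at distance exactly 2 from `w.support` (otherwise a shorter
choice), so `x_2 ∉ w.support`; `x_2 ∉ S` (else `m = 2`), so `x_2` has a neighbour `y ∈ S`; if
`y ∉ w.support` then `x_0 x_1 x_2 y` has length 3; if `y ∈ w.support` then `y x_2 x_3 ... x_m` is
shorter.  Contradiction.  (Alternative without minimal paths: let `R` be the set of vertices of `F`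
at distance `≤ 1` from `w.support` in `G.induce F`.  If `R = F`, an unreached `s ∈ S` is in `R`, at
distance `1`.  Otherwise by connectedness there are adjacent `x ∈ R`, `y ∈ F \ R`; `y ∈ S`: then
`y` is unreached, at distance `≤ 2`; otherwise `y` has a neighbour `t ∈ S`; `t ∉ w.support` because
`y ∉ R`; so `t` is unreached, at distance `≤ 3`.  THIS IS THE SIMPLEST PROOF.)
Step 2: insert in `w` at `c` the walk to `s` and back: `(w.takeUntil c _).append (p.append
(p.reverse.append (w.dropUntil c _)))`; the length grows by `≤ 6`, the support only grows and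
contains `s`.  After at most `|S| - 1` steps `S ⊆ w.support`, length `≤ 6 |S|`.
Step 3: for each element `q` of `Q` not in the support insert `y q y` (`y ∈ S` adjacent to `q`):
length grows by 2.
Formal hint: prove by induction on `m` : for all `m`, there is a closed walk in `F` of length `≤ 6 m`
whose support contains at least `min (m+1) |S|` elements of `S` (start: `nil`, `m = 0`); the vertices
of the walk are kept in `F` as a hypothesis `∀ x ∈ w.support, x ∈ F`.
-/

namespace ThinS

open Finset

private lemma insert_walk {V : Type*} [DecidableEq V] {G : SimpleGraph V} {a c s : V}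
    (w : G.Walk a a) (hc : c ∈ w.support) (p : G.Walk c s) :
    ∃ w' : G.Walk a a, w'.length = w.length + 2 * p.length ∧
      ∀ x, x ∈ w'.support ↔ x ∈ w.support ∨ x ∈ p.support := by
  refine ⟨(w.takeUntil c hc).append (p.append (p.reverse.append (w.dropUntil c hc))), ?_, ?_⟩
  · have h := congrArg SimpleGraph.Walk.length (w.take_spec hc)
    simp only [SimpleGraph.Walk.length_append, SimpleGraph.Walk.length_reverse] at h ⊢
    omega
  · intro x
    have h : x ∈ w.support ↔ x ∈ (w.takeUntil c hc).support ∨ x ∈ (w.dropUntil c hc).support := by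
      rw [← SimpleGraph.Walk.mem_support_append_iff, w.take_spec hc]
    rw [h]
    simp only [SimpleGraph.Walk.mem_support_append_iff, SimpleGraph.Walk.support_reverse,
      List.mem_reverse]
    tauto

private lemma new_vertex {V : Type*} [DecidableEq V] (G : SimpleGraph V) (F S : Finset V) (a : V)
    (hF : (G.induce (F : Set V)).Preconnected) (hS : S ⊆ F)
    (hdom : ∀ x ∈ F, x ∈ S ∨ ∃ y ∈ S, G.Adj x y) (w : G.Walk a a)
    (hw : ∀ x ∈ w.support, x ∈ F) (s0 : V) (hs0 : s0 ∈ S) (hs0w : s0 ∉ w.support) :
    ∃ (c s : V) (p : G.Walk c s), c ∈ w.support ∧ s ∈ S ∧ s ∉ w.support ∧ p.length ≤ 3 ∧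
      ∀ x ∈ p.support, x ∈ F := by
  by_cases hR : ∀ x ∈ F, x ∈ w.support ∨ ∃ c ∈ w.support, G.Adj c x
  · rcases hR s0 (hS hs0) with h | ⟨c, hc, hcs⟩
    · exact absurd h hs0w
    · refine ⟨c, s0, hcs.toWalk, hc, hs0, hs0w, by simp, ?_⟩
      intro x hx
      simp only [SimpleGraph.Walk.support_cons, SimpleGraph.Walk.support_nil, List.mem_cons,
        List.not_mem_nil, or_false] at hx
      rcases hx with rfl | rfl
      · exact hw _ hc
      · exact hS hs0
  · push Not at hR
    obtain ⟨y0, hy0F, hy0w, hy0⟩ := hR
    have haF : a ∈ F := hw a w.start_mem_support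
    obtain ⟨q⟩ := hF ⟨a, haF⟩ ⟨y0, hy0F⟩
    obtain ⟨d, -, hd1, hd2⟩ := q.exists_boundary_dart
      {z | z.1 ∈ w.support ∨ ∃ c ∈ w.support, G.Adj c z.1} (Or.inl w.start_mem_support) (by
        rintro (h | ⟨c, hc, hcy⟩)
        · exact hy0w h
        · exact hy0 c hc hcy)
    have hadj : G.Adj d.fst.1 d.snd.1 := d.adj
    have hxF : d.fst.1 ∈ F := d.fst.2
    have hyF : d.snd.1 ∈ F := d.snd.2
    have hd1' : d.fst.1 ∈ w.support ∨ ∃ c ∈ w.support, G.Adj c d.fst.1 := hd1
    have hd2' : ¬ (d.snd.1 ∈ w.support ∨ ∃ c ∈ w.support, G.Adj c d.snd.1) := hd2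
    clear hd1 hd2
    generalize d.fst.1 = x at hadj hxF hd1'
    generalize d.snd.1 = y at hadj hyF hd2'
    obtain ⟨c, hc, hcx⟩ : ∃ c ∈ w.support, G.Adj c x := by
      rcases hd1' with h | h
      · exact absurd (Or.inr ⟨x, h, hadj⟩) hd2'
      · exact h
    have hyw : y ∉ w.support := fun h => hd2' (Or.inl h)
    rcases hdom y hyF with hyS | ⟨t, htS, hyt⟩
    · refine ⟨c, y, SimpleGraph.Walk.cons hcx hadj.toWalk, hc, hyS, hyw, by simp, ?_⟩
      intro z hz
      simp only [SimpleGraph.Walk.support_cons, SimpleGraph.Walk.support_nil, List.mem_cons,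
        List.not_mem_nil, or_false] at hz
      rcases hz with rfl | rfl | rfl
      · exact hw _ hc
      · exact hxF
      · exact hyF
    · have htw : t ∉ w.support := fun h => hd2' (Or.inr ⟨t, h, hyt.symm⟩)
      refine ⟨c, t, SimpleGraph.Walk.cons hcx (SimpleGraph.Walk.cons hadj hyt.toWalk), hc, htS,
        htw, by simp, ?_⟩
      intro z hz
      simp only [SimpleGraph.Walk.support_cons, SimpleGraph.Walk.support_nil, List.mem_cons,
        List.not_mem_nil, or_false] at hz
      rcases hz with rfl | rfl | rfl | rfl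
      · exact hw _ hc
      · exact hxF
      · exact hyF
      · exact hS htS

private lemma walk_S {V : Type*} [DecidableEq V] (G : SimpleGraph V) (F S : Finset V) (a : V)
    (hF : (G.induce (F : Set V)).Preconnected) (hS : S ⊆ F) (ha : a ∈ S)
    (hdom : ∀ x ∈ F, x ∈ S ∨ ∃ y ∈ S, G.Adj x y) (m : ℕ) :
    ∃ w : G.Walk a a, (∀ x ∈ w.support, x ∈ F) ∧ w.length ≤ 6 * m ∧
      min (m + 1) S.card ≤ (S.filter fun x => x ∈ w.support).card := by
  induction m with
  | zero =>
    refine ⟨SimpleGraph.Walk.nil, ?_, by simp, ?_⟩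
    · intro x hx
      simp only [SimpleGraph.Walk.support_nil, List.mem_singleton] at hx
      rw [hx]
      exact hS ha
    · have h1 : 0 < (S.filter fun x => x ∈ (SimpleGraph.Walk.nil : G.Walk a a).support).card :=
        Finset.card_pos.2 ⟨a, Finset.mem_filter.2 ⟨ha, by simp⟩⟩
      exact le_trans (min_le_left _ _) h1
  | succ m ih =>
    obtain ⟨w, hw, hlen, hcard⟩ := ih
    by_cases hall : ∀ s ∈ S, s ∈ w.support
    · refine ⟨w, hw, by omega, ?_⟩
      rw [Finset.filter_true_of_mem hall]
      exact min_le_right _ _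
    · push Not at hall
      obtain ⟨s0, hs0, hs0w⟩ := hall
      obtain ⟨c, s, p, hc, hs, hsw, hp, hpF⟩ := new_vertex G F S a hF hS hdom w hw s0 hs0 hs0w
      obtain ⟨w', hw'l, hw's⟩ := insert_walk w hc p
      refine ⟨w', ?_, by omega, ?_⟩
      · intro x hx
        rcases (hw's x).1 hx with h | h
        · exact hw x h
        · exact hpF x h
      · have h1 : (insert s (S.filter fun x => x ∈ w.support)).card ≤
            (S.filter fun x => x ∈ w'.support).card := by
          refine Finset.card_le_card ?_
          intro x hx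
          rw [Finset.mem_insert] at hx
          rw [Finset.mem_filter]
          rcases hx with rfl | hx
          · exact ⟨hs, (hw's _).2 (Or.inr p.end_mem_support)⟩
          · rw [Finset.mem_filter] at hx
            exact ⟨hx.1, (hw's x).2 (Or.inl hx.2)⟩
        have hns : s ∉ S.filter fun x => x ∈ w.support := fun h => hsw (Finset.mem_filter.1 h).2
        rw [Finset.card_insert_of_notMem hns] at h1
        omega

theorem exists_walk {V : Type*} [DecidableEq V] (G : SimpleGraph V) (F S Q : Finset V) (a : V)
    (hF : (G.induce (F : Set V)).Preconnected) (hS : S ⊆ F) (ha : a ∈ S)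
    (hdom : ∀ x ∈ F, x ∈ S ∨ ∃ y ∈ S, G.Adj x y) (hQ : ∀ x ∈ Q, ∃ y ∈ S, G.Adj x y) :
    ∃ w : G.Walk a a, (∀ x ∈ S ∪ Q, x ∈ w.support) ∧ w.length ≤ 6 * S.card + 2 * Q.card := by
  induction Q using Finset.induction_on with
  | empty =>
    obtain ⟨w, -, hlen, hcard⟩ := walk_S G F S a hF hS ha hdom (S.card - 1)
    have hpos : 0 < S.card := Finset.card_pos.2 ⟨a, ha⟩
    rw [show S.card - 1 + 1 = S.card by omega, min_self] at hcard
    have h1 : (S.filter fun x => x ∈ w.support) = S :=
      Finset.eq_of_subset_of_card_le (Finset.filter_subset _ _) hcard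
    refine ⟨w, ?_, by simp only [Finset.card_empty]; omega⟩
    intro x hx
    rw [Finset.union_empty, ← h1, Finset.mem_filter] at hx
    exact hx.2
  | insert q Q hq ih =>
    obtain ⟨w, hw, hlen⟩ := ih (fun x hx => hQ x (Finset.mem_insert_of_mem hx))
    obtain ⟨y, hyS, hyq⟩ := hQ q (Finset.mem_insert_self q Q)
    obtain ⟨w', hw'l, hw's⟩ := insert_walk w (hw y (Finset.mem_union_left _ hyS)) hyq.symm.toWalk
    refine ⟨w', ?_, ?_⟩
    · intro x hx
      rw [Finset.mem_union, Finset.mem_insert] at hx
      rw [hw's]
      rcases hx with hx | rfl | hx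
      · exact Or.inl (hw x (Finset.mem_union_left _ hx))
      · exact Or.inr (SimpleGraph.Walk.end_mem_support _)
      · exact Or.inl (hw x (Finset.mem_union_right _ hx))
    · rw [Finset.card_insert_of_notMem hq]
      simp only [SimpleGraph.Walk.length_cons, SimpleGraph.Walk.length_nil] at hw'l
      omega

end ThinS
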