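import Pool.Agent.Lib.ThinS.Rand
import Pool.Agent.Lib.ThinS.Walk
import Pool.Agent.Lib.ThinS.Code

/-!
# The number of thin connected families through a given facet (paper C2, (**)) (size about 80)

From Rand, Near, Walk, Code.  Apply `card_le_code` with
`R D B Q = D ∪ B ∪ (Cand k θ D \ Q)`.  For `F` in the family take `D` from `exists_sample`,
`B = Bd θ F D`, `Q = Qd k θ F D`; `F = R D B Q` is `recover`.  The walk: `exists_walk` with
`S = insert σ (D ∪ B)` (subset of `F`), `a = σ`: dominating because `x ∈ F`, `x ∉ D`, `x ∉ B` has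
`seen D x ≥ θ ≥ 1`, so `adj_of_seen` gives a neighbour in `D`; an element `q ∈ Q` is in `Cand`, so
`seen D q ≥ 1`, `adj_of_seen` (symmetric).  `S.card ≤ D.card + B.card + 1`, so
`w.length ≤ 6 (|D| + |B| + |Q| + 1) ≤ 6 (N * rate + 1) ≤ L`.  `TC` families consist of `k`-sets.
-/

namespace ThinS

open Finset

private theorem walk_len (k n θ N L : ℕ) (hk : 1 ≤ k) (hθ : 1 ≤ θ) (ε : ℝ) (h0 : 0 ≤ ε)
    (h1 : ε ≤ 1) (σ : Finset (Fin n)) (hL : 6 * ((N : ℝ) * rate k n θ ε + 1) ≤ L)
    (F : Finset (Finset (Fin n))) (hT : TC k n F) (hσ : σ ∈ F) (hN : F.card = N) :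
    ∃ D B Q : Finset (Finset (Fin n)), F = D ∪ B ∪ (Cand k θ D \ Q) ∧
      ∃ w : (J k n).Walk σ σ, (∀ x ∈ D ∪ B ∪ Q, x ∈ w.support) ∧ w.length ≤ L := by
  obtain ⟨hthin, -, hconn⟩ := hT
  obtain ⟨D, hD, hbd⟩ := exists_sample k n θ hk hθ F hthin ε h0 h1
  have hB : Bd θ F D ⊆ F := by
    intro x hx
    unfold Bd at hx
    exact (Finset.mem_filter.1 hx).1
  have hcard : ∀ e ∈ D, e.card = k := fun e he => hthin.1 e (hD he)
  obtain ⟨w, hw1, hw2⟩ := exists_walk (J k n) F (insert σ (D ∪ Bd θ F D)) (Qd k θ F D) σ hconn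
    (by
      intro x hx
      rcases Finset.mem_insert.1 hx with rfl | h
      · exact hσ
      · rcases Finset.mem_union.1 h with h | h
        · exact hD h
        · exact hB h)
    (Finset.mem_insert_self _ _)
    (by
      intro x hx
      by_cases hxD : x ∈ D
      · exact Or.inl (Finset.mem_insert_of_mem (Finset.mem_union_left _ hxD))
      by_cases hxB : x ∈ Bd θ F D
      · exact Or.inl (Finset.mem_insert_of_mem (Finset.mem_union_right _ hxB))
      right
      have hs : θ ≤ seen D x := by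
        by_contra hcon
        apply hxB
        unfold Bd
        exact Finset.mem_filter.2 ⟨hx, hxD, not_le.1 hcon⟩
      obtain ⟨y, hy, hadj⟩ := adj_of_seen k n hk D hcard x (hthin.1 x hx) hxD (hθ.trans hs)
      exact ⟨y, Finset.mem_insert_of_mem (Finset.mem_union_left _ hy), hadj⟩)
    (by
      intro x hx
      have hx' : x ∈ Cand k θ D ∧ x ∉ F := by
        unfold Qd at hx
        exact Finset.mem_sdiff.1 hx
      have hx2 : x.card = k ∧ x ∉ D ∧ θ ≤ seen D x ∧ ∀ v ∈ x, (st D (x.erase v)).card ≤ 1 := by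
        have := hx'.1
        unfold Cand at this
        exact (Finset.mem_filter.1 this).2
      obtain ⟨y, hy, hadj⟩ := adj_of_seen k n hk D hcard x hx2.1 hx2.2.1 (hθ.trans hx2.2.2.1)
      exact ⟨y, Finset.mem_insert_of_mem (Finset.mem_union_left _ hy), hadj⟩)
  refine ⟨D, Bd θ F D, Qd k θ F D, recover k θ n hk F hthin D hD, w, ?_, ?_⟩
  · intro x hx
    apply hw1
    rcases Finset.mem_union.1 hx with h | h
    · exact Finset.mem_union_left _ (Finset.mem_insert_of_mem h)
    · exact Finset.mem_union_right _ h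
  · have c1 : (insert σ (D ∪ Bd θ F D)).card ≤ D.card + (Bd θ F D).card + 1 :=
      (Finset.card_insert_le _ _).trans (Nat.succ_le_succ (Finset.card_union_le _ _))
    have c2 : w.length ≤ 6 * (D.card + (Bd θ F D).card + (Qd k θ F D).card + 1) := by omega
    have c3 : (w.length : ℝ) ≤
        6 * (((D.card + (Bd θ F D).card + (Qd k θ F D).card : ℕ) : ℝ) + 1) := by
      have := (Nat.cast_le (α := ℝ)).2 c2
      push_cast at this ⊢
      linarith
    rw [hN] at hbd
    have c4 : (w.length : ℝ) ≤ L := by linarith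
    exact_mod_cast c4

open Classical in
theorem count_tc (k n θ N L : ℕ) (hk : 1 ≤ k) (hθ : 1 ≤ θ) (ε : ℝ) (h0 : 0 ≤ ε) (h1 : ε ≤ 1)
    (σ : Finset (Fin n)) (hL : 6 * ((N : ℝ) * rate k n θ ε + 1) ≤ L) :
    ((univ : Finset (Finset (Finset (Fin n)))).filter
      (fun F => TC k n F ∧ σ ∈ F ∧ F.card = N)).card ≤ (8 * n ^ 2) ^ (L + 1) := by
  by_cases hne : ((univ : Finset (Finset (Finset (Fin n)))).filter
      (fun F => TC k n F ∧ σ ∈ F ∧ F.card = N)).Nonempty
  · obtain ⟨F0, hF0⟩ := hne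
    have hF0' := (Finset.mem_filter.1 hF0).2
    refine card_le_code k n L hk σ (hF0'.1.1.1 σ hF0'.2.1) _
      (fun D B Q => D ∪ B ∪ (Cand k θ D \ Q)) ?_
    intro F hF
    obtain ⟨hT, hσ, hN⟩ := (Finset.mem_filter.1 hF).2
    exact walk_len k n θ N L hk hθ ε h0 h1 σ hL F hT hσ hN
  · rw [Finset.not_nonempty_iff_eq_empty] at hne
    rw [hne]
    simp

end ThinS
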