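import Mathlib

/-!
# Thin families of `k`-sets: definitions

(helper98, problem MP_634482_co, paper /team-store/MP_634482_co_paper98.md)

* `st F S`: the members of `F` containing `S`.
* `Thin k F`: all members have `k` elements and every `(k-1)`-set contained in a member is contained
  in exactly two members.
* `J k n`: the Johnson graph (two `k`-sets are adjacent when they share `k-1` elements).
* `TC k n F`: thin, nonempty, connected in the Johnson graph.
* `seen D τ`: number of ridges of `τ` which lie in a member of `D`.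
* `Cand`, `Bd`, `Qd`: candidates, bad facets, false candidates (paper, C1).
* `wt`, `Ex`: random subset with density `p`.
* `rz H`: the realised complex.
-/

namespace ThinS

open Finset

/-- the members of `F` containing `S` -/
def st {α : Type*} [DecidableEq α] (F : Finset (Finset α)) (S : Finset α) : Finset (Finset α) :=
  F.filter (fun e => S ⊆ e)

/-- all members have `k` elements and every ridge of a member is in exactly two members -/
def Thin (k : ℕ) {α : Type*} [DecidableEq α] (F : Finset (Finset α)) : Prop :=
  (∀ e ∈ F, e.card = k) ∧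
    ∀ S : Finset α, S.card + 1 = k → (∃ e ∈ F, S ⊆ e) → (st F S).card = 2

/-- the Johnson graph on the `k`-subsets of `Fin n` -/
def J (k n : ℕ) : SimpleGraph (Finset (Fin n)) where
  Adj e f := e ≠ f ∧ e.card = k ∧ f.card = k ∧ (e ∩ f).card + 1 = k
  symm := ⟨fun e f h => ⟨h.1.symm, h.2.2.1, h.2.1, by rw [inter_comm]; exact h.2.2.2⟩⟩
  loopless := ⟨fun e h => h.1 rfl⟩

/-- thin, nonempty, connected -/
def TC (k n : ℕ) (F : Finset (Finset (Fin n))) : Prop :=
  Thin k F ∧ F.Nonempty ∧ ((J k n).induce (F : Set (Finset (Fin n)))).Preconnected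

open Classical in
/-- number of ridges of `τ` contained in a member of `D` -/
noncomputable def seen {α : Type*} (D : Finset (Finset α)) (τ : Finset α) : ℕ :=
  (τ.filter (fun v => ∃ σ ∈ D, τ.erase v ⊆ σ)).card

open Classical in
/-- the candidates -/
noncomputable def Cand (k θ : ℕ) {n : ℕ} (D : Finset (Finset (Fin n))) :
    Finset (Finset (Fin n)) :=
  (univ : Finset (Finset (Fin n))).filter
    (fun τ => τ.card = k ∧ τ ∉ D ∧ θ ≤ seen D τ ∧ ∀ v ∈ τ, (st D (τ.erase v)).card ≤ 1)

open Classical in
/-- the bad facets -/
noncomputable def Bd (θ : ℕ) {n : ℕ} (F D : Finset (Finset (Fin n))) : Finset (Finset (Fin n)) :=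
  F.filter (fun σ => σ ∉ D ∧ seen D σ < θ)

open Classical in
/-- the false candidates -/
noncomputable def Qd (k θ : ℕ) {n : ℕ} (F D : Finset (Finset (Fin n))) :
    Finset (Finset (Fin n)) :=
  Cand k θ D \ F

/-- weight of `D` for a random subset of `S` with density `p` -/
noncomputable def wt (p : ℝ) {α : Type*} [DecidableEq α] (S D : Finset α) : ℝ :=
  p ^ D.card * (1 - p) ^ (S \ D).card

/-- expectation over a random subset of `S` with density `p` -/
noncomputable def Ex (p : ℝ) {α : Type*} [DecidableEq α] (S : Finset α) (f : Finset α → ℝ) : ℝ :=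
  ∑ D ∈ S.powerset, wt p S D * f D

open Classical in
/-- indicator -/
noncomputable def ind {β : Type*} (P : β → Prop) (x : β) : ℝ := if P x then 1 else 0

/-- the realised complex of `H` -/
def rz {n : ℕ} (H : Finset (Finset (Fin n))) : Set (EuclideanSpace ℝ (Fin n)) :=
  ⋃ e ∈ H, convexHull ℝ
    ((fun v : Fin n => EuclideanSpace.single v (1 : ℝ)) '' (↑e : Set (Fin n)))

/-- the rate in the bound of C1 -/
noncomputable def rate (k n θ : ℕ) (ε : ℝ) : ℝ :=
  ε + 2 ^ θ * (1 - ε / 2) ^ k + (k : ℝ) * n * ((1 + ε / 2) ^ θ)⁻¹

end ThinS
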