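import Pool.Agent.Lib.ThinS.Defs

/-!
# Random subsets with density `p`: basic lemmas (size about 150)

`wt p S D = p^|D| (1-p)^|S - D|`, `Ex p S f = sum over D in S.powerset of wt p S D * f D`.

`Ex_union`: subsets of `A ∪ B` (disjoint) are the sets `D1 ∪ D2`, `D1 ⊆ A`, `D2 ⊆ B`, and the weight
is multiplicative.  (For instance `Finset.sum_bij'` with `D ↦ (D ∩ A, D ∩ B)` from
`(A ∪ B).powerset` to `A.powerset ×ˢ B.powerset`, `Finset.sum_product`, `Finset.sum_mul_sum`.)
`Ex_const`: `Σ p^|D| (1-p)^|S-D| = (p + (1-p))^|S| = 1` (`Finset.sum_pow_mul_eq_add_pow` or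
`Finset.prod_add`, or induction on `S` with `Ex_union`).
`Ex_restrict`: `Ex_union` with `A` and `S \ A`, `g = 1`.
`Ex_prod`: induction on `I` : `Ex_union` with `A = P i` and `B = S \ P i` (the other `P j` are inside
`S \ P i`), then `Ex_restrict` if needed; or prove it for `S` arbitrary containing all `P i`.
`Ex_exists_le`: if `f D > c` for all `D ⊆ S` then `Ex p S f > c` (some weight is positive: the total
weight is 1).
-/

namespace ThinS

open Finset

variable {α : Type*} [DecidableEq α]

theorem wt_nonneg {p : ℝ} (h0 : 0 ≤ p) (h1 : p ≤ 1) (S D : Finset α) : 0 ≤ wt p S D := by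
  unfold wt
  exact mul_nonneg (pow_nonneg h0 _) (pow_nonneg (by linarith) _)

private theorem Ex_empty (p : ℝ) (f : Finset α → ℝ) : Ex p ∅ f = f ∅ := by
  unfold Ex wt
  simp

private theorem Ex_insert (p : ℝ) {a : α} {S : Finset α} (ha : a ∉ S) (f : Finset α → ℝ) :
    Ex p (insert a S) f = (1 - p) * Ex p S f + p * Ex p S (fun D => f (insert a D)) := by
  unfold Ex
  rw [Finset.sum_powerset_insert ha, Finset.mul_sum, Finset.mul_sum]
  refine congrArg₂ (· + ·) (Finset.sum_congr rfl (fun D hD => ?_))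
    (Finset.sum_congr rfl (fun D hD => ?_))
  · have haD : a ∉ D := fun h => ha (Finset.mem_powerset.1 hD h)
    unfold wt
    rw [Finset.insert_sdiff_of_notMem _ haD, Finset.card_insert_of_notMem
      (fun h => ha (Finset.mem_sdiff.1 h).1), pow_succ]
    ring
  · have haD : a ∉ D := fun h => ha (Finset.mem_powerset.1 hD h)
    have h1 : insert a S \ insert a D = S \ D := by
      ext x
      simp only [Finset.mem_sdiff, Finset.mem_insert, not_or]
      constructor
      · rintro ⟨h1 | h1, h2, h3⟩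
        · exact absurd h1 h2
        · exact ⟨h1, h3⟩
      · rintro ⟨h1, h2⟩
        refine ⟨Or.inr h1, ?_, h2⟩
        rintro rfl
        exact ha h1
    unfold wt
    rw [h1, Finset.card_insert_of_notMem haD, pow_succ]
    ring

theorem Ex_union (p : ℝ) {A B : Finset α} (h : Disjoint A B) (f g : Finset α → ℝ) :
    Ex p (A ∪ B) (fun D => f (D ∩ A) * g (D ∩ B)) = Ex p A f * Ex p B g := by
  induction B using Finset.induction_on generalizing g with
  | empty =>
    rw [Finset.union_empty, Ex_empty]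
    unfold Ex
    rw [Finset.sum_mul]
    refine Finset.sum_congr rfl (fun D hD => ?_)
    beta_reduce
    rw [Finset.inter_eq_left.2 (Finset.mem_powerset.1 hD), Finset.inter_empty]
    ring
  | insert b B hb ih =>
    rw [Finset.disjoint_insert_right] at h
    have h1 : b ∉ A ∪ B := by
      rw [Finset.mem_union]
      rintro (h2 | h2)
      · exact h.1 h2
      · exact hb h2
    rw [Finset.union_insert, Ex_insert p h1, Ex_insert p hb]
    have h2 : Ex p (A ∪ B) (fun D => f (D ∩ A) * g (D ∩ insert b B)) =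
        Ex p (A ∪ B) (fun D => f (D ∩ A) * g (D ∩ B)) := by
      unfold Ex
      refine Finset.sum_congr rfl (fun D hD => ?_)
      have hbD : b ∉ D := fun h => h1 (Finset.mem_powerset.1 hD h)
      beta_reduce
      rw [Finset.inter_insert_of_notMem hbD]
    have h3 : Ex p (A ∪ B) (fun D => f (insert b D ∩ A) * g (insert b D ∩ insert b B)) =
        Ex p (A ∪ B) (fun D => f (D ∩ A) * (fun E => g (insert b E)) (D ∩ B)) := by
      unfold Ex
      refine Finset.sum_congr rfl (fun D _ => ?_)
      beta_reduce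
      rw [Finset.insert_inter_of_notMem h.1, ← Finset.insert_inter_distrib]
    rw [h2, h3, ih h.2 g, ih h.2 (fun E => g (insert b E))]
    ring

theorem Ex_const (p c : ℝ) (S : Finset α) : Ex p S (fun _ => c) = c := by
  induction S using Finset.induction_on with
  | empty => rw [Ex_empty]
  | insert a S ha ih =>
    rw [Ex_insert p ha, ih]
    ring

theorem Ex_mono {p : ℝ} (h0 : 0 ≤ p) (h1 : p ≤ 1) (S : Finset α) {f g : Finset α → ℝ}
    (h : ∀ D ⊆ S, f D ≤ g D) : Ex p S f ≤ Ex p S g := by
  unfold Ex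
  exact Finset.sum_le_sum (fun D hD => mul_le_mul_of_nonneg_left (h D (Finset.mem_powerset.1 hD))
    (wt_nonneg h0 h1 S D))

theorem Ex_congr (p : ℝ) (S : Finset α) {f g : Finset α → ℝ}
    (h : ∀ D ⊆ S, f D = g D) : Ex p S f = Ex p S g := by
  unfold Ex
  exact Finset.sum_congr rfl (fun D hD => by rw [h D (Finset.mem_powerset.1 hD)])

theorem Ex_sum {ι : Type*} (p : ℝ) (S : Finset α) (I : Finset ι) (f : ι → Finset α → ℝ) :
    Ex p S (fun D => ∑ i ∈ I, f i D) = ∑ i ∈ I, Ex p S (f i) := by
  unfold Ex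
  rw [Finset.sum_comm]
  exact Finset.sum_congr rfl (fun D _ => Finset.mul_sum _ _ _)

theorem Ex_smul (p c : ℝ) (S : Finset α) (f : Finset α → ℝ) :
    Ex p S (fun D => c * f D) = c * Ex p S f := by
  unfold Ex
  rw [Finset.mul_sum]
  exact Finset.sum_congr rfl (fun D _ => by ring)

theorem Ex_restrict (p : ℝ) {A S : Finset α} (h : A ⊆ S) (f : Finset α → ℝ) :
    Ex p S (fun D => f (D ∩ A)) = Ex p A f := by
  have h1 := Ex_union p (A := A) (B := S \ A) Finset.disjoint_sdiff f (fun _ => 1)
  rw [Finset.union_sdiff_of_subset h, Ex_const] at h1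
  simp only [mul_one] at h1
  exact h1

theorem Ex_prod (p : ℝ) {ι : Type*} (I : Finset ι) (P : ι → Finset α) (S : Finset α)
    (hP : ∀ i ∈ I, P i ⊆ S) (hd : (I : Set ι).PairwiseDisjoint P) (f : ι → Finset α → ℝ) :
    Ex p S (fun D => ∏ i ∈ I, f i (D ∩ P i)) = ∏ i ∈ I, Ex p (P i) (f i) := by
  classical
  induction I using Finset.induction_on generalizing S with
  | empty =>
    simp only [Finset.prod_empty]
    exact Ex_const p 1 S
  | insert i I hi ih =>
    rw [Finset.prod_insert hi]
    have hPi : P i ⊆ S := hP i (Finset.mem_insert_self i I)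
    have hsub : ∀ j ∈ I, P j ⊆ S \ P i := by
      intro j hj x hx
      rw [Finset.mem_sdiff]
      refine ⟨hP j (Finset.mem_insert_of_mem hj) hx, ?_⟩
      have hne : j ≠ i := by
        rintro rfl
        exact hi hj
      have h1 := hd (Finset.mem_coe.2 (Finset.mem_insert_of_mem hj))
        (Finset.mem_coe.2 (Finset.mem_insert_self i I)) hne
      exact Finset.disjoint_left.1 h1 hx
    have h1 := Ex_union p (A := P i) (B := S \ P i) Finset.disjoint_sdiff (f i)
      (fun E => ∏ j ∈ I, f j (E ∩ P j))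
    rw [Finset.union_sdiff_of_subset hPi, ih (S \ P i) hsub (hd.subset (by
      rw [Finset.coe_insert]
      exact Set.subset_insert _ _))] at h1
    rw [← h1]
    refine Ex_congr p S (fun D _ => ?_)
    rw [Finset.prod_insert hi]
    refine congrArg₂ (· * ·) rfl (Finset.prod_congr rfl (fun j hj => ?_))
    rw [Finset.inter_assoc, Finset.inter_eq_right.2 (hsub j hj)]

theorem Ex_singleton (p : ℝ) (a : α) (f : Finset α → ℝ) :
    Ex p {a} f = (1 - p) * f ∅ + p * f {a} := by
  have h1 := Ex_insert p (Finset.notMem_empty a) f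
  rw [Ex_empty, Ex_empty] at h1
  exact h1

theorem Ex_pair (p : ℝ) {a b : α} (hab : a ≠ b) (f : Finset α → ℝ) :
    Ex p {a, b} f = (1 - p) ^ 2 * f ∅ + p * (1 - p) * (f {a} + f {b}) + p ^ 2 * f {a, b} := by
  have h1 := Ex_insert p (a := a) (S := {b}) (by
    rw [Finset.mem_singleton]
    exact hab) f
  rw [Ex_singleton, Ex_singleton] at h1
  rw [h1]
  have h2 : insert a (∅ : Finset α) = {a} := rfl
  rw [h2]
  ring

theorem Ex_exists_le {p : ℝ} (h0 : 0 ≤ p) (h1 : p ≤ 1) (S : Finset α) (f : Finset α → ℝ) (c : ℝ)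
    (h : Ex p S f ≤ c) : ∃ D ⊆ S, f D ≤ c := by
  obtain ⟨D, hD, hmin⟩ := Finset.exists_min_image S.powerset f
    ⟨∅, Finset.mem_powerset.2 (Finset.empty_subset S)⟩
  refine ⟨D, Finset.mem_powerset.1 hD, le_trans ?_ h⟩
  have h2 := Ex_mono h0 h1 S (f := fun _ => f D) (g := f)
    (fun E hE => hmin E (Finset.mem_powerset.2 hE))
  rw [Ex_const] at h2
  exact h2

end ThinS
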