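import Pool.Agent.Lib.Brouwer.Main

/-!
# A map of the sphere homotopic to the identity is onto (paper T2)
-/

namespace ThinS

open Set Metric

theorem no_push {E : Type*} [NormedAddCommGroup E] [InnerProductSpace ℝ E]
    [FiniteDimensional ℝ E] (g : ℝ → E → E)
    (hg : ContinuousOn (Function.uncurry g) (Icc (0 : ℝ) 1 ×ˢ sphere (0 : E) 1))
    (hm : ∀ t ∈ Icc (0 : ℝ) 1, ∀ x ∈ sphere (0 : E) 1, g t x ∈ sphere (0 : E) 1)
    (h0 : ∀ x ∈ sphere (0 : E) 1, g 0 x = x) (q : E) (hq : q ∈ sphere (0 : E) 1)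
    (h1 : ∀ x ∈ sphere (0 : E) 1, g 1 x ≠ q) : False := by
  have hun : ∀ x : E, x ≠ 0 → ‖x‖⁻¹ • x ∈ sphere (0 : E) 1 := by
    intro x hx
    rw [mem_sphere_zero_iff_norm, norm_smul, norm_inv, norm_norm]
    exact inv_mul_cancel₀ (norm_ne_zero_iff.2 hx)
  have h1m : (1 : ℝ) ∈ Icc (0 : ℝ) 1 := ⟨zero_le_one, le_refl _⟩
  have hgn : ∀ t ∈ Icc (0 : ℝ) 1, ∀ x ∈ sphere (0 : E) 1, ‖g t x‖ = 1 := fun t ht x hx =>
    mem_sphere_zero_iff_norm.1 (hm t ht x hx)
  have hqn : ‖q‖ = 1 := mem_sphere_zero_iff_norm.1 hq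
  set G : E → E := fun x => (2 * ‖x‖) • g 1 (‖x‖⁻¹ • x) with hG
  have hinv : ContinuousOn (fun x : E => ‖x‖⁻¹ • x) {0}ᶜ := by
    apply ContinuousOn.smul _ continuousOn_id
    apply ContinuousOn.inv₀ continuous_norm.continuousOn
    intro x hx
    exact norm_ne_zero_iff.2 hx
  have hGon : ContinuousOn G {0}ᶜ := by
    apply ContinuousOn.smul
    · exact (continuous_const.mul continuous_norm).continuousOn
    · have h2 : ContinuousOn (fun x : E => ((1 : ℝ), ‖x‖⁻¹ • x)) {0}ᶜ :=
        continuousOn_const.prodMk hinv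
      have h3 := hg.comp h2 (fun x hx => ⟨h1m, hun x hx⟩)
      exact h3
  have hGc : Continuous G := by
    rw [continuous_iff_continuousAt]
    intro x
    by_cases hx : x = 0
    · subst hx
      have hG0 : G 0 = 0 := by simp [hG]
      unfold ContinuousAt
      rw [hG0]
      refine squeeze_zero_norm (a := fun y : E => 2 * ‖y‖) ?_ ?_
      · intro y
        by_cases hy : y = 0
        · subst hy
          rw [hG0]
          simp
        · simp only [hG]
          rw [norm_smul, hgn 1 h1m _ (hun y hy), mul_one, Real.norm_eq_abs,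
            abs_of_nonneg (by positivity)]
      · have h4 : Continuous fun y : E => 2 * ‖y‖ := continuous_const.mul continuous_norm
        have h5 := h4.tendsto (0 : E)
        simpa using h5
    · exact hGon.continuousAt (isOpen_compl_singleton.mem_nhds hx)
  set H : E → E := fun x => G x - (1 - 2 * ‖x‖) • q with hH
  have hHc : Continuous H := by
    apply hGc.sub
    apply Continuous.smul _ continuous_const
    exact continuous_const.sub (continuous_const.mul continuous_norm)
  have hGnorm : ∀ x, ‖G x‖ = 2 * ‖x‖ := by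
    intro x
    by_cases hx : x = 0
    · subst hx; simp [hG]
    · simp only [hG]
      rw [norm_smul, hgn 1 h1m _ (hun x hx), mul_one, Real.norm_eq_abs,
        abs_of_nonneg (by positivity)]
  have hHne : ∀ x : E, ‖x‖ ≤ 1 / 2 → H x ≠ 0 := by
    intro x hx hcon
    have h2 : G x = (1 - 2 * ‖x‖) • q := by
      rw [← sub_eq_zero]; exact hcon
    have h3 : 2 * ‖x‖ = 1 - 2 * ‖x‖ := by
      have h4 := congrArg norm h2
      rw [hGnorm, norm_smul, hqn, mul_one, Real.norm_eq_abs, abs_of_nonneg (by linarith)] at h4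
      exact h4
    have h5 : x ≠ 0 := by
      rintro rfl
      rw [norm_zero] at h3
      norm_num at h3
    have h6 : ‖x‖ = 1 / 4 := by linarith
    apply h1 _ (hun x h5)
    have h7 : (2 * ‖x‖) • g 1 (‖x‖⁻¹ • x) = (2 * ‖x‖) • q := by
      have h8 : G x = (2 * ‖x‖) • q := by rw [h3]; exact h2
      exact h8
    have h9 : (2 * ‖x‖) ≠ 0 := by rw [h6]; norm_num
    exact smul_right_injective E h9 h7
  set A : E → E := fun x => - g (2 - 2 * ‖x‖) (‖x‖⁻¹ • x) with hA
  set B : E → E := fun x => - (‖H x‖⁻¹ • H x) with hB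
  set F : E → E := fun x => if 1 / 2 ≤ ‖x‖ then A x else B x with hF
  have hAB : ∀ x : E, ‖x‖ = 1 / 2 → A x = B x := by
    intro x hx
    have h2 : x ≠ 0 := by
      rintro rfl
      rw [norm_zero] at hx
      norm_num at hx
    have h3 : H x = g 1 (‖x‖⁻¹ • x) := by
      simp only [hH, hG]
      rw [hx]
      norm_num
    simp only [hA, hB]
    rw [h3, hgn 1 h1m _ (hun x h2)]
    rw [hx]
    norm_num
  have hAc : ContinuousOn A {x | x ∈ closedBall (0 : E) 1 ∧ 1 / 2 ≤ ‖x‖} := by
    apply ContinuousOn.neg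
    have h2 : ContinuousOn (fun x : E => ((2 - 2 * ‖x‖ : ℝ), ‖x‖⁻¹ • x))
        {x | x ∈ closedBall (0 : E) 1 ∧ 1 / 2 ≤ ‖x‖} := by
      apply ContinuousOn.prodMk
      · exact (continuous_const.sub (continuous_const.mul continuous_norm)).continuousOn
      · apply hinv.mono
        rintro x ⟨-, hx⟩ h3
        rw [mem_singleton_iff] at h3
        rw [h3, norm_zero] at hx
        norm_num at hx
    have h3 := hg.comp h2 (fun x hx => by
      have h4 : ‖x‖ ≤ 1 := mem_closedBall_zero_iff.1 hx.1
      refine ⟨⟨by show (0 : ℝ) ≤ 2 - 2 * ‖x‖; linarith, by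
        show (2 - 2 * ‖x‖ : ℝ) ≤ 1
        have := hx.2
        linarith⟩, hun x ?_⟩
      rintro rfl
      have := hx.2
      rw [norm_zero] at this
      norm_num at this)
    exact h3
  have hBc : ContinuousOn B {x | ‖x‖ ≤ 1 / 2} := by
    apply ContinuousOn.neg
    apply ContinuousOn.smul _ hHc.continuousOn
    apply ContinuousOn.inv₀ hHc.norm.continuousOn
    intro x hx
    exact norm_ne_zero_iff.2 (hHne x hx)
  have hFc : ContinuousOn F (closedBall 0 1) := by
    have h2 : closedBall (0 : E) 1 = {x | x ∈ closedBall (0 : E) 1 ∧ 1 / 2 ≤ ‖x‖}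
        ∪ {x | ‖x‖ ≤ 1 / 2} := by
      ext x
      constructor
      · intro hx
        rcases le_total (1 / 2) ‖x‖ with h3 | h3
        · exact Or.inl ⟨hx, h3⟩
        · exact Or.inr h3
      · rintro (hx | hx)
        · exact hx.1
        · rw [mem_closedBall_zero_iff]
          have : ‖x‖ ≤ 1 / 2 := hx
          linarith
    rw [h2]
    apply ContinuousOn.union_of_isClosed
    · apply hAc.congr
      intro x hx
      simp only [hF]
      rw [if_pos hx.2]
    · apply hBc.congr
      intro x hx
      simp only [hF]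
      split_ifs with h3
      · exact hAB x (le_antisymm hx h3)
      · rfl
    · exact isClosed_closedBall.inter (isClosed_le continuous_const continuous_norm)
    · exact isClosed_le continuous_norm continuous_const
  have hFn : ∀ x ∈ closedBall (0 : E) 1, ‖F x‖ = 1 := by
    intro x hx
    have hx1 : ‖x‖ ≤ 1 := mem_closedBall_zero_iff.1 hx
    simp only [hF]
    split_ifs with h3
    · simp only [hA]
      rw [norm_neg]
      apply hgn _ ⟨by linarith, by linarith⟩ _ (hun x _)
      rintro rfl
      rw [norm_zero] at h3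
      norm_num at h3
    · simp only [hB]
      push Not at h3
      rw [norm_neg, norm_smul, norm_inv, norm_norm]
      exact inv_mul_cancel₀ (norm_ne_zero_iff.2 (hHne x h3.le))
  obtain ⟨x, hx, hfx⟩ := Brouwer.exists_fixed_ball hFc (fun x hx => by
    rw [mem_closedBall_zero_iff, hFn x hx])
  have h2 : ‖x‖ = 1 := by rw [← hfx]; exact hFn x hx
  have h3 : F x = -x := by
    simp only [hF, hA]
    rw [if_pos (by rw [h2]; norm_num), h2]
    have h4 : x ∈ sphere (0 : E) 1 := mem_sphere_zero_iff_norm.2 h2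
    norm_num
    exact h0 x h4
  rw [hfx] at h3
  have h4 : x = 0 := by
    have h5 : (2 : ℝ) • x = 0 := by
      rw [two_smul]
      nth_rewrite 2 [h3]
      simp
    simpa using h5
  rw [h4, norm_zero] at h2
  norm_num at h2

end ThinS
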