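import Pool.Agent.Lib.ThinS.Hull
import Pool.Agent.Lib.ThinS.Push

/-!
# No ridge is in exactly one facet (paper T2) (size about 150; from Hull, Push)

Suppose `st H S = {e}`, `e = insert v S`.  For a point `x` put `m x = min_{t ∈ S} x t`
(`S.inf' _ x`, `S` nonempty as `k ≥ 2`), continuous.  On `rz H`: `m x ≥ 0`; if `x` is not supported
in `e` then `m x = 0` (by `mem_rz` `x` is supported in some `e' ∈ H`, `e' ≠ e`, so `S ⊄ e'`).
`Ht x = x + t m(x) • (d • single v 1 - Σ_{s ∈ S} single s 1)`, `d = k - 1 = |S|`, for `t ∈ [0,1]`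
maps `rz H` to `rz H` (if `m x = 0` it is `x`; otherwise `x` is supported in `e`, the coordinates
`x s - t m ≥ 0`, `x v + t d m ≥ 0`, the sum is unchanged).  `H0 = id`.  `H1 x ≠ b`, `b` the
barycentre of `S` (`b s = 1/d` for `s ∈ S`, `0` otherwise; `b ∈ rz H`): the minimum coordinate of
`H1 x` over `S` is `0`.  Transport: `g t y = h (Ht (h⁻¹ y))` for `y` on the sphere (any value
elsewhere, for instance via `Function.extend` or `if hy : y ∈ sphere then .. else 0`), continuous on
`[0,1] × sphere`; apply `no_push` with `q = h b`.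
-/

namespace ThinS

open Finset

/-- the direction of the push -/
private noncomputable def ww {n : ℕ} (S : Finset (Fin n)) (v : Fin n) : EuclideanSpace ℝ (Fin n) :=
  WithLp.toLp 2 (fun i => if i = v then (S.card : ℝ) else if i ∈ S then -1 else 0)

private theorem ww_apply {n : ℕ} (S : Finset (Fin n)) (v i : Fin n) :
    ww S v i = if i = v then (S.card : ℝ) else if i ∈ S then -1 else 0 := rfl

private theorem ww_sum {n : ℕ} (S : Finset (Fin n)) (v : Fin n) (hv : v ∉ S) :
    ∑ i, ww S v i = 0 := by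
  have h1 : ∀ i, ww S v i = (if i = v then (S.card : ℝ) else 0) - if i ∈ S then 1 else 0 := by
    intro i
    rw [ww_apply]
    by_cases h : i = v
    · rw [if_pos h, if_pos h, h, if_neg hv, sub_zero]
    · rw [if_neg h, if_neg h]
      split_ifs <;> simp
  rw [Finset.sum_congr rfl fun i _ => h1 i, Finset.sum_sub_distrib, Finset.sum_ite_eq']
  simp

/-- the push -/
private noncomputable def Ht {n : ℕ} (S : Finset (Fin n)) (hS : S.Nonempty) (v : Fin n) (t : ℝ)
    (x : EuclideanSpace ℝ (Fin n)) : EuclideanSpace ℝ (Fin n) :=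
  x + (t * S.inf' hS (fun s => x s)) • ww S v

private theorem Ht_apply {n : ℕ} (S : Finset (Fin n)) (hS : S.Nonempty) (v : Fin n) (t : ℝ)
    (x : EuclideanSpace ℝ (Fin n)) (i : Fin n) :
    Ht S hS v t x i = x i + t * S.inf' hS (fun s => x s) * ww S v i := rfl

private theorem Ht_cont {n : ℕ} (S : Finset (Fin n)) (hS : S.Nonempty) (v : Fin n) :
    Continuous (fun p : ℝ × EuclideanSpace ℝ (Fin n) => Ht S hS v p.1 p.2) := by
  unfold Ht
  have h1 : Continuous (fun p : ℝ × EuclideanSpace ℝ (Fin n) => S.inf' hS (fun s => p.2 s)) :=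
    Continuous.finset_inf'_apply hS (fun i _ => by fun_prop)
  exact continuous_snd.add ((continuous_fst.mul h1).smul continuous_const)

private theorem Ht_mem {n : ℕ} (H : Finset (Finset (Fin n))) (S : Finset (Fin n))
    (hS : S.Nonempty) (v : Fin n) (hv : v ∉ S) (e : Finset (Fin n)) (heH : e ∈ H)
    (hve : v ∈ e) (hSe : S ⊆ e)
    (huniq : ∀ e' ∈ H, S ⊆ e' → e' = e) (t : ℝ) (ht : t ∈ Set.Icc (0 : ℝ) 1)
    (x : EuclideanSpace ℝ (Fin n)) (hx : x ∈ rz H) : Ht S hS v t x ∈ rz H := by
  obtain ⟨e', he', hx0, hx1, hxs⟩ := (mem_rz H x).1 hx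
  have hm0 : 0 ≤ S.inf' hS (fun s => x s) := Finset.le_inf' _ _ fun s _ => hx0 s
  rcases hm0.eq_or_lt with h0 | h0
  · have h1 : Ht S hS v t x = x := by
      unfold Ht
      rw [← h0, mul_zero, zero_smul, add_zero]
    rw [h1]
    exact hx
  · have hle : ∀ s ∈ S, S.inf' hS (fun s => x s) ≤ x s := fun s hs =>
      Finset.inf'_le (fun s => x s) hs
    have h1 : S ⊆ e' := fun s hs => hxs s (lt_of_lt_of_le h0 (hle s hs)).ne'
    have h2 := huniq e' he' h1
    rw [h2] at hxs
    rw [mem_rz]
    refine ⟨e, heH, fun i => ?_, ?_, fun i hi => ?_⟩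
    · rw [Ht_apply, ww_apply]
      by_cases hi : i = v
      · rw [if_pos hi]
        have := hx0 i
        have h3 := mul_nonneg (mul_nonneg ht.1 hm0) (Nat.cast_nonneg (α := ℝ) S.card)
        linarith
      · rw [if_neg hi]
        by_cases his : i ∈ S
        · rw [if_pos his]
          have h3 := hle i his
          have h4 := mul_le_mul_of_nonneg_right ht.2 hm0
          linarith
        · rw [if_neg his, mul_zero, add_zero]
          exact hx0 i
    · have h3 : ∀ i, Ht S hS v t x i = x i + t * S.inf' hS (fun s => x s) * ww S v i :=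
        fun i => rfl
      rw [Finset.sum_congr rfl fun i _ => h3 i, Finset.sum_add_distrib, ← Finset.mul_sum,
        ww_sum S v hv, hx1, mul_zero, add_zero]
    · by_contra hie
      apply hi
      have h3 : x i = 0 := by
        by_contra h
        exact hie (hxs i h)
      have h4 : i ≠ v := fun h => hie (h ▸ hve)
      have h5 : i ∉ S := fun h => hie (hSe h)
      rw [Ht_apply, ww_apply, if_neg h4, if_neg h5, h3, mul_zero, add_zero]

theorem st_card_ne_one {k n : ℕ} (hk : 2 ≤ k) (H : Finset (Finset (Fin n)))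
    (hH : ∀ e ∈ H, e.card = k)
    (h : rz H ≃ₜ Metric.sphere (0 : EuclideanSpace ℝ (Fin k)) 1)
    (S : Finset (Fin n)) (hS : S.card + 1 = k) : (st H S).card ≠ 1 := by
  intro hc
  rw [card_eq_one] at hc
  obtain ⟨e, he⟩ := hc
  have hemem : ∀ e' ∈ H, S ⊆ e' → e' = e := by
    intro e' h1 h2
    have h3 : e' ∈ st H S := mem_filter.2 ⟨h1, h2⟩
    rwa [he, mem_singleton] at h3
  have he' : e ∈ H ∧ S ⊆ e := by
    have h3 : e ∈ st H S := by
      rw [he]
      exact mem_singleton_self e
    exact mem_filter.1 h3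
  obtain ⟨heH, hSe⟩ := he'
  have hec := hH e heH
  have hcard : (e \ S).card = 1 := by
    have := card_sdiff_add_card_eq_card hSe
    omega
  obtain ⟨v, hv⟩ := card_eq_one.1 hcard
  have hv' : v ∈ e \ S := by
    rw [hv]
    exact mem_singleton_self v
  obtain ⟨hve, hvS⟩ := mem_sdiff.1 hv'
  have hSne : S.Nonempty := card_pos.1 (by omega)
  have hmem : ∀ t ∈ Set.Icc (0 : ℝ) 1, ∀ x ∈ rz H, Ht S hSne v t x ∈ rz H :=
    fun t ht x hx => Ht_mem H S hSne v hvS e heH hve hSe hemem t ht x hx
  have hSpos : (0 : ℝ) < S.card := by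
    have := card_pos.2 hSne
    exact_mod_cast this
  -- the barycentre of `S`
  set b : EuclideanSpace ℝ (Fin n) :=
    WithLp.toLp 2 (fun i => if i ∈ S then (S.card : ℝ)⁻¹ else 0) with hb
  have hbi : ∀ i, b i = if i ∈ S then (S.card : ℝ)⁻¹ else 0 := fun i => rfl
  have hbm : b ∈ rz H := by
    rw [mem_rz]
    refine ⟨e, heH, fun i => ?_, ?_, fun i hi => ?_⟩
    · rw [hbi]
      split_ifs
      · positivity
      · exact le_refl _
    · rw [Finset.sum_congr rfl fun i _ => hbi i, ← Finset.sum_filter, Finset.sum_const,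
        nsmul_eq_mul]
      have h1 : (univ.filter fun i => i ∈ S) = S := by
        ext i
        simp
      rw [h1, mul_inv_cancel₀ hSpos.ne']
    · rw [hbi] at hi
      by_contra h1
      exact hi (if_neg fun h2 => h1 (hSe h2))
  have hne : ∀ x, Ht S hSne v 1 x ≠ b := by
    intro x hx
    obtain ⟨s, hs, h1⟩ := Finset.exists_mem_eq_inf' hSne (fun s => x s)
    have h2 : Ht S hSne v 1 x s = 0 := by
      have h3 : s ≠ v := fun h => hvS (h ▸ hs)
      rw [Ht_apply, ww_apply, if_neg h3, if_pos hs, h1]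
      ring
    rw [hx, hbi, if_pos hs] at h2
    exact (inv_pos.2 hSpos).ne' h2
  -- the transported homotopy
  set K : Set (ℝ × EuclideanSpace ℝ (Fin k)) :=
    Set.Icc (0 : ℝ) 1 ×ˢ Metric.sphere (0 : EuclideanSpace ℝ (Fin k)) 1 with hK
  set G : K → EuclideanSpace ℝ (Fin k) := fun p =>
    (h ⟨Ht S hSne v p.1.1 (h.symm ⟨p.1.2, p.2.2⟩ : EuclideanSpace ℝ (Fin n)),
      hmem p.1.1 p.2.1 _ (h.symm ⟨p.1.2, p.2.2⟩).2⟩ : EuclideanSpace ℝ (Fin k)) with hG
  have hGc : Continuous G := by
    rw [hG]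
    refine continuous_subtype_val.comp (h.continuous.comp (Continuous.subtype_mk ?_ _))
    have h1 : Continuous (fun p : K => (h.symm ⟨p.1.2, p.2.2⟩ : EuclideanSpace ℝ (Fin n))) := by
      refine continuous_subtype_val.comp (h.symm.continuous.comp (Continuous.subtype_mk ?_ _))
      exact continuous_snd.comp continuous_subtype_val
    exact (Ht_cont S hSne v).comp ((continuous_fst.comp continuous_subtype_val).prodMk h1)
  classical
  set g : ℝ → EuclideanSpace ℝ (Fin k) → EuclideanSpace ℝ (Fin k) := fun t y =>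
    if hp : (t, y) ∈ K then G ⟨(t, y), hp⟩ else 0 with hg
  have hgG : ∀ t y (hp : (t, y) ∈ K), g t y = G ⟨(t, y), hp⟩ := fun t y hp => dif_pos hp
  refine no_push g ?_ ?_ ?_ (h ⟨b, hbm⟩) (h ⟨b, hbm⟩).2 ?_
  · rw [continuousOn_iff_continuous_domRestrict]
    have h1 : K.domRestrict (Function.uncurry g) = G := by
      funext p
      exact hgG p.1.1 p.1.2 p.2
    have h2 : Continuous (K.domRestrict (Function.uncurry g)) := by
      rw [h1]
      exact hGc
    exact h2
  · intro t ht x hx
    rw [hgG t x ⟨ht, hx⟩]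
    exact (h _).2
  · intro x hx
    rw [hgG 0 x ⟨⟨le_refl _, zero_le_one⟩, hx⟩]
    have h1 : ∀ z : EuclideanSpace ℝ (Fin n), Ht S hSne v 0 z = z := by
      intro z
      unfold Ht
      rw [zero_mul, zero_smul, add_zero]
    simp only [hG, h1, Subtype.coe_eta, Homeomorph.apply_symm_apply]
  · intro x hx hx1
    rw [hgG 1 x ⟨⟨zero_le_one, le_refl _⟩, hx⟩] at hx1
    have h1 := h.injective (Subtype.coe_injective hx1)
    exact hne _ (congrArg Subtype.val h1)

end ThinS
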