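import Pool.Agent.Lib.ThinS.Defs

/-!
# Parameters for the general theorem

`par_rate`: with `K^4 ≤ k ≤ (K+1)^4`, `θ = K^2`, `ε = 1/K`, `n ≤ exp((K+1)/10)` and `K` large the
rate is at most `3/K`.
`par_count`: the bound on the number of codes is `exp(λ N)` with `λ` as small as we like.
-/

namespace ThinS

open Finset Filter Topology

private lemma ev_poly : ∃ K0 : ℕ, ∀ K : ℕ, K0 ≤ K → ((K : ℝ) + 1) ^ 5 ≤ Real.exp ((K : ℝ) / 5) := by
  have h := (Real.tendsto_pow_mul_exp_neg_atTop_nhds_zero 5).comp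
    (tendsto_natCast_atTop_atTop.atTop_div_const (by norm_num : (0 : ℝ) < 5) :
      Tendsto (fun K : ℕ => (K : ℝ) / 5) atTop atTop)
  have h2 : ∀ᶠ K : ℕ in atTop, ((K : ℝ) / 5) ^ 5 * Real.exp (-((K : ℝ) / 5)) ≤ 1 / 100000 := by
    have := h.eventually (gt_mem_nhds (by norm_num : (0 : ℝ) < 1 / 100000))
    filter_upwards [this] with K hK
    exact le_of_lt hK
  obtain ⟨K1, hK1⟩ := eventually_atTop.1 h2
  refine ⟨max K1 1, fun K hK => ?_⟩
  have e1 := hK1 K (le_trans (le_max_left _ _) hK)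
  have hK1' : (1 : ℝ) ≤ K := by
    have : 1 ≤ K := le_trans (le_max_right _ _) hK
    exact_mod_cast this
  have e2 : ((K : ℝ) / 5) ^ 5 ≤ 1 / 100000 * Real.exp ((K : ℝ) / 5) := by
    rw [Real.exp_neg] at e1
    have hpos := Real.exp_pos ((K : ℝ) / 5)
    rw [← div_eq_mul_inv, div_le_iff₀ hpos] at e1
    exact e1
  have e3 : ((K : ℝ) + 1) ^ 5 ≤ (2 * (K : ℝ)) ^ 5 := pow_le_pow_left₀ (by linarith) (by linarith) 5
  have e4 : (2 * (K : ℝ)) ^ 5 = 100000 * ((K : ℝ) / 5) ^ 5 := by ring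
  rw [e4] at e3
  linarith

theorem par_rate : ∃ K0 : ℕ, 4 ≤ K0 ∧ ∀ K k n : ℕ, K0 ≤ K → K ^ 4 ≤ k → k ≤ (K + 1) ^ 4 →
    (n : ℝ) ≤ Real.exp (((K : ℝ) + 1) / 10) → rate k n (K ^ 2) (1 / (K : ℝ)) ≤ 3 / K := by
  obtain ⟨K1, hK1⟩ := ev_poly
  refine ⟨max K1 10, le_trans (by norm_num) (le_max_right _ _), ?_⟩
  intro K k n hK hk hk' hn
  have hpoly := hK1 K (le_trans (le_max_left _ _) hK)
  have hK4 : (10 : ℝ) ≤ K := by
    have : 10 ≤ K := le_trans (le_max_right _ _) hK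
    exact_mod_cast this
  have hK0 : (0 : ℝ) < K := by linarith
  have hkR : (K : ℝ) ^ 4 ≤ k := by exact_mod_cast hk
  have hkR' : (k : ℝ) ≤ ((K : ℝ) + 1) ^ 4 := by exact_mod_cast hk'
  have t2 : (2 : ℝ) ^ (K ^ 2) * (1 - 1 / (K : ℝ) / 2) ^ k ≤ 1 / K := by
    have a1 : (1 - 1 / (K : ℝ) / 2) ≤ Real.exp (-(1 / (K : ℝ) / 2)) := by
      have := Real.add_one_le_exp (-(1 / (K : ℝ) / 2))
      linarith
    have a0 : 0 ≤ (1 - 1 / (K : ℝ) / 2) := by
      have : 1 / (K : ℝ) ≤ 1 := by rw [div_le_one hK0]; linarith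
      linarith
    have a2 : (1 - 1 / (K : ℝ) / 2) ^ k ≤ Real.exp (-((K : ℝ) ^ 3 / 2)) := by
      refine le_trans (pow_le_pow_left₀ a0 a1 k) ?_
      rw [← Real.exp_nat_mul]
      apply Real.exp_le_exp.2
      have : (K : ℝ) ^ 3 / 2 = (K : ℝ) ^ 4 * (1 / (K : ℝ) / 2) := by field_simp
      rw [this]
      have h5 : (K : ℝ) ^ 4 * (1 / (K : ℝ) / 2) ≤ k * (1 / (K : ℝ) / 2) :=
        mul_le_mul_of_nonneg_right hkR (by positivity)
      linarith
    have a3 : (2 : ℝ) ^ (K ^ 2) ≤ Real.exp ((K : ℝ) ^ 2) := by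
      have : (2 : ℝ) ≤ Real.exp 1 := by
        have := Real.add_one_le_exp (1 : ℝ)
        linarith
      calc (2 : ℝ) ^ (K ^ 2) ≤ (Real.exp 1) ^ (K ^ 2) := pow_le_pow_left₀ (by norm_num) this _
        _ = Real.exp ((K : ℝ) ^ 2) := by
          rw [← Real.exp_nat_mul, mul_one, Nat.cast_pow]
    have a4 : (2 : ℝ) ^ (K ^ 2) * (1 - 1 / (K : ℝ) / 2) ^ k ≤ Real.exp (-(K : ℝ)) := by
      calc (2 : ℝ) ^ (K ^ 2) * (1 - 1 / (K : ℝ) / 2) ^ k
          ≤ Real.exp ((K : ℝ) ^ 2) * Real.exp (-((K : ℝ) ^ 3 / 2)) :=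
            mul_le_mul a3 a2 (by positivity) (Real.exp_pos _).le
        _ = Real.exp ((K : ℝ) ^ 2 - (K : ℝ) ^ 3 / 2) := by rw [← Real.exp_add]; ring_nf
        _ ≤ Real.exp (-(K : ℝ)) := by
          apply Real.exp_le_exp.2
          nlinarith [mul_pos hK0 hK0, mul_nonneg (mul_pos hK0 hK0).le (by linarith : (0 : ℝ) ≤ K - 4)]
    refine a4.trans ?_
    rw [Real.exp_neg, one_div]
    apply inv_anti₀ hK0
    have := Real.add_one_le_exp (K : ℝ)
    linarith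
  have t3 : (k : ℝ) * n * ((1 + 1 / (K : ℝ) / 2) ^ (K ^ 2))⁻¹ ≤ 1 / K := by
    have hx : (0 : ℝ) < 1 + 1 / (K : ℝ) / 2 := by positivity
    have b1 : Real.exp ((K : ℝ) / 3) ≤ (1 + 1 / (K : ℝ) / 2) ^ (K ^ 2) := by
      have b2 : 1 - (1 + 1 / (K : ℝ) / 2)⁻¹ ≤ Real.log (1 + 1 / (K : ℝ) / 2) :=
        Real.one_sub_inv_le_log_of_pos hx
      have b3 : 1 - (1 + 1 / (K : ℝ) / 2)⁻¹ = 1 / (2 * K + 1) := by
        field_simp
        ring
      rw [b3] at b2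
      have b4 : (K : ℝ) / 3 ≤ (K ^ 2 : ℕ) * Real.log (1 + 1 / (K : ℝ) / 2) := by
        have : (K : ℝ) / 3 ≤ (K : ℝ) ^ 2 * (1 / (2 * K + 1)) := by
          rw [mul_one_div, div_le_div_iff₀ (by norm_num) (by positivity)]
          nlinarith
        calc (K : ℝ) / 3 ≤ (K : ℝ) ^ 2 * (1 / (2 * K + 1)) := this
          _ ≤ (K : ℝ) ^ 2 * Real.log (1 + 1 / (K : ℝ) / 2) :=
            mul_le_mul_of_nonneg_left b2 (by positivity)
          _ = (K ^ 2 : ℕ) * Real.log (1 + 1 / (K : ℝ) / 2) := by push_cast; ring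
      calc Real.exp ((K : ℝ) / 3) ≤ Real.exp ((K ^ 2 : ℕ) * Real.log (1 + 1 / (K : ℝ) / 2)) :=
            Real.exp_le_exp.2 b4
        _ = (1 + 1 / (K : ℝ) / 2) ^ (K ^ 2) := by
          rw [Real.exp_nat_mul, Real.exp_log hx]
    have c1 : (k : ℝ) * n * K ≤ Real.exp ((K : ℝ) / 3) := by
      calc (k : ℝ) * n * K ≤ ((K : ℝ) + 1) ^ 4 * Real.exp (((K : ℝ) + 1) / 10) * ((K : ℝ) + 1) := by
            have i1 : (0 : ℝ) ≤ n := Nat.cast_nonneg _
            have i2 : (0 : ℝ) ≤ k := Nat.cast_nonneg _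
            exact mul_le_mul (mul_le_mul hkR' hn i1 (by positivity)) (by linarith) hK0.le
              (by positivity)
        _ = ((K : ℝ) + 1) ^ 5 * Real.exp (((K : ℝ) + 1) / 10) := by ring
        _ ≤ Real.exp ((K : ℝ) / 5) * Real.exp (((K : ℝ) + 1) / 10) :=
            mul_le_mul_of_nonneg_right hpoly (Real.exp_pos _).le
        _ = Real.exp ((K : ℝ) / 5 + ((K : ℝ) + 1) / 10) := by rw [Real.exp_add]
        _ ≤ Real.exp ((K : ℝ) / 3) := by
            apply Real.exp_le_exp.2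
            linarith
    rw [← div_eq_mul_inv, div_le_div_iff₀ (by positivity) hK0, one_mul]
    exact c1.trans b1
  have e : rate k n (K ^ 2) (1 / (K : ℝ)) = 1 / K + (2 : ℝ) ^ (K ^ 2) * (1 - 1 / (K : ℝ) / 2) ^ k
      + (k : ℝ) * n * ((1 + 1 / (K : ℝ) / 2) ^ (K ^ 2))⁻¹ := rfl
  rw [e]
  have : (3 : ℝ) / K = 1 / K + 1 / K + 1 / K := by ring
  rw [this]
  linarith

/-- the count is `exp(λ N)` -/
theorem par_count (lam : ℝ) (hlam : 0 < lam) : ∃ K0 : ℕ, ∃ c : ℝ, 0 < c ∧ ∀ K n N L : ℕ,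
    K0 ≤ K → 1 ≤ n → (n : ℝ) ≤ Real.exp (c * ((K : ℝ) + 1)) → K ≤ N →
    (L : ℝ) ≤ 6 * (3 * N / K + 1) + 1 →
    ((8 * n ^ 2 : ℕ) : ℝ) ^ (L + 1) ≤ Real.exp (lam * N) := by
  obtain ⟨K1, hK1⟩ := exists_nat_gt (234 / lam)
  refine ⟨max K1 1, min (lam / 208) 1, by positivity, ?_⟩
  intro K n N L hK hn1 hn hKN hL
  have hK1' : (1 : ℝ) ≤ K := by
    have : 1 ≤ K := le_trans (le_max_right _ _) hK
    exact_mod_cast this
  have hK0 : (0 : ℝ) < K := by linarith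
  have hKbig : 234 / lam < K := lt_of_lt_of_le hK1 (by
    have := le_trans (le_max_left K1 1) hK
    exact_mod_cast this)
  have hN : (K : ℝ) ≤ N := by exact_mod_cast hKN
  have hN0 : (0 : ℝ) < N := by linarith
  have hnR : (1 : ℝ) ≤ n := by exact_mod_cast hn1
  have hbase : (0 : ℝ) < ((8 * n ^ 2 : ℕ) : ℝ) := by
    push_cast; positivity
  have hlog : Real.log ((8 * n ^ 2 : ℕ) : ℝ) ≤ 3 + 2 * (min (lam / 208) 1 * ((K : ℝ) + 1)) := by
    push_cast
    rw [Real.log_mul (by norm_num) (by positivity), Real.log_pow]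
    have l1 : Real.log 8 ≤ 3 := by
      have : Real.log 8 = 3 * Real.log 2 := by
        rw [show (8 : ℝ) = 2 ^ 3 by norm_num, Real.log_pow]; norm_num
      rw [this]
      have := Real.log_two_lt_d9
      linarith
    have l2 : Real.log n ≤ min (lam / 208) 1 * ((K : ℝ) + 1) := by
      rw [← Real.log_exp (min (lam / 208) 1 * ((K : ℝ) + 1))]
      exact Real.log_le_log (by linarith) hn
    push_cast
    linarith
  have hL1 : ((L + 1 : ℕ) : ℝ) ≤ 26 * N / K := by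
    push_cast
    have : (8 : ℝ) ≤ 8 * N / K := by
      rw [le_div_iff₀ hK0]; linarith
    have e : 26 * (N : ℝ) / K = 18 * N / K + 8 * N / K := by ring
    have e2 : 6 * (3 * (N : ℝ) / K + 1) + 1 + 1 = 18 * N / K + 8 := by ring
    linarith
  have hmin : min (lam / 208) 1 ≤ lam / 208 := min_le_left _ _
  have hmin0 : 0 < min (lam / 208) 1 := by positivity
  have hlog0 : 0 ≤ Real.log ((8 * n ^ 2 : ℕ) : ℝ) := by
    apply Real.log_nonneg
    have : 1 ≤ 8 * n ^ 2 := by nlinarith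
    exact_mod_cast this
  have key : ((L + 1 : ℕ) : ℝ) * Real.log ((8 * n ^ 2 : ℕ) : ℝ) ≤ lam * N := by
    calc ((L + 1 : ℕ) : ℝ) * Real.log ((8 * n ^ 2 : ℕ) : ℝ)
        ≤ (26 * N / K) * (3 + 2 * (lam / 208 * ((K : ℝ) + 1))) := by
          refine mul_le_mul hL1 (hlog.trans ?_) hlog0 (by positivity)
          have : min (lam / 208) 1 * ((K : ℝ) + 1) ≤ lam / 208 * ((K : ℝ) + 1) :=
            mul_le_mul_of_nonneg_right hmin (by positivity)
          linarith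
      _ = N * (78 / K + lam / 4 * (((K : ℝ) + 1) / K)) := by
          field_simp
          ring
      _ ≤ N * (lam / 3 + lam / 4 * 2) := by
          refine mul_le_mul_of_nonneg_left ?_ hN0.le
          have i1 : 78 / (K : ℝ) ≤ lam / 3 := by
            rw [div_le_div_iff₀ hK0 (by norm_num)]
            rw [div_lt_iff₀ hlam] at hKbig
            linarith
          have i2 : ((K : ℝ) + 1) / K ≤ 2 := by
            rw [div_le_iff₀ hK0]; linarith
          have i3 : lam / 4 * (((K : ℝ) + 1) / K) ≤ lam / 4 * 2 :=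
            mul_le_mul_of_nonneg_left i2 (by positivity)
          linarith
      _ ≤ lam * N := by nlinarith
  calc ((8 * n ^ 2 : ℕ) : ℝ) ^ (L + 1)
      = Real.exp (((L + 1 : ℕ) : ℝ) * Real.log ((8 * n ^ 2 : ℕ) : ℝ)) := by
        rw [Real.exp_nat_mul, Real.exp_log hbase]
    _ ≤ Real.exp (lam * N) := Real.exp_le_exp.2 key

end ThinS
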