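import Pool.Agent.Lib.ThinS.Count
import Pool.Agent.Lib.ThinS.Comp
import Pool.Agent.Lib.ThinS.Local
import Pool.Agent.Lib.ThinS.Low
import Pool.Agent.Lib.ThinS.Par

/-!
# Dense `k`-graphs without thin subfamilies, for a whole range of `k` and `n`

`exists_family_gen`: for every `δ > 0` there is `C` such that for all `k ≥ C` and
`C k ≤ n ≤ exp(k^(1/4)/C)` some `k`-graph on `n` vertices has all co-degrees at least `(1 - δ) n` and
no nonempty thin subfamily.  Same proof as `exists_family` with density `1 - q`, `q` small.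
-/

namespace ThinS

open Finset Filter Topology

open Classical in
private lemma sum_gen (k n : ℕ) (hk : 1 ≤ k) (a : Finset (Fin n)) (x r : ℝ) (hx : 0 ≤ x)
    (hr : 0 ≤ r) (hr1 : r < 1)
    (hc : ∀ N, k + 1 ≤ N → (((univ : Finset (Finset (Finset (Fin n)))).filter
      (fun F => TC k n F ∧ a ∈ F ∧ F.card = N)).card : ℝ) * x ^ N ≤ r ^ N) :
    ∑ F ∈ (univ : Finset (Finset (Finset (Fin n)))).filter
      (fun F => TC k n F ∧ a ∈ F), x ^ F.card ≤ r ^ (k + 1) / (1 - r) := by
  set 𝓢 := (univ : Finset (Finset (Finset (Fin n)))).filter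
      (fun F => TC k n F ∧ a ∈ F) with h𝓢
  set M : ℕ := (univ : Finset (Finset (Fin n))).card + 1 with hM
  have hmap : ∀ F ∈ 𝓢, F.card ∈ Ico (k + 1) M := by
    intro F hF
    rw [h𝓢, mem_filter] at hF
    rw [mem_Ico]
    exact ⟨card_ge _ _ hk F hF.2.1.1 hF.2.1.2.1, Nat.lt_succ_of_le (card_le_card (subset_univ F))⟩
  rw [← sum_fiberwise_of_maps_to hmap]
  refine le_trans (sum_le_sum fun N hN => ?_) (geom_sum_Ico_le_of_lt_one hr hr1)
  rw [mem_Ico] at hN
  have e1 : ∑ F ∈ 𝓢 with F.card = N, x ^ F.card =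
      ((𝓢.filter (fun F => F.card = N)).card : ℝ) * x ^ N := by
    rw [← nsmul_eq_mul, ← sum_const]
    refine sum_congr rfl fun F hF => ?_
    rw [(mem_filter.1 hF).2]
  rw [e1]
  refine le_trans ?_ (hc N hN.1)
  refine mul_le_mul_of_nonneg_right ?_ (pow_nonneg hx N)
  rw [h𝓢, filter_filter]
  simp only [and_assoc]
  exact le_rfl

private lemma inv_aux (A B D : ℝ) : A⁻¹ * (D * B⁻¹) = D / (A * B) := by
  rw [div_eq_mul_inv, mul_inv]; ring

/-- the `k`-sets containing `ρ` -/
private def dm (k n : ℕ) (ρ : Finset (Fin n)) : Finset (Finset (Fin n)) :=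
  ((univ : Finset (Fin n)).powersetCard k).filter (fun e => ρ ⊆ e)

private lemma mem_dm {k n : ℕ} {ρ e : Finset (Fin n)} : e ∈ dm k n ρ ↔ e.card = k ∧ ρ ⊆ e := by
  simp [dm, mem_powersetCard]

private lemma card_dm {k n : ℕ} {ρ : Finset (Fin n)} (hρ : ρ.card + 1 = k) :
    (dm k n ρ).card + k = n + 1 := by
  classical
  have h : dm k n ρ = ρᶜ.image (fun v => insert v ρ) := by
    ext e
    rw [mem_dm, mem_image]
    constructor
    · rintro ⟨h1, h2⟩
      have h3 : (e \ ρ).card = 1 := by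
        rw [card_sdiff_of_subset h2]; omega
      obtain ⟨v, hv⟩ := card_eq_one.1 h3
      have hve : v ∈ e \ ρ := by rw [hv]; exact mem_singleton_self v
      rw [Finset.mem_sdiff] at hve
      refine ⟨v, by rw [mem_compl]; exact hve.2, ?_⟩
      rw [insert_eq, ← hv, sdiff_union_of_subset h2]
    · rintro ⟨v, hv, rfl⟩
      rw [mem_compl] at hv
      exact ⟨by rw [card_insert_of_notMem hv, hρ], subset_insert v ρ⟩
  have hinj : Set.InjOn (fun v => insert v ρ) (ρᶜ : Finset (Fin n)) := by
    intro u hu v hv huv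
    simp only [coe_compl, Set.mem_compl_iff, mem_coe] at hu hv
    have : u ∈ insert v ρ := by
      have h0 : insert u ρ = insert v ρ := huv
      rw [← h0]; exact mem_insert_self u ρ
    rcases mem_insert.1 this with h | h
    · exact h
    · exact absurd h hu
  rw [h, card_image_of_injOn hinj, card_compl, Fintype.card_fin]
  have : ρ.card ≤ n := by simpa using card_le_univ ρ
  omega

/-- the probability that at least `t` elements are missing -/
private lemma prob_miss {α : Type*} [DecidableEq α] (S : Finset α) (p : ℝ) (hp : 0 ≤ p)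
    (hp1 : p ≤ 1) (t : ℕ) (P : Finset α → Prop) (hP : ∀ D ⊆ S, P D → t ≤ (S \ D).card) :
    Ex p S (ind P) ≤ 2 ^ S.card * (1 - p) ^ t := by
  classical
  have h : ∀ D ∈ S.powerset, wt p S D * ind P D ≤ (1 - p) ^ t := by
    intro D hD
    rw [mem_powerset] at hD
    by_cases h : P D
    · have h1 : ind P D = 1 := by rw [ind, if_pos h]
      rw [h1, mul_one, wt]
      have h2 : p ^ D.card ≤ 1 := pow_le_one₀ hp hp1
      have h3 : (1 - p) ^ (S \ D).card ≤ (1 - p) ^ t :=
        pow_le_pow_of_le_one (by linarith) (by linarith) (hP D hD h)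
      calc p ^ D.card * (1 - p) ^ (S \ D).card ≤ 1 * (1 - p) ^ t :=
            mul_le_mul h2 h3 (pow_nonneg (by linarith) _) zero_le_one
        _ = (1 - p) ^ t := one_mul _
    · have h1 : ind P D = 0 := by rw [ind, if_neg h]
      rw [h1, mul_zero]
      exact pow_nonneg (by linarith) _
  rw [Ex]
  refine le_trans (sum_le_sum h) ?_
  rw [sum_const, card_powerset, nsmul_eq_mul]
  push_cast
  exact le_rfl

theorem exists_family_gen (δ : ℝ) (hδ : 0 < δ) :
    ∃ C : ℝ, 0 < C ∧ ∀ k n : ℕ, C ≤ k → C * k ≤ n →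
      (n : ℝ) ≤ Real.exp ((k : ℝ) ^ ((1 : ℝ) / 4) / C) →
      ∃ G : Finset (Finset (Fin n)), (∀ e ∈ G, e.card = k) ∧
        (∀ S : Finset (Fin n), S.card + 1 = k → (1 - δ) * n ≤ (st G S).card) ∧
        ∀ F ⊆ G, F.Nonempty → ¬ Thin k F := by
  classical
  -- constants
  obtain ⟨a, ha⟩ : ∃ a : ℕ, 4 / δ ≤ a := exists_nat_ge _
  have ha1 : 1 ≤ a := by
    have : (0 : ℝ) < a := lt_of_lt_of_le (by positivity) ha
    have : 0 < a := by exact_mod_cast this
    omega
  have haR : (1 : ℝ) ≤ a := by exact_mod_cast ha1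
  obtain ⟨q, hq⟩ : ∃ q : ℝ, q = (1 / 8 : ℝ) ^ a := ⟨_, rfl⟩
  have hq0 : 0 < q := by rw [hq]; positivity
  have hq8 : q ≤ 1 / 8 := by
    rw [hq]
    calc (1 / 8 : ℝ) ^ a ≤ (1 / 8 : ℝ) ^ 1 :=
          pow_le_pow_of_le_one (by norm_num) (by norm_num) ha1
      _ = 1 / 8 := pow_one _
  obtain ⟨r, hr⟩ : ∃ r : ℝ, r = 1 - q / 4 := ⟨_, rfl⟩
  have hr0 : 0 ≤ r := by rw [hr]; linarith
  have hr1 : r < 1 := by rw [hr]; linarith
  obtain ⟨k0, hk0⟩ : ∃ k0 : ℕ, ∀ k : ℕ, k0 ≤ k → r ^ (k + 1) / (1 - r) ≤ q / 8 := by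
    have h1 : Tendsto (fun k : ℕ => r ^ (k + 1) / (1 - r)) atTop (𝓝 (0 / (1 - r))) :=
      ((tendsto_pow_atTop_nhds_zero_of_lt_one hr0 hr1).comp (tendsto_add_atTop_nat 1)).div_const _
    rw [zero_div] at h1
    have h2 := h1.eventually (gt_mem_nhds (by positivity : (0 : ℝ) < q / 8))
    obtain ⟨k0, hk0⟩ := eventually_atTop.1 h2
    exact ⟨k0, fun k hk => (hk0 k hk).le⟩
  obtain ⟨n0, hn0⟩ : ∃ n0 : ℕ, ∀ n : ℕ, n0 ≤ n → (n : ℝ) * (1 / 2) ^ n ≤ q / 8 := by
    have h1 := tendsto_self_mul_const_pow_of_lt_one (r := (1 / 2 : ℝ)) (by norm_num) (by norm_num)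
    have h2 := h1.eventually (gt_mem_nhds (by positivity : (0 : ℝ) < q / 8))
    obtain ⟨n0, hn0⟩ := eventually_atTop.1 h2
    exact ⟨n0, fun k hk => (hn0 k hk).le⟩
  obtain ⟨K1, hK1, hrate⟩ := par_rate
  obtain ⟨K2, c, hc, hcount⟩ := par_count (q / 8) (by positivity)
  set C : ℝ := 4 / δ + 10 + 1 / c + (K1 + K2 + 1 : ℝ) ^ 4 + k0 + n0 + 2 with hC
  have hp1 : 0 < 4 / δ := by positivity
  have hp2 : 0 < 1 / c := by positivity
  have hp3 : (0 : ℝ) ≤ (K1 + K2 + 1 : ℝ) ^ 4 := by positivity
  have hp4 : (0 : ℝ) ≤ k0 := Nat.cast_nonneg _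
  have hp5 : (0 : ℝ) ≤ n0 := Nat.cast_nonneg _
  have hC0 : 0 < C := by rw [hC]; linarith
  refine ⟨C, hC0, ?_⟩
  intro k n hkC hnC hnexp
  have hC10 : 10 ≤ C := by rw [hC]; linarith
  have hk2 : (2 : ℝ) ≤ k := by linarith
  have hk2' : 2 ≤ k := by exact_mod_cast hk2
  have hkpos : (0 : ℝ) < k := by linarith
  have hkn : (k : ℝ) ≤ n := by nlinarith
  have hn0' : (0 : ℝ) < n := by linarith
  have hn1 : 1 ≤ n := by
    have : 0 < n := by exact_mod_cast hn0'
    omega
  -- the integer K
  set y : ℝ := (k : ℝ) ^ ((1 : ℝ) / 4) with hy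
  have hy0 : 0 ≤ y := Real.rpow_nonneg hkpos.le _
  have hy4 : y ^ 4 = k := by
    rw [hy, ← Real.rpow_natCast, ← Real.rpow_mul hkpos.le]
    norm_num
  set K : ℕ := ⌊y⌋₊ with hK
  have hKy : (K : ℝ) ≤ y := Nat.floor_le hy0
  have hyK : y < K + 1 := Nat.lt_floor_add_one y
  have hKk : K ^ 4 ≤ k := by
    have : (K : ℝ) ^ 4 ≤ k := by
      rw [← hy4]; exact pow_le_pow_left₀ (Nat.cast_nonneg _) hKy 4
    exact_mod_cast this
  have hkK : k ≤ (K + 1) ^ 4 := by
    have : (k : ℝ) ≤ ((K : ℝ) + 1) ^ 4 := by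
      rw [← hy4]; exact pow_le_pow_left₀ hy0 hyK.le 4
    exact_mod_cast this
  have hKbig : K1 + K2 ≤ K := by
    by_contra hcon
    push Not at hcon
    have h1 : K + 1 ≤ K1 + K2 := hcon
    have h2 : ((K : ℝ) + 1) ≤ K1 + K2 := by exact_mod_cast h1
    have h3 : (k : ℝ) < (K1 + K2 + 1 : ℝ) ^ 4 := by
      rw [← hy4]
      exact pow_lt_pow_left₀ (by linarith) hy0 (by norm_num)
    have h4 : (K1 + K2 + 1 : ℝ) ^ 4 ≤ C := by rw [hC]; linarith
    linarith
  have hK0 : 0 < K := by omega
  have hKR : (0 : ℝ) < K := by exact_mod_cast hK0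
  have hexp1 : (n : ℝ) ≤ Real.exp (((K : ℝ) + 1) / 10) := by
    refine hnexp.trans (Real.exp_le_exp.2 ?_)
    calc y / C ≤ y / 10 := div_le_div_of_nonneg_left hy0 (by norm_num) hC10
      _ ≤ ((K : ℝ) + 1) / 10 := by linarith
  have hexp2 : (n : ℝ) ≤ Real.exp (c * ((K : ℝ) + 1)) := by
    refine hnexp.trans (Real.exp_le_exp.2 ?_)
    have h1 : 1 / c ≤ C := by rw [hC]; linarith
    have h2 : y / C ≤ y / (1 / c) := div_le_div_of_nonneg_left hy0 hp2 h1
    have h3 : y / (1 / c) = c * y := by field_simp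
    rw [h3] at h2
    exact h2.trans (mul_le_mul_of_nonneg_left hyK.le hc.le)
  have hr' := hrate K k n (by omega) hKk hkK hexp1
  have hε1 : 1 / (K : ℝ) ≤ 1 := by
    rw [div_le_one hKR]
    exact_mod_cast hK0
  -- the number t of missing edges
  set t : ℕ := n / a + 1 with ht
  have hat : n ≤ a * t := by
    rw [ht, mul_add, mul_one]
    have := Nat.div_add_mod n a
    have := Nat.mod_lt n (show 0 < a by omega)
    omega
  have htR : (t : ℝ) ≤ δ * n / 4 + 1 := by
    have h1 : ((n / a : ℕ) : ℝ) ≤ (n : ℝ) / a := Nat.cast_div_le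
    have h2 : (n : ℝ) / a ≤ n / (4 / δ) :=
      div_le_div_of_nonneg_left hn0'.le hp1 ha
    have h3 : (n : ℝ) / (4 / δ) = δ * n / 4 := by field_simp
    rw [ht]; push_cast
    linarith
  have hkδ : (k : ℝ) ≤ δ * n / 4 := by
    have h1 : 4 / δ ≤ C := by rw [hC]; linarith
    have h2 : 4 / δ * k ≤ n := (mul_le_mul_of_nonneg_right h1 hkpos.le).trans hnC
    have h3 : 4 / δ * (k : ℝ) = 4 * k / δ := by ring
    rw [h3, div_le_iff₀ hδ] at h2
    linarith
  let I : Finset (Finset (Fin n) ⊕ Finset (Finset (Fin n))) :=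
    ((univ : Finset (Finset (Fin n))).filter (fun ρ => ρ.card + 1 = k)).disjSum
      ((univ : Finset (Finset (Finset (Fin n)))).filter (fun F => TC k n F))
  let dom : Finset (Fin n) ⊕ Finset (Finset (Fin n)) → Finset (Finset (Fin n)) :=
    Sum.elim (fun ρ => dm k n ρ) (fun F => F)
  let bad : Finset (Fin n) ⊕ Finset (Finset (Fin n)) → Finset (Finset (Fin n)) → Prop :=
    Sum.elim (fun _ D => (D.card : ℝ) < (1 - δ) * n) (fun F D => F ⊆ D)
  have hdom : ∀ i ∈ I, dom i ⊆ (univ : Finset (Fin n)).powersetCard k := by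
    rintro (ρ | F) hi
    · exact filter_subset _ _
    · intro e he
      rw [inr_mem_disjSum, mem_filter] at hi
      rw [mem_powersetCard]
      exact ⟨subset_univ _, hi.2.1.1 e he⟩
  have hkn' : k ≤ n := by exact_mod_cast hkn
  have hne : ∀ i ∈ I, (dom i).Nonempty := by
    rintro (ρ | F) hi
    · rw [inl_mem_disjSum, mem_filter] at hi
      have := card_dm (n := n) hi.2
      rw [← card_pos]
      show 0 < (dm k n ρ).card
      omega
    · rw [inr_mem_disjSum, mem_filter] at hi
      exact hi.2.2.1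
  have hη : (1 - q / 4)⁻¹ ≤ 2 := by
    rw [inv_le_comm₀ (by linarith) (by norm_num)]
    linarith
  have hη0 : 0 ≤ (1 - q / 4)⁻¹ := inv_nonneg.2 (by linarith)
  obtain ⟨G, hG, hbad⟩ := local_lemma ((univ : Finset (Fin n)).powersetCard k) I dom bad
    (1 - q) (q / 4) (by linarith) (by linarith) (by linarith) (by linarith) hdom hne (by
      intro b hb
      rw [mem_powersetCard] at hb
      rw [sum_filter]
      show ∑ i ∈ ((univ : Finset (Finset (Fin n))).filter (fun ρ => ρ.card + 1 = k)).disjSum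
        ((univ : Finset (Finset (Finset (Fin n)))).filter (fun F => TC k n F)), _ ≤ _
      rw [sum_disjSum, ← sum_filter, ← sum_filter, filter_filter, filter_filter]
      have e1 : (q / 4 : ℝ) = q / 8 + q / 8 := by ring
      rw [e1]
      refine add_le_add ?_ ?_
      · -- ridges
        set T := (univ : Finset (Finset (Fin n))).filter
          (fun ρ => ρ.card + 1 = k ∧ b ∈ dom (Sum.inl ρ)) with hT
        have hTc : T.card ≤ k := by
          have : T ⊆ b.powersetCard (k - 1) := by
            intro ρ hρ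
            rw [hT, mem_filter] at hρ
            have h3 : b ∈ dm k n ρ := hρ.2.2
            rw [mem_dm] at h3
            rw [mem_powersetCard]
            exact ⟨h3.2, by omega⟩
          refine le_trans (card_le_card this) ?_
          rw [card_powersetCard, hb.2, ← Nat.choose_symm (Nat.sub_le _ _)]
          have : k - (k - 1) = 1 := by omega
          rw [this, Nat.choose_one_right]
        have hterm : ∀ ρ ∈ T, Ex (1 - q) (dom (Sum.inl ρ)) (ind (bad (Sum.inl ρ))) *
            ((1 - (q / 8 + q / 8))⁻¹) ^ (dom (Sum.inl ρ)).card ≤ (1 / 2 : ℝ) ^ n := by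
          intro ρ hρ
          rw [hT, mem_filter] at hρ
          have hcd := card_dm (n := n) hρ.2.1
          have hm : (dm k n ρ).card ≤ n := by omega
          have hmR : ((dm k n ρ).card : ℝ) + k = n + 1 := by exact_mod_cast hcd
          have hp := prob_miss (dm k n ρ) (1 - q) (by linarith) (by linarith) t
            (bad (Sum.inl ρ)) (by
              intro D hD hbD
              have h1 : (D.card : ℝ) < (1 - δ) * n := hbD
              have h2 : ((dm k n ρ \ D).card : ℝ) = (dm k n ρ).card - D.card := by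
                rw [card_sdiff_of_subset hD, Nat.cast_sub (card_le_card hD)]
              have h3 : (t : ℝ) ≤ ((dm k n ρ \ D).card : ℝ) := by
                rw [h2]
                nlinarith
              exact_mod_cast h3)
          have e2 : (1 - (1 - q)) = q := by ring
          rw [e2] at hp
          have e3 : (1 - (q / 8 + q / 8))⁻¹ = (1 - q / 4)⁻¹ := by ring_nf
          show Ex (1 - q) (dm k n ρ) (ind (bad (Sum.inl ρ))) *
            ((1 - (q / 8 + q / 8))⁻¹) ^ (dm k n ρ).card ≤ (1 / 2 : ℝ) ^ n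
          rw [e3]
          have f1 : (2 : ℝ) ^ (dm k n ρ).card ≤ 2 ^ n := pow_le_pow_right₀ (by norm_num) hm
          have f2 : q ^ t ≤ (1 / 8 : ℝ) ^ n := by
            rw [hq, ← pow_mul]
            exact pow_le_pow_of_le_one (by norm_num) (by norm_num) hat
          have f3 : ((1 - q / 4)⁻¹) ^ (dm k n ρ).card ≤ (2 : ℝ) ^ n :=
            (pow_le_pow_left₀ hη0 hη _).trans f1
          calc Ex (1 - q) (dm k n ρ) (ind (bad (Sum.inl ρ))) * ((1 - q / 4)⁻¹) ^ (dm k n ρ).card
              ≤ (2 ^ (dm k n ρ).card * q ^ t) * ((1 - q / 4)⁻¹) ^ (dm k n ρ).card :=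
                mul_le_mul_of_nonneg_right hp (pow_nonneg hη0 _)
            _ ≤ (2 ^ n * (1 / 8 : ℝ) ^ n) * 2 ^ n :=
                mul_le_mul (mul_le_mul f1 f2 (by positivity) (by positivity)) f3
                  (pow_nonneg hη0 _) (by positivity)
            _ = (1 / 2 : ℝ) ^ n := by
                rw [← mul_pow, ← mul_pow]; norm_num
        refine le_trans (sum_le_sum hterm) ?_
        rw [sum_const, nsmul_eq_mul]
        have g1 : (T.card : ℝ) ≤ n := by
          have : T.card ≤ n := hTc.trans hkn'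
          exact_mod_cast this
        refine le_trans (mul_le_mul_of_nonneg_right g1 (by positivity)) (hn0 n ?_)
        have : (n0 : ℝ) ≤ n := by
          have h1 : (n0 : ℝ) ≤ C := by rw [hC]; linarith
          nlinarith
        exact_mod_cast this
      · -- TC families
        have hk0k : k0 ≤ k := by
          have : (k0 : ℝ) ≤ k := by
            have h1 : (k0 : ℝ) ≤ C := by rw [hC]; linarith
            linarith
          exact_mod_cast this
        refine le_trans ?_ (hk0 k hk0k)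
        have e4 : ∀ F ∈ (univ : Finset (Finset (Finset (Fin n)))).filter
            (fun F => TC k n F ∧ b ∈ dom (Sum.inr F)),
            Ex (1 - q) (dom (Sum.inr F)) (ind (bad (Sum.inr F))) *
              ((1 - (q / 8 + q / 8))⁻¹) ^ (dom (Sum.inr F)).card =
            ((1 - q) * (1 - q / 4)⁻¹) ^ F.card := by
          intro F _
          have e3 : (1 - (q / 8 + q / 8))⁻¹ = (1 - q / 4)⁻¹ := by ring_nf
          show Ex (1 - q) F (ind (fun D => F ⊆ D)) * ((1 - (q / 8 + q / 8))⁻¹) ^ F.card = _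
          rw [prob_all, e3, mul_pow]
        rw [sum_congr rfl e4]
        refine sum_gen k n (by omega) b ((1 - q) * (1 - q / 4)⁻¹) r
          (mul_nonneg (by linarith) hη0) hr0 hr1 ?_
        intro N hN
        set L : ℕ := ⌈6 * (3 * (N : ℝ) / K + 1)⌉₊ with hL
        have hx0 : (0 : ℝ) ≤ 6 * (3 * (N : ℝ) / K + 1) := by positivity
        have hL1 : 6 * ((N : ℝ) * rate k n (K ^ 2) (1 / (K : ℝ)) + 1) ≤ L := by
          refine le_trans ?_ (Nat.le_ceil _)
          have : (N : ℝ) * rate k n (K ^ 2) (1 / (K : ℝ)) ≤ N * (3 / K) :=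
            mul_le_mul_of_nonneg_left hr' (Nat.cast_nonneg _)
          have e2 : (N : ℝ) * (3 / K) = 3 * N / K := by ring
          rw [e2] at this
          linarith
        have hL2 : (L : ℝ) ≤ 6 * (3 * N / K + 1) + 1 := (Nat.ceil_lt_add_one hx0).le
        have hKN : K ≤ N := by
          have h1 : K ≤ K ^ 4 := Nat.le_self_pow (by norm_num) K
          omega
        have hcc := count_tc k n (K ^ 2) N L (by omega) (Nat.one_le_pow _ _ (by omega))
          (1 / (K : ℝ)) (by positivity) hε1 b hL1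
        have hcr : (((univ : Finset (Finset (Finset (Fin n)))).filter
            (fun F => TC k n F ∧ b ∈ F ∧ F.card = N)).card : ℝ) ≤ Real.exp (q / 8 * N) := by
          refine le_trans ?_ (hcount K n N L (by omega) hn1 hexp2 hKN hL2)
          rw [← Nat.cast_pow]
          exact Nat.cast_le.2 hcc
        calc (((univ : Finset (Finset (Finset (Fin n)))).filter
            (fun F => TC k n F ∧ b ∈ F ∧ F.card = N)).card : ℝ) *
              ((1 - q) * (1 - q / 4)⁻¹) ^ N
            ≤ Real.exp (q / 8 * N) * ((1 - q) * (1 - q / 4)⁻¹) ^ N :=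
              mul_le_mul_of_nonneg_right hcr
                (pow_nonneg (mul_nonneg (by linarith) hη0) _)
          _ = (Real.exp (q / 8) * ((1 - q) * (1 - q / 4)⁻¹)) ^ N := by
              rw [mul_comm (q / 8) (N : ℝ), Real.exp_nat_mul, ← mul_pow]
          _ ≤ r ^ N := by
              refine pow_le_pow_left₀ (mul_nonneg (Real.exp_pos _).le
                (mul_nonneg (by linarith) hη0)) ?_ N
              have g1 : Real.exp (q / 8) ≤ (1 - q / 8)⁻¹ := by
                have h1 : 1 - q / 8 ≤ Real.exp (-(q / 8)) := by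
                  have := Real.add_one_le_exp (-(q / 8))
                  linarith
                rw [Real.exp_neg] at h1
                rw [le_inv_comm₀ (Real.exp_pos _) (by linarith)]
                exact h1
              calc Real.exp (q / 8) * ((1 - q) * (1 - q / 4)⁻¹)
                  ≤ (1 - q / 8)⁻¹ * ((1 - q) * (1 - q / 4)⁻¹) :=
                    mul_le_mul_of_nonneg_right g1 (mul_nonneg (by linarith) hη0)
                _ = (1 - q) / ((1 - q / 8) * (1 - q / 4)) := by
                    exact inv_aux _ _ _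
                _ ≤ r := by
                    rw [hr, div_le_iff₀ (mul_pos (by linarith) (by linarith))]
                    nlinarith [sq_nonneg q])
  have hGk : ∀ e ∈ G, e.card = k := fun e he => (mem_powersetCard.1 (hG he)).2
  refine ⟨G, hGk, ?_, ?_⟩
  · intro S hS
    have hi : (Sum.inl S : Finset (Fin n) ⊕ Finset (Finset (Fin n))) ∈ I := by
      rw [inl_mem_disjSum, mem_filter]
      exact ⟨mem_univ _, hS⟩
    have hb : ¬ (((G ∩ dm k n S).card : ℝ) < (1 - δ) * n) := hbad _ hi
    have : G ∩ dm k n S = st G S := by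
      ext e
      rw [mem_inter, mem_dm, st, mem_filter]
      constructor
      · rintro ⟨h1, _, h2⟩; exact ⟨h1, h2⟩
      · rintro ⟨h1, h2⟩; exact ⟨h1, hGk e h1, h2⟩
    rw [this] at hb
    linarith
  · intro F hF hFne hthin
    obtain ⟨F', hF', htc⟩ := exists_tc k n (by omega) F hthin hFne
    have hi : (Sum.inr F' : Finset (Fin n) ⊕ Finset (Finset (Fin n))) ∈ I := by
      rw [inr_mem_disjSum, mem_filter]
      exact ⟨mem_univ _, htc⟩
    have hb : ¬ (F' ⊆ G ∩ F') := hbad _ hi
    exact hb (subset_inter (hF'.trans hF) (Subset.refl _))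

end ThinS
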