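import Pool.Agent.Lib.ThinS.Defs

/-!
# The points of the realised complex (size about 60)

`x` is in the convex hull of `{single v 1 : v ∈ e}` iff `x ≥ 0`, the coordinates sum to `1` and
the support is in `e`.  (For `⊆`: the right side is a convex set containing the generators,
`convexHull_min`.  For `⊇`: `x = Σ_{v ∈ e} x v • single v 1`, `Convex.sum_mem` or
`Finset.centerMass_mem_convexHull`; or `mem_convexHull_of_exists_fintype` style lemmas.)
-/

namespace ThinS

open Finset

theorem mem_rz {n : ℕ} (H : Finset (Finset (Fin n))) (x : EuclideanSpace ℝ (Fin n)) :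
    x ∈ rz H ↔ ∃ e ∈ H, (∀ v, 0 ≤ x v) ∧ ∑ v, x v = 1 ∧ ∀ v, x v ≠ 0 → v ∈ e := by
  classical
  unfold rz
  rw [Set.mem_iUnion₂]
  constructor
  · rintro ⟨e, he, hx⟩
    refine ⟨e, he, ?_⟩
    let A : Set (EuclideanSpace ℝ (Fin n)) :=
      {x | (∀ v, 0 ≤ x v) ∧ ∑ v, x v = 1 ∧ ∀ v, x v ≠ 0 → v ∈ e}
    have hA : Convex ℝ A := by
      intro y hy z hz a b ha hb hab
      refine ⟨fun v => ?_, ?_, fun v hv => ?_⟩
      · have h1 := mul_nonneg ha (hy.1 v)
        have h2 := mul_nonneg hb (hz.1 v)
        simpa using add_nonneg h1 h2
      · have : ∑ v, (a • y + b • z) v = a * ∑ v, y v + b * ∑ v, z v := by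
          rw [Finset.mul_sum, Finset.mul_sum, ← Finset.sum_add_distrib]
          exact Finset.sum_congr rfl fun v _ => by simp
        rw [this, hy.2.1, hz.2.1, mul_one, mul_one, hab]
      · by_contra hve
        have h1 : y v = 0 := by
          by_contra h; exact hve (hy.2.2 v h)
        have h2 : z v = 0 := by
          by_contra h; exact hve (hz.2.2 v h)
        apply hv
        simp [h1, h2]
    have hsub : ((fun v : Fin n => EuclideanSpace.single v (1 : ℝ)) '' (↑e : Set (Fin n))) ⊆ A := by
      rintro _ ⟨v, hv, rfl⟩
      refine ⟨fun w => ?_, ?_, fun w hw => ?_⟩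
      · by_cases h : w = v
        · subst h; simp
        · simp [h]
      · rw [Finset.sum_eq_single v]
        · simp
        · intro w _ hw
          simp [hw]
        · intro h
          exact absurd (Finset.mem_univ v) h
      · by_cases h : w = v
        · subst h; exact hv
        · exfalso
          apply hw
          simp [h]
    exact convexHull_min hsub hA hx
  · rintro ⟨e, he, h0, h1, h2⟩
    refine ⟨e, he, ?_⟩
    have hxe : x = ∑ v ∈ e, x v • EuclideanSpace.single v (1 : ℝ) := by
      ext w
      rw [WithLp.ofLp_sum, Finset.sum_apply]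
      by_cases hw : w ∈ e
      · rw [Finset.sum_eq_single w]
        · simp
        · intro v _ hv
          simp [hv.symm]
        · intro h
          exact absurd hw h
      · have hxw : x w = 0 := by
          by_contra h; exact hw (h2 w h)
        rw [hxw]
        symm
        apply Finset.sum_eq_zero
        intro v hv
        have : w ≠ v := by
          rintro rfl; exact hw hv
        simp [this]
    have hsum : ∑ v ∈ e, x v = 1 := by
      rw [← h1]
      apply Finset.sum_subset (Finset.subset_univ e)
      intro v _ hv
      by_contra h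
      exact hv (h2 v h)
    rw [hxe]
    apply (convex_convexHull ℝ _).sum_mem
    · intro v _
      exact h0 v
    · exact hsum
    · intro v hv
      exact subset_convexHull ℝ _ ⟨v, hv, rfl⟩

end ThinS
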