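import Pool.Agent.Lib.ThinS.Defs

/-!
# Recovering `F`, neighbours
-/

namespace ThinS

open Finset

private theorem seen_pos {k n : ℕ} {D : Finset (Finset (Fin n))} {τ : Finset (Fin n)}
    (hτ : τ.card = k) (h : 1 ≤ seen D τ) :
    ∃ v ∈ τ, ∃ σ ∈ D, τ.erase v ⊆ σ ∧ (τ.erase v).card + 1 = k := by
  unfold seen at h
  obtain ⟨v, hv⟩ := Finset.card_pos.1 (Nat.lt_of_lt_of_le Nat.zero_lt_one h)
  simp only [Finset.mem_filter] at hv
  obtain ⟨hv, σ, hσ, hs⟩ := hv
  have hs' : τ.erase v ⊆ σ := by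
    intro x hx
    apply hs
    simp only [Finset.mem_erase] at hx ⊢
    exact hx
  refine ⟨v, hv, σ, hσ, hs', ?_⟩
  rw [Finset.card_erase_of_mem hv, hτ]
  have : 0 < τ.card := Finset.card_pos.2 ⟨v, hv⟩
  omega

theorem recover (k θ n : ℕ) (hk : 1 ≤ k) (F : Finset (Finset (Fin n))) (hF : Thin k F)
    (D : Finset (Finset (Fin n))) (hD : D ⊆ F) :
    F = D ∪ Bd θ F D ∪ (Cand k θ D \ Qd k θ F D) := by
  classical
  ext τ
  simp only [Finset.mem_union, Finset.mem_sdiff]
  constructor
  · intro hτ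
    by_cases h1 : τ ∈ D
    · exact Or.inl (Or.inl h1)
    by_cases h2 : seen D τ < θ
    · refine Or.inl (Or.inr ?_)
      unfold Bd
      rw [Finset.mem_filter]
      exact ⟨hτ, h1, h2⟩
    · refine Or.inr ⟨?_, ?_⟩
      · unfold Cand
        rw [Finset.mem_filter]
        refine ⟨Finset.mem_univ _, hF.1 τ hτ, h1, Nat.le_of_not_lt h2, ?_⟩
        intro v hv
        have hc : (τ.erase v).card + 1 = k := by
          rw [Finset.card_erase_of_mem hv, hF.1 τ hτ]
          omega
        have h3 := hF.2 (τ.erase v) hc ⟨τ, hτ, Finset.erase_subset _ _⟩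
        have hm : τ ∈ st F (τ.erase v) := by
          unfold st
          rw [Finset.mem_filter]
          exact ⟨hτ, Finset.erase_subset _ _⟩
        have h4 : st D (τ.erase v) ⊆ (st F (τ.erase v)).erase τ := by
          intro σ hσ
          unfold st at hσ
          rw [Finset.mem_filter] at hσ
          rw [Finset.mem_erase]
          refine ⟨fun he => h1 (he ▸ hσ.1), ?_⟩
          unfold st
          rw [Finset.mem_filter]
          exact ⟨hD hσ.1, hσ.2⟩
        calc (st D (τ.erase v)).card ≤ ((st F (τ.erase v)).erase τ).card :=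
              Finset.card_le_card h4
          _ = 1 := by rw [Finset.card_erase_of_mem hm, h3]
      · intro h3
        unfold Qd at h3
        rw [Finset.mem_sdiff] at h3
        exact h3.2 hτ
  · rintro ((h | h) | ⟨h, h'⟩)
    · exact hD h
    · unfold Bd at h
      rw [Finset.mem_filter] at h
      exact h.1
    · by_contra hcon
      apply h'
      unfold Qd
      rw [Finset.mem_sdiff]
      exact ⟨h, hcon⟩

theorem adj_of_seen (k n : ℕ) (hk : 1 ≤ k) (D : Finset (Finset (Fin n)))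
    (hD : ∀ e ∈ D, e.card = k) (τ : Finset (Fin n)) (hτ : τ.card = k) (hn : τ ∉ D)
    (h : 1 ≤ seen D τ) : ∃ σ ∈ D, (J k n).Adj τ σ := by
  obtain ⟨v, hv, σ, hσ, hs, hc⟩ := seen_pos hτ h
  refine ⟨σ, hσ, fun he => hn (he ▸ hσ), hτ, hD σ hσ, ?_⟩
  have h1 : (τ.erase v).card ≤ (τ ∩ σ).card :=
    Finset.card_le_card (Finset.subset_inter (Finset.erase_subset _ _) hs)
  have h2 : (τ ∩ σ).card ≤ τ.card := Finset.card_le_card Finset.inter_subset_left
  have h3 : (τ ∩ σ).card ≠ τ.card := by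
    intro he
    have h4 : τ ∩ σ = τ := Finset.eq_of_subset_of_card_le Finset.inter_subset_left he.ge
    have h5 : τ ⊆ σ := Finset.inter_eq_left.1 h4
    have h6 : τ = σ := Finset.eq_of_subset_of_card_le h5 (by rw [hD σ hσ, hτ])
    exact hn (h6 ▸ hσ)
  omega

theorem exists_near (k n θ : ℕ) (hk : 1 ≤ k) (hθ : 1 ≤ θ) (F : Finset (Finset (Fin n)))
    (hF : ∀ e ∈ F, e.card = k) :
    ∃ T : Finset (Finset (Fin n)), T.card ≤ k * n * F.card ∧ (∀ τ ∈ T, τ.card = k ∧ τ ∉ F) ∧
      ∀ D ⊆ F, Qd k θ F D ⊆ T := by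
  classical
  set T0 : Finset (Finset (Fin n)) := F.biUnion (fun σ =>
    (σ ×ˢ (Finset.univ : Finset (Fin n))).image (fun p => insert p.2 (σ.erase p.1))) with hT0
  refine ⟨T0.filter (fun τ => τ.card = k ∧ τ ∉ F), ?_, ?_, ?_⟩
  · calc (T0.filter (fun τ => τ.card = k ∧ τ ∉ F)).card ≤ T0.card := Finset.card_filter_le _ _
      _ ≤ F.card * (k * n) := by
          refine Finset.card_biUnion_le_card_mul _ _ _ ?_
          intro σ hσ
          refine Finset.card_image_le.trans ?_
          rw [Finset.card_product, hF σ hσ, Finset.card_univ, Fintype.card_fin]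
      _ = k * n * F.card := by ring
  · intro τ hτ
    rw [Finset.mem_filter] at hτ
    exact hτ.2
  · intro D hD τ hτ
    unfold Qd at hτ
    rw [Finset.mem_sdiff] at hτ
    obtain ⟨hτC, hτF⟩ := hτ
    unfold Cand at hτC
    rw [Finset.mem_filter] at hτC
    obtain ⟨_, hc, _, hse, _⟩ := hτC
    obtain ⟨v, hv, σ, hσ, hs, hcard⟩ := seen_pos hc (hθ.trans hse)
    rw [Finset.mem_filter]
    refine ⟨?_, hc, hτF⟩
    have h1 : (σ \ τ.erase v).card = 1 := by
      rw [Finset.card_sdiff_of_subset hs, hF σ (hD hσ)]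
      omega
    obtain ⟨a, ha⟩ := Finset.card_eq_one.1 h1
    have haσ : a ∈ σ ∧ a ∉ τ.erase v := by
      have : a ∈ σ \ τ.erase v := by rw [ha]; exact Finset.mem_singleton_self a
      exact Finset.mem_sdiff.1 this
    have h2 : σ.erase a = τ.erase v := by
      symm
      refine Finset.eq_of_subset_of_card_le ?_ ?_
      · intro x hx
        rw [Finset.mem_erase]
        exact ⟨fun he => haσ.2 (he ▸ hx), hs hx⟩
      · rw [Finset.card_erase_of_mem haσ.1, hF σ (hD hσ)]
        omega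
    rw [hT0, Finset.mem_biUnion]
    refine ⟨σ, hD hσ, ?_⟩
    rw [Finset.mem_image]
    refine ⟨(a, v), ?_, ?_⟩
    · rw [Finset.mem_product]
      exact ⟨haσ.1, Finset.mem_univ _⟩
    · show insert v (σ.erase a) = τ
      rw [h2, Finset.insert_erase hv]

end ThinS
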