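import Pool.Agent.Lib.ThinS.Ex

/-!
# The probability that a facet is bad (size about 120; from Ex)

Let `F` be thin, `σ ∈ F`, `D` a random subset of `F` with density `ε`.  For `v ∈ σ` the ridge
`σ.erase v` is contained in exactly two members of `F`, `σ` and `N v ≠ σ` (choose it).  `N` is
injective on `σ`: `N v = N u` with `u ≠ v` contains `σ.erase v ∪ σ.erase u = σ`, so it is `σ` (same
cardinality).  If `σ ∈ Bd θ F D` then `σ ∉ D` and `#{v ∈ σ : N v ∈ D} ≤ seen D σ < θ` (`N v ∈ D`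
gives `∃ σ' ∈ D, σ.erase v ⊆ σ'`).  Hence, with `g ∅ = 1`, `g {x} = 1/2`
(`g B = (1/2)^|B|`),
`ind (σ ∈ Bd θ F D) ≤ 2^θ * ∏_{v ∈ σ} (1/2)^|D ∩ {N v}|`
(the product is `(1/2)^m`, `m = #{v : N v ∈ D} ≤ θ`), and by `Ex_prod` (the sets `{N v}` are
pairwise disjoint subsets of `F`) and `Ex_singleton` the expectation of the product is
`∏ ((1 - ε) + ε/2) = (1 - ε/2)^k`.
-/

namespace ThinS

open Finset

/-- the other facet through the ridge `σ.erase v` -/
private theorem pb_exists {k n : ℕ} (hk : 1 ≤ k) {F : Finset (Finset (Fin n))} (hF : Thin k F)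
    {σ : Finset (Fin n)} (hσ : σ ∈ F) {v : Fin n} (hv : v ∈ σ) :
    ∃ τ ∈ F, σ.erase v ⊆ τ ∧ τ ≠ σ := by
  have hc : (σ.erase v).card + 1 = k := by
    rw [card_erase_of_mem hv, hF.1 σ hσ]
    omega
  have h2 := hF.2 (σ.erase v) hc ⟨σ, hσ, erase_subset _ _⟩
  have h3 : σ ∈ st F (σ.erase v) := mem_filter.2 ⟨hσ, erase_subset _ _⟩
  obtain ⟨τ, hτ, hne⟩ := exists_mem_ne (by rw [h2]; norm_num : 1 < (st F (σ.erase v)).card) σ
  exact ⟨τ, (mem_filter.1 hτ).1, (mem_filter.1 hτ).2, hne⟩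

theorem prob_bad (k θ n : ℕ) (hk : 1 ≤ k) (F : Finset (Finset (Fin n))) (hF : Thin k F)
    (σ : Finset (Fin n)) (hσ : σ ∈ F) (ε : ℝ) (h0 : 0 ≤ ε) (h1 : ε ≤ 1) :
    Ex ε F (ind (fun D => σ ∈ Bd θ F D)) ≤ 2 ^ θ * (1 - ε / 2) ^ k := by
  classical
  have hex := fun v (hv : v ∈ σ) => pb_exists hk hF hσ hv
  choose! N hNF hNs hNne using hex
  -- injectivity
  have hinj : ∀ u ∈ σ, ∀ v ∈ σ, N u = N v → u = v := by
    intro u hu v hv huv
    by_contra hne
    have h2 : σ ⊆ N u := by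
      intro w hw
      by_cases hwu : w = u
      · rw [huv]
        exact hNs v hv (mem_erase.2 ⟨by rw [hwu]; exact hne, hw⟩)
      · exact hNs u hu (mem_erase.2 ⟨hwu, hw⟩)
    have h3 : σ = N u := eq_of_subset_of_card_le h2 (by
      rw [hF.1 σ hσ, hF.1 (N u) (hNF u hu)])
    exact hNne u hu h3.symm
  have hpt : ∀ D ⊆ F, ind (fun D => σ ∈ Bd θ F D) D ≤
      2 ^ θ * ∏ v ∈ σ, ((1 : ℝ) / 2) ^ (D ∩ {N v}).card := by
    intro D _
    unfold ind
    split_ifs with hB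
    · have hB' := (mem_filter.1 hB).2
      have h2 : ∑ v ∈ σ, (D ∩ {N v}).card ≤ seen D σ := by
        unfold seen
        rw [card_filter]
        refine sum_le_sum fun v hv => ?_
        split_ifs with h3
        · exact (card_le_card inter_subset_right).trans (card_singleton _).le
        · rw [Nat.le_zero, card_eq_zero, ← disjoint_iff_inter_eq_empty, disjoint_singleton_right]
          intro h4
          refine h3 ⟨N v, h4, fun x hx => ?_⟩
          have hx1 := @mem_erase _ (_) _ _ _ |>.1 hx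
          exact hNs v hv (mem_erase.2 hx1)
      rw [prod_pow_eq_pow_sum]
      have h3 : ∑ v ∈ σ, (D ∩ {N v}).card ≤ θ := h2.trans hB'.2.le
      have h4 : ((1 : ℝ) / 2) ^ θ ≤ (1 / 2) ^ (∑ v ∈ σ, (D ∩ {N v}).card) :=
        pow_le_pow_of_le_one (by norm_num) (by norm_num) h3
      calc (1 : ℝ) = 2 ^ θ * (1 / 2) ^ θ := by rw [← mul_pow]; norm_num
        _ ≤ _ := mul_le_mul_of_nonneg_left h4 (by positivity)
    · positivity
  refine (Ex_mono h0 h1 F hpt).trans (le_of_eq ?_)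
  rw [Ex_smul ε (2 ^ θ) F (fun D => ∏ v ∈ σ, ((1 : ℝ) / 2) ^ (D ∩ {N v}).card),
    Ex_prod ε σ (fun v => {N v}) F (fun v hv => singleton_subset_iff.2 (hNF v hv)) ?_
      (fun _ B => ((1 : ℝ) / 2) ^ B.card)]
  · congr 1
    rw [← hF.1 σ hσ, ← prod_const]
    refine prod_congr rfl fun v _ => ?_
    rw [Ex_singleton, card_empty, card_singleton]
    ring
  · intro u hu v hv huv
    rw [Function.onFun, disjoint_singleton]
    exact fun h => huv (hinj u hu v hv h)

end ThinS
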