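import Pool.Agent.Lib.ThinS.Ex

/-!
# The probability that a non-facet is a false candidate
-/

namespace ThinS

open Finset

/-- the factor of one ridge -/
private noncomputable def gq {α : Type*} (z : ℝ) (B : Finset α) : ℝ :=
  if B.card = 0 then 1 else if B.card = 1 then z else 0

private theorem gq_nonneg {α : Type*} {z : ℝ} (hz : 0 ≤ z) (B : Finset α) : 0 ≤ gq z B := by
  unfold gq
  split_ifs
  · exact zero_le_one
  · exact hz
  · exact le_rfl

private theorem gq_pair {α : Type*} [DecidableEq α] (ε : ℝ) (P : Finset α) (hP : P.card = 2) :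
    Ex ε P (gq (1 + ε / 2)) = 1 - ε ^ 3 := by
  obtain ⟨a, b, hab, rfl⟩ := Finset.card_eq_two.mp hP
  rw [Ex_pair ε hab]
  have e0 : gq (1 + ε / 2) (∅ : Finset α) = 1 := by simp [gq]
  have e1 : gq (1 + ε / 2) ({a} : Finset α) = 1 + ε / 2 := by simp [gq]
  have e2 : gq (1 + ε / 2) ({b} : Finset α) = 1 + ε / 2 := by simp [gq]
  have e3 : gq (1 + ε / 2) ({a, b} : Finset α) = 0 := by
    unfold gq
    rw [Finset.card_pair hab]
    norm_num
  rw [e0, e1, e2, e3]
  ring

theorem prob_false (k θ n : ℕ) (hk : 1 ≤ k) (F : Finset (Finset (Fin n))) (hF : Thin k F)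
    (τ : Finset (Fin n)) (hτ : τ ∉ F) (hc : τ.card = k) (ε : ℝ) (h0 : 0 ≤ ε) (h1 : ε ≤ 1) :
    Ex ε F (ind (fun D => τ ∈ Qd k θ F D)) ≤ ((1 + ε / 2) ^ θ)⁻¹ := by
  classical
  have hz1 : (1 : ℝ) ≤ 1 + ε / 2 := by linarith
  have hz0 : (0 : ℝ) < 1 + ε / 2 := by linarith
  have hzθ : (0 : ℝ) < (1 + ε / 2) ^ θ := pow_pos hz0 θ
  let I : Finset (Fin n) := τ.filter (fun v => ∃ e ∈ F, τ.erase v ⊆ e)
  let P : Fin n → Finset (Finset (Fin n)) := fun v => st F (τ.erase v)
  have hPF : ∀ v ∈ I, P v ⊆ F := fun v _ => Finset.filter_subset _ _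
  have hPc : ∀ v ∈ I, (P v).card = 2 := by
    intro v hv
    obtain ⟨hvτ, he⟩ := Finset.mem_filter.mp hv
    refine hF.2 (τ.erase v) ?_ he
    rw [Finset.card_erase_of_mem hvτ, hc]
    omega
  have hPd : (I : Set (Fin n)).PairwiseDisjoint P := by
    intro u _ v _ huv
    show Disjoint (P u) (P v)
    rw [Finset.disjoint_left]
    intro e heu hev
    have h2 : τ.erase u ⊆ e := (Finset.mem_filter.mp heu).2
    have h3 : τ.erase v ⊆ e := (Finset.mem_filter.mp hev).2
    have heF : e ∈ F := (Finset.mem_filter.mp heu).1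
    have hsub : τ ⊆ e := by
      intro x hx
      by_cases hxu : x = u
      · subst hxu
        exact h3 (Finset.mem_erase.mpr ⟨huv, hx⟩)
      · exact h2 (Finset.mem_erase.mpr ⟨hxu, hx⟩)
    have : τ = e := Finset.eq_of_subset_of_card_le hsub (by rw [hc, hF.1 e heF])
    exact hτ (this ▸ heF)
  have hkey : ∀ D ⊆ F, ind (fun D => τ ∈ Qd k θ F D) D ≤
      ((1 + ε / 2) ^ θ)⁻¹ * ∏ v ∈ I, gq (1 + ε / 2) (D ∩ P v) := by
    intro D hD
    by_cases hQ : τ ∈ Qd k θ F D
    · have hind : ind (fun D => τ ∈ Qd k θ F D) D = 1 := by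
        unfold ind
        rw [if_pos hQ]
      rw [hind]
      have hQ1 : τ ∈ Cand k θ D := (Finset.mem_sdiff.mp hQ).1
      have hQ2 : τ.card = k ∧ τ ∉ D ∧ θ ≤ seen D τ ∧ ∀ v ∈ τ, (st D (τ.erase v)).card ≤ 1 :=
        (Finset.mem_filter.mp hQ1).2
      obtain ⟨_, _, hseen, hone⟩ := hQ2
      have hDP : ∀ v, D ∩ P v = st D (τ.erase v) := by
        intro v
        ext e
        simp only [P, st, Finset.mem_inter, Finset.mem_filter]
        constructor
        · rintro ⟨h4, _, h5⟩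
          exact ⟨h4, h5⟩
        · rintro ⟨h4, h5⟩
          exact ⟨h4, hD h4, h5⟩
      let I' : Finset (Fin n) := τ.filter (fun v => ∃ σ ∈ D, τ.erase v ⊆ σ)
      have hI' : I' ⊆ I := by
        intro v hv
        obtain ⟨h4, σ, h5, h6⟩ := Finset.mem_filter.mp hv
        exact Finset.mem_filter.mpr ⟨h4, σ, hD h5, h6⟩
      have hcard : θ ≤ I'.card := by
        have : seen D τ = I'.card := by
          unfold seen
          apply congrArg Finset.card
          ext v
          simp only [I', Finset.mem_filter, Finset.subset_iff, Finset.mem_erase]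
        rw [← this]
        exact hseen
      have hprod : ∏ v ∈ I, gq (1 + ε / 2) (D ∩ P v) = (1 + ε / 2) ^ I'.card := by
        rw [← Finset.prod_sdiff hI']
        have p1 : ∏ v ∈ I \ I', gq (1 + ε / 2) (D ∩ P v) = 1 := by
          refine Finset.prod_eq_one ?_
          intro v hv
          obtain ⟨hvI, hvI'⟩ := Finset.mem_sdiff.mp hv
          have hvτ : v ∈ τ := (Finset.mem_filter.mp hvI).1
          have hem : D ∩ P v = ∅ := by
            rw [hDP, Finset.eq_empty_iff_forall_notMem]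
            intro e he
            obtain ⟨h5, h6⟩ := Finset.mem_filter.mp he
            exact hvI' (Finset.mem_filter.mpr ⟨hvτ, e, h5, h6⟩)
          rw [hem]
          simp [gq]
        have p2 : ∏ v ∈ I', gq (1 + ε / 2) (D ∩ P v) = ∏ v ∈ I', (1 + ε / 2) := by
          refine Finset.prod_congr rfl ?_
          intro v hv
          obtain ⟨h4, σ, h5, h6⟩ := Finset.mem_filter.mp hv
          have h7 : (D ∩ P v).card = 1 := by
            rw [hDP]
            have h8 := hone v h4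
            have h9 : 0 < (st D (τ.erase v)).card :=
              Finset.card_pos.mpr ⟨σ, Finset.mem_filter.mpr ⟨h5, h6⟩⟩
            omega
          unfold gq
          rw [h7]
          norm_num
        rw [p1, p2, one_mul, Finset.prod_const]
      rw [hprod]
      have h10 : (1 + ε / 2) ^ θ ≤ (1 + ε / 2) ^ I'.card := pow_le_pow_right₀ hz1 hcard
      rw [← div_eq_inv_mul, le_div_iff₀ hzθ, one_mul]
      exact h10
    · have hind : ind (fun D => τ ∈ Qd k θ F D) D = 0 := by
        unfold ind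
        rw [if_neg hQ]
      rw [hind]
      refine mul_nonneg (inv_nonneg.mpr hzθ.le) (Finset.prod_nonneg ?_)
      intro v _
      exact gq_nonneg hz0.le _
  calc Ex ε F (ind (fun D => τ ∈ Qd k θ F D))
      ≤ Ex ε F (fun D => ((1 + ε / 2) ^ θ)⁻¹ * ∏ v ∈ I, gq (1 + ε / 2) (D ∩ P v)) :=
        Ex_mono h0 h1 F hkey
    _ = ((1 + ε / 2) ^ θ)⁻¹ * Ex ε F (fun D => ∏ v ∈ I, gq (1 + ε / 2) (D ∩ P v)) :=
        Ex_smul ε _ F _
    _ = ((1 + ε / 2) ^ θ)⁻¹ * ∏ v ∈ I, Ex ε (P v) (gq (1 + ε / 2)) := by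
        rw [Ex_prod ε I P F hPF hPd (fun _ => gq (1 + ε / 2))]
    _ ≤ ((1 + ε / 2) ^ θ)⁻¹ * 1 := by
        refine mul_le_mul_of_nonneg_left ?_ (inv_nonneg.mpr hzθ.le)
        refine Finset.prod_le_one ?_ ?_
        · intro v hv
          rw [gq_pair ε (P v) (hPc v hv)]
          have : ε ^ 3 ≤ 1 := pow_le_one₀ h0 h1
          linarith
        · intro v hv
          rw [gq_pair ε (P v) (hPc v hv)]
          have : 0 ≤ ε ^ 3 := pow_nonneg h0 3
          linarith
    _ = ((1 + ε / 2) ^ θ)⁻¹ := mul_one _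

end ThinS
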