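import Pool.Agent.Lib.ThinS.Hull
import Pool.Agent.Lib.ThinS.Book

/-!
# A ridge is in at most two facets (paper T1)
-/

namespace ThinS

open Finset

private theorem st_aux {d n : ℕ} (H : Finset (Finset (Fin n)))
    (h : rz H ≃ₜ Metric.sphere (0 : EuclideanSpace ℝ (Fin (d + 2))) 1)
    (S : Finset (Fin n)) (hS : S.card = d + 1) (w : Fin 3 → Fin n)
    (hw : Function.Injective w) (hwS : ∀ i, w i ∉ S) (hH : ∀ i, insert (w i) S ∈ H) : False := by
  classical
  set s : Fin (d + 1) → Fin n := fun i => S.orderEmbOfFin hS i with hsdef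
  have hs : Function.Injective s := (S.orderEmbOfFin hS).injective
  have hrange : ∀ v, v ∈ Set.range s ↔ v ∈ S := by
    intro v
    have := Finset.range_orderEmbOfFin S hS
    constructor
    · rintro ⟨i, rfl⟩
      exact Finset.orderEmbOfFin_mem S hS i
    · intro hv
      have h1 : v ∈ Set.range (S.orderEmbOfFin hS) := by rw [this]; exact hv
      obtain ⟨i, hi⟩ := h1
      exact ⟨i, hi⟩
  have hws : ∀ i t, w i ≠ s t := by
    intro i t hcon
    apply hwS i
    rw [hcon]
    exact (hrange _).1 ⟨t, rfl⟩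
  set K : Set (Fin n → ℝ) := {x | (∀ v, 0 ≤ x v) ∧ ∑ v, x v = 1 ∧ x (w 0) ≤ 1 / 2 ∧
      ∃ i, ∀ v, x v ≠ 0 → v = w i ∨ v ∈ Set.range s} with hK
  have hmem : ∀ x ∈ K, (WithLp.toLp 2 x : EuclideanSpace ℝ (Fin n)) ∈ rz H := by
    rintro x ⟨hx0, hx1, -, i, hi⟩
    rw [mem_rz]
    refine ⟨insert (w i) S, hH i, hx0, hx1, ?_⟩
    intro v hv
    rcases hi v hv with h1 | h1
    · rw [h1]; exact mem_insert_self _ _
    · exact mem_insert_of_mem ((hrange v).1 h1)
  have hy0 : (EuclideanSpace.single (w 0) (1 : ℝ) : EuclideanSpace ℝ (Fin n)) ∈ rz H := by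
    rw [mem_rz]
    refine ⟨insert (w 0) S, hH 0, ?_, ?_, ?_⟩
    · intro v
      by_cases hv : v = w 0
      · subst hv; simp
      · simp [hv]
    · simp
    · intro v hv
      by_cases hv1 : v = w 0
      · rw [hv1]; exact mem_insert_self _ _
      · simp [hv1] at hv
  set q : Metric.sphere (0 : EuclideanSpace ℝ (Fin (d + 2))) 1 :=
    h ⟨EuclideanSpace.single (w 0) (1 : ℝ), hy0⟩ with hq
  have : Fact (Module.finrank ℝ (EuclideanSpace ℝ (Fin (d + 2))) = (d + 1) + 1) := ⟨by simp⟩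
  set σ := stereographic' (d + 1) q with hσ
  have hne : ∀ x (hx : x ∈ K), h ⟨WithLp.toLp 2 x, hmem x hx⟩ ∈ ({q}ᶜ : Set _) := by
    intro x hx hcon
    have h1 : h ⟨WithLp.toLp 2 x, hmem x hx⟩ = q := hcon
    rw [hq] at h1
    have h2 := h.injective h1
    have h3 : (WithLp.toLp 2 x : EuclideanSpace ℝ (Fin n)) = EuclideanSpace.single (w 0) (1 : ℝ) :=
      congrArg Subtype.val h2
    have h4 : x (w 0) = 1 := by
      have := congrArg (fun z : EuclideanSpace ℝ (Fin n) => z (w 0)) h3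
      simpa using this
    have h5 := hx.2.2.1
    rw [h4] at h5
    norm_num at h5
  have hsrc : σ.source = {q}ᶜ := stereographic'_source q
  set j : (Fin n → ℝ) → (Fin (d + 1) → ℝ) := fun x =>
    if hx : x ∈ K then WithLp.ofLp (σ (h ⟨WithLp.toLp 2 x, hmem x hx⟩)) else 0 with hj
  refine book w s hw hs hws j K hK ?_ ?_
  · rw [continuousOn_iff_continuous_domRestrict]
    have h1 : K.domRestrict j = fun x : K =>
        WithLp.ofLp (σ (h ⟨WithLp.toLp 2 x.1, hmem x.1 x.2⟩)) := by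
      funext x
      show j x.1 = _
      simp only [hj]
      rw [dif_pos x.2]
    rw [h1]
    have h2 : Continuous fun x : K => h ⟨WithLp.toLp 2 x.1, hmem x.1 x.2⟩ := by
      apply h.continuous.comp
      apply Continuous.subtype_mk
      exact (PiLp.continuous_toLp 2 _).comp continuous_subtype_val
    have h3 : Continuous fun x : K => σ (h ⟨WithLp.toLp 2 x.1, hmem x.1 x.2⟩) := by
      apply ContinuousOn.comp_continuous (s := σ.source) σ.continuousOn h2
      intro x
      rw [hsrc]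
      exact hne x.1 x.2
    exact (PiLp.continuous_ofLp 2 _).comp h3
  · intro x hx y hy hxy
    simp only [hj, dif_pos hx, dif_pos hy] at hxy
    have h1 : σ (h ⟨WithLp.toLp 2 x, hmem x hx⟩) = σ (h ⟨WithLp.toLp 2 y, hmem y hy⟩) :=
      WithLp.ofLp_injective 2 hxy
    have h2 := σ.injOn (by rw [hsrc]; exact hne x hx) (by rw [hsrc]; exact hne y hy) h1
    have h3 := congrArg Subtype.val (h.injective h2)
    exact WithLp.toLp_injective 2 h3

theorem st_card_le_two {k n : ℕ} (hk : 2 ≤ k) (H : Finset (Finset (Fin n)))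
    (hH : ∀ e ∈ H, e.card = k)
    (h : rz H ≃ₜ Metric.sphere (0 : EuclideanSpace ℝ (Fin k)) 1)
    (S : Finset (Fin n)) (hS : S.card + 1 = k) : (st H S).card ≤ 2 := by
  obtain ⟨d, rfl⟩ : ∃ d, k = d + 2 := ⟨k - 2, by omega⟩
  by_contra hcon
  push Not at hcon
  obtain ⟨a, ha, b, hb, c, hc, hab, hac, hbc⟩ := Finset.two_lt_card.1 hcon
  have key : ∀ e ∈ st H S, ∃ w, w ∉ S ∧ insert w S = e := by
    intro e he
    have h1 := (mem_filter.1 he)
    have h2 : S ⊆ e ∧ S.card + 1 = e.card := ⟨h1.2, by rw [hH e h1.1]; exact hS⟩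
    obtain ⟨w, hw, hwe⟩ := Finset.exists_eq_insert_iff.2 h2
    exact ⟨w, hw, hwe⟩
  obtain ⟨wa, hwa, hea⟩ := key a ha
  obtain ⟨wb, hwb, heb⟩ := key b hb
  obtain ⟨wc, hwc, hec⟩ := key c hc
  have e1 : wa ≠ wb := fun h1 => hab (by rw [← hea, ← heb, h1])
  have e2 : wa ≠ wc := fun h1 => hac (by rw [← hea, ← hec, h1])
  have e3 : wb ≠ wc := fun h1 => hbc (by rw [← heb, ← hec, h1])
  refine st_aux H h S (by omega) ![wa, wb, wc] ?_ ?_ ?_
  · intro i j hij
    fin_cases i <;> fin_cases j <;> simp_all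
  · intro i
    fin_cases i
    · exact hwa
    · exact hwb
    · exact hwc
  · intro i
    fin_cases i
    · show insert wa S ∈ H
      rw [hea]; exact (mem_filter.1 ha).1
    · show insert wb S ∈ H
      rw [heb]; exact (mem_filter.1 hb).1
    · show insert wc S ∈ H
      rw [hec]; exact (mem_filter.1 hc).1

end ThinS
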