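import Pool.Agent.Lib.ThinS.PB
import Pool.Agent.Lib.ThinS.PQ
import Pool.Agent.Lib.ThinS.Near

/-!
# The sample (paper C1) (size about 100; from Ex, PB, PQ, Near)

For `D ⊆ F`: `|D| + |Bd| + |Qd| = Σ_{σ∈F} ind (σ ∈ D) + Σ_{σ∈F} ind (σ ∈ Bd) + Σ_{τ∈T} ind (τ ∈ Qd)`
(`T` from `exists_near`).  Expectations: `Ex ε F (ind (σ ∈ D)) = ε` for `σ ∈ F` (`Ex_restrict` with
`A = {σ}` and `Ex_singleton`), `prob_bad`, `prob_false`.  Sum:
`≤ N ε + N 2^θ (1-ε/2)^k + k n N ((1+ε/2)^θ)⁻¹ = N * rate`.  `Ex_exists_le` gives `D`.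
-/

namespace ThinS

open Finset

private theorem rd_add {α : Type*} [DecidableEq α] (p : ℝ) (S : Finset α)
    (f g : Finset α → ℝ) : Ex p S (fun D => f D + g D) = Ex p S f + Ex p S g := by
  unfold Ex
  rw [← Finset.sum_add_distrib]
  exact Finset.sum_congr rfl fun D _ => mul_add _ _ _

private theorem rd_card {β : Type*} {γ : Type*} (A : Finset β) (F : Finset β) (h : A ⊆ F)
    (D : γ) (P : β → γ → Prop) (hP : ∀ σ, P σ D ↔ σ ∈ A) :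
    (A.card : ℝ) = ∑ σ ∈ F, ind (P σ) D := by
  classical
  have h1 : A = F.filter (fun σ => σ ∈ A) := by
    ext σ
    rw [Finset.mem_filter]
    exact ⟨fun h2 => ⟨h h2, h2⟩, fun h2 => h2.2⟩
  have h2 : ∑ σ ∈ F, ind (P σ) D = ∑ σ ∈ F, (if σ ∈ A then (1 : ℝ) else 0) := by
    refine Finset.sum_congr rfl fun σ _ => ?_
    unfold ind
    by_cases h3 : σ ∈ A
    · rw [if_pos h3, if_pos ((hP σ).2 h3)]
    · rw [if_neg h3, if_neg (fun h4 => h3 ((hP σ).1 h4))]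
  rw [h2, Finset.sum_boole]
  conv_lhs => rw [h1]

private theorem rd_mem {α : Type*} [DecidableEq α] (p : ℝ) (F : Finset α) (σ : α) (hσ : σ ∈ F) :
    Ex p F (ind (fun D => σ ∈ D)) = p := by
  have h1 : Ex p F (ind (fun D => σ ∈ D)) =
      Ex p F (fun D => ind (fun B : Finset α => σ ∈ B) (D ∩ {σ})) := by
    refine Ex_congr p F fun D _ => ?_
    unfold ind
    by_cases h : σ ∈ D
    · rw [if_pos h, if_pos (Finset.mem_inter.2 ⟨h, Finset.mem_singleton_self σ⟩)]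
    · rw [if_neg h, if_neg (fun h' => h (Finset.mem_inter.1 h').1)]
  rw [h1, Ex_restrict p (Finset.singleton_subset_iff.2 hσ), Ex_singleton]
  unfold ind
  rw [if_neg (Finset.notMem_empty σ), if_pos (Finset.mem_singleton_self σ), mul_zero, zero_add,
    mul_one]

theorem exists_sample (k n θ : ℕ) (hk : 1 ≤ k) (hθ : 1 ≤ θ) (F : Finset (Finset (Fin n)))
    (hF : Thin k F) (ε : ℝ) (h0 : 0 ≤ ε) (h1 : ε ≤ 1) :
    ∃ D ⊆ F, ((D.card + (Bd θ F D).card + (Qd k θ F D).card : ℕ) : ℝ) ≤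
      (F.card : ℝ) * rate k n θ ε := by
  classical
  obtain ⟨T, hT1, hT2, hT3⟩ := exists_near k n θ hk hθ F hF.1
  refine Ex_exists_le h0 h1 F
    (fun D => ((D.card + (Bd θ F D).card + (Qd k θ F D).card : ℕ) : ℝ)) _ ?_
  have e1 : Ex ε F (fun D => ((D.card + (Bd θ F D).card + (Qd k θ F D).card : ℕ) : ℝ)) =
      Ex ε F (fun D => (∑ σ ∈ F, ind (fun D => σ ∈ D) D +
        ∑ σ ∈ F, ind (fun D => σ ∈ Bd θ F D) D) + ∑ τ ∈ T, ind (fun D => τ ∈ Qd k θ F D) D) := by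
    refine Ex_congr ε F fun D hD => ?_
    have hB : Bd θ F D ⊆ F := Finset.filter_subset _ _
    rw [← rd_card D F hD D (fun σ D => σ ∈ D) (fun σ => Iff.rfl),
      ← rd_card (Bd θ F D) F hB D (fun σ D => σ ∈ Bd θ F D) (fun σ => Iff.rfl),
      ← rd_card (Qd k θ F D) T (hT3 D hD) D (fun τ D => τ ∈ Qd k θ F D) (fun σ => Iff.rfl)]
    push_cast
    rfl
  rw [e1, rd_add, rd_add, Ex_sum, Ex_sum, Ex_sum]
  have b1 : ∑ σ ∈ F, Ex ε F (ind (fun D => σ ∈ D)) = F.card * ε := by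
    rw [Finset.sum_congr rfl fun σ hσ => rd_mem ε F σ hσ, Finset.sum_const, nsmul_eq_mul]
  have b2 : ∑ σ ∈ F, Ex ε F (ind (fun D => σ ∈ Bd θ F D)) ≤
      F.card * (2 ^ θ * (1 - ε / 2) ^ k) := by
    rw [← nsmul_eq_mul]
    exact Finset.sum_le_card_nsmul _ _ _ fun σ hσ => prob_bad k θ n hk F hF σ hσ ε h0 h1
  have hinv : 0 ≤ ((1 + ε / 2) ^ θ)⁻¹ := by positivity
  have b3 : ∑ τ ∈ T, Ex ε F (ind (fun D => τ ∈ Qd k θ F D)) ≤
      F.card * ((k : ℝ) * n * ((1 + ε / 2) ^ θ)⁻¹) := by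
    have h2 : ∑ τ ∈ T, Ex ε F (ind (fun D => τ ∈ Qd k θ F D)) ≤
        T.card • ((1 + ε / 2) ^ θ)⁻¹ :=
      Finset.sum_le_card_nsmul _ _ _ fun τ hτ =>
        prob_false k θ n hk F hF τ (hT2 τ hτ).2 (hT2 τ hτ).1 ε h0 h1
    rw [nsmul_eq_mul] at h2
    have h3 : (T.card : ℝ) ≤ (k : ℝ) * n * F.card := by exact_mod_cast hT1
    calc ∑ τ ∈ T, Ex ε F (ind (fun D => τ ∈ Qd k θ F D)) ≤
          T.card * ((1 + ε / 2) ^ θ)⁻¹ := h2
      _ ≤ ((k : ℝ) * n * F.card) * ((1 + ε / 2) ^ θ)⁻¹ := mul_le_mul_of_nonneg_right h3 hinv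
      _ = F.card * ((k : ℝ) * n * ((1 + ε / 2) ^ θ)⁻¹) := by ring
  unfold rate
  rw [mul_add, mul_add]
  exact add_le_add (add_le_add b1.le b2) b3

end ThinS
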