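import Pool.Agent.Lib.ThinS.Page
import Pool.Agent.Lib.ThinS.Free

/-!
# A sphere is thin (size about 30; from Page, Free)

For `S` with `S.card + 1 = k` contained in a member, `1 ≤ (st H S).card ≤ 2` and it is not `1`.
-/

namespace ThinS

open Finset

theorem thin_of_homeo {k n : ℕ} (hk : 2 ≤ k) (H : Finset (Finset (Fin n)))
    (hH : ∀ e ∈ H, e.card = k)
    (h : rz H ≃ₜ Metric.sphere (0 : EuclideanSpace ℝ (Fin k)) 1) : Thin k H := by
  refine ⟨hH, ?_⟩
  rintro S hS ⟨e, he, hSe⟩
  have h1 := st_card_le_two hk H hH h S hS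
  have h2 := st_card_ne_one hk H hH h S hS
  have h3 : 0 < (st H S).card := by
    rw [card_pos]
    exact ⟨e, by simp [st, he, hSe]⟩
  omega

end ThinS
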